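import Pool.Agent.Lib.MP_7af17a_al.Half

/-!
# Two-dimensional cells and antipodal gated sets
-/

namespace Pool.Agent.Med7a

variable {V : Type*} {X : SimpleGraph V}

/-- antipodal gated sets -/
structure Cell (X : SimpleGraph V) (M : Set V) : Prop where
  ne : M.Nonempty
  gated : Gated X M
  anti : ∀ x ∈ M, ∃ x' ∈ M, ∀ h, HS X h → Crs h M → (x ∈ h ↔ x' ∉ h)

theorem Gated.conv {M : Set V} (hX : TF X) (hM : Gated X M) : Conv X M := by
  intro x hx y hy z hz
  obtain ⟨g, hg, hg2⟩ := (gated_iff hX).1 hM z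
  have : z = g := by
    apply eq_of_HS hX
    intro k hk hzk
    by_contra hgk
    by_cases hc : Crs k M
    · exact hgk ((hg2 k hk hc).1 hzk)
    · have h1 : x ∉ k := fun h => hgk ((not_crs hc hx hg).1 h)
      have h2 : y ∉ k := fun h => hgk ((not_crs hc hy hg).1 h)
      exact (mem_Itv_iff' hX).1 hz k hk h1 h2 hzk
  rw [this]
  exact hg

/-- an edge of `M` crossing a given wall -/
theorem exists_edge (hX : TF X) {M : Set V} (hM : Conv X M) {h : Set V} (_hh : HS X h) {a b : V}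
    (ha : a ∈ M) (hb : b ∈ M) (hah : a ∈ h) (hbh : b ∉ h) :
    ∃ x ∈ M, ∃ y ∈ M, X.Adj x y ∧ x ∈ h ∧ y ∉ h := by
  have hcon := hX.med.connected
  suffices H : ∀ n : ℕ, ∀ a ∈ M, a ∈ h → X.dist a b = n →
      ∃ x ∈ M, ∃ y ∈ M, X.Adj x y ∧ x ∈ h ∧ y ∉ h from H _ a ha hah rfl
  intro n
  induction n with
  | zero =>
    intro a ha hah hd
    have : a = b := (hcon.dist_eq_zero_iff).1 hd
    exact absurd (this ▸ hah) hbh
  | succ n ih =>
    intro a ha hah hd
    obtain ⟨z, h1, h2⟩ := exists_step hcon hd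
    have hz : z ∈ M := by
      apply hM a ha b hb
      show X.dist a b = _
      rw [dist_adj h1]
      omega
    by_cases h3 : z ∈ h
    · exact ih z hz h3 h2
    · exact ⟨a, ha, z, hz, h1, hah, h3⟩

/-- the four quadrants of an antipodal gated set -/
theorem Cell.quad (hX : TF X) {M : Set V} (hM : Cell X M) {h k : Set V} (hh : HS X h)
    (hk : HS X k) (hc : Crs h M) (hck : Crs k M) (h1 : h ≠ k) (h2 : h ≠ kᶜ) :
    ∃ x ∈ M, x ∈ h ∧ x ∈ k := by
  obtain ⟨⟨a, ha, ha'⟩, b, hb, hb'⟩ := hc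
  obtain ⟨x, hx, y, hy, hxy, hxh, hyh⟩ := exists_edge hX (hM.gated.conv hX) hh ha hb ha' hb'
  by_cases hxk : x ∈ k
  · exact ⟨x, hx, hxh, hxk⟩
  · have hh' := hh.edge hX hxy hxh hyh
    have h3 : x ∈ k ↔ y ∈ k := by
      apply hk.same_side hX hxy
      · rw [← hh']
        exact h1.symm
      · rw [← hh']
        intro h4
        apply h2
        rw [h4, compl_compl]
    have hyk : y ∉ k := fun h => hxk (h3.2 h)
    obtain ⟨y', hy', hy2⟩ := hM.anti y hy
    refine ⟨y', hy', ?_, ?_⟩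
    · by_contra h4
      exact hyh ((hy2 h hh ⟨⟨a, ha, ha'⟩, b, hb, hb'⟩).2 h4)
    · by_contra h4
      exact hyk ((hy2 k hk hck).2 h4)

/-- gates of adjacent vertices separated by a wall crossing `M` -/
theorem adj_gate (hX : TF X) {M : Set V} {x y gx gy : V} (hxy : X.Adj x y)
    (hc : Crs (W X x y) M) (hx : IsGate X M x gx) (hy : IsGate X M y gy) :
    X.Adj gx gy ∧ W X gx gy = W X x y := by
  have h1 := (isGate_iff hX).1 hx
  have h2 := (isGate_iff hX).1 hy
  have h3 : gx ∈ W X x y := (h1.2 _ (HS_W hxy) hc).1 (left_mem_W hxy)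
  have h4 : gy ∉ W X x y := fun h => right_not_mem_W ((h2.2 _ (HS_W hxy) hc).2 h)
  have := adj_of_sep hX (HS_W hxy) h3 h4 ?_
  · exact ⟨this.1, this.2.symm⟩
  · intro k hk hk1 hk2
    have hck : Crs k M := ⟨⟨gx, hx.1, hk1⟩, gy, hy.1, hk2⟩
    exact hk.edge hX hxy ((h1.2 k hk hck).2 hk1) (fun h => hk2 ((h2.2 k hk hck).1 h))

/-- antipodes of adjacent vertices -/
theorem adj_anti (hX : TF X) {M : Set V} {x y x' y' : V} (hx : x ∈ M) (hy : y ∈ M)
    (hx' : x' ∈ M) (hy' : y' ∈ M) (hxy : X.Adj x y)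
    (hax : ∀ h, HS X h → Crs h M → (x ∈ h ↔ x' ∉ h))
    (hay : ∀ h, HS X h → Crs h M → (y ∈ h ↔ y' ∉ h)) :
    X.Adj y' x' ∧ W X y' x' = W X x y := by
  have hc : Crs (W X x y) M := ⟨⟨x, hx, left_mem_W hxy⟩, y, hy, right_not_mem_W⟩
  have h3 : y' ∈ W X x y := by
    by_contra h
    exact right_not_mem_W ((hay _ (HS_W hxy) hc).2 h)
  have h4 : x' ∉ W X x y := (hax _ (HS_W hxy) hc).1 (left_mem_W hxy)
  have := adj_of_sep hX (HS_W hxy) h3 h4 ?_
  · exact ⟨this.1, this.2.symm⟩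
  · intro k hk hk1 hk2
    have hck : Crs k M := ⟨⟨y', hy', hk1⟩, x', hx', hk2⟩
    exact hk.edge hX hxy ((hax k hk hck).2 hk2) (fun h => (hay k hk hck).1 h hk1)

/-! ### two-dimensional cells -/

theorem Cell2.cell (hX : TF X) {C : Set V} (hC : Cell2 X C) : Cell X C := by
  obtain ⟨m, hm, c, hc, rfl⟩ := hC
  have hcy := hc.cyc hX.med.connected hm
  refine ⟨⟨_, ⟨0, rfl⟩⟩, ?_, ?_⟩
  · intro o
    obtain ⟨i0, hi0⟩ := gate_cycle hX hm hc o
    refine ⟨c i0, ⟨_, rfl⟩, ?_⟩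
    rintro z ⟨j', rfl⟩
    obtain ⟨j, rfl⟩ := ZMod.intCast_surjective j'
    obtain ⟨k, hk1, hk2, hk3⟩ := hcy.rep i0 j
    have h1 := hi0 k (by omega)
    have h2 := hcy.dist i0 (i0 + k) (by omega)
    have hk3' : c j = c ((i0 + k : ℤ)) := hk3
    show X.dist _ _ = _
    rw [hk3', h1, h2]
    congr 2
    ring
  · rintro z ⟨i', rfl⟩
    obtain ⟨i, rfl⟩ := ZMod.intCast_surjective i'
    refine ⟨c ((i + m : ℤ)), ⟨_, rfl⟩, ?_⟩
    have hI : ∀ j : ℤ, c j ∈ Itv X (c i) (c ((i + m : ℤ))) := by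
      intro j
      obtain ⟨k, hk1, hk2, hk3⟩ := hcy.rep i j
      have hk3' : c j = c ((i + k : ℤ)) := hk3
      rw [hk3']
      have h0 := hcy.dist i (i + m) (by omega)
      have h1 := hcy.dist i (i + k) (by omega)
      show X.dist _ _ = _
      rw [h0, h1]
      rcases le_total 0 k with h | h
      · have h2 := hcy.dist (i + k) (i + m) (by omega)
        rw [h2]
        omega
      · have h2 := hcy.dist (i + k) (i - m) (by omega)
        have h3 := hcy.per (i - m)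
        have h4 : c ((i + m : ℤ)) = c ((i - m : ℤ)) := by
          rw [← h3]
          congr 2
          ring
        rw [h4, h2]
        omega
    rintro h hh ⟨⟨a, ⟨ja', rfl⟩, ha2⟩, b, ⟨jb', rfl⟩, hb2⟩
    obtain ⟨ja, rfl⟩ := ZMod.intCast_surjective ja'
    obtain ⟨jb, rfl⟩ := ZMod.intCast_surjective jb'
    constructor
    · intro h1 h2
      exact hb2 ((mem_Itv_iff hX).1 (hI jb) h hh h1 h2)
    · intro h1
      by_contra h2
      exact (mem_Itv_iff' hX).1 (hI ja) h hh h2 h1 ha2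

theorem Cell2.nbrs (_hX : TF X) {C : Set V} (hC : Cell2 X C) {z : V} (hz : z ∈ C) :
    ∃ x ∈ C, ∃ y ∈ C, X.Adj z x ∧ X.Adj z y ∧ x ≠ y ∧ ∀ w ∈ C, X.Adj z w → w = x ∨ w = y := by
  obtain ⟨m, hm, c, hc, rfl⟩ := hC
  obtain ⟨i, rfl⟩ := hz
  refine ⟨c (i + 1), ⟨_, rfl⟩, c (i - 1), ⟨_, rfl⟩, ?_, ?_, ?_, ?_⟩
  · rw [hc.adj]
    exact Or.inl rfl
  · rw [hc.adj]
    right
    ring
  · intro h
    have h1 := hc.inj h
    have h2 : (2 : ZMod (2 * m)) = 0 := by
      have : (2 : ZMod (2 * m)) = (i + 1) - (i - 1) := by ring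
      rw [this, h1, sub_self]
    have h3 : ((2 : ℕ) : ZMod (2 * m)) = 0 := by exact_mod_cast h2
    rw [ZMod.natCast_eq_zero_iff] at h3
    have := Nat.le_of_dvd (by norm_num) h3
    omega
  · rintro w ⟨j, rfl⟩ hw
    rw [hc.adj] at hw
    rcases hw with h | h
    · left
      rw [h]
    · right
      congr 1
      rw [h]
      ring

theorem Cell2.unique (hX : TF X) {C C' : Set V} (hC : Cell2 X C) (hC' : Cell2 X C') {x y z : V}
    (hzx : X.Adj z x) (hzy : X.Adj z y) (hxy : x ≠ y) (h1 : x ∈ C) (h2 : y ∈ C) (h3 : z ∈ C)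
    (h1' : x ∈ C') (h2' : y ∈ C') (h3' : z ∈ C') : C = C' := by
  obtain ⟨m, hm, c, hc, rfl⟩ := hC
  obtain ⟨m', hm', c', hc', rfl⟩ := hC'
  refine hX.med.share m m' c c' hm hm' hc hc' z x z y hzx hzy ?_ h3 h1 h3 h2 h3' h1' h3' h2'
  intro h
  rw [Sym2.eq_iff] at h
  rcases h with ⟨-, h⟩ | ⟨h, -⟩
  · exact hxy h
  · exact hzy.ne h

/-- condition (3): the cell spanned by two descents -/
theorem exists_cell2 (hX : TF X) {o x y z : V} (hne : x ≠ y) (hzx : X.Adj z x)
    (hzy : X.Adj z y) (h1 : o ∉ W X z x) (h2 : o ∉ W X z y) :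
    ∃ C, Cell2 X C ∧ z ∈ C ∧ x ∈ C ∧ y ∈ C ∧ ∀ h, HS X h → Crs h C → (z ∈ h ↔ o ∉ h) := by
  have hcon := hX.med.connected
  have d1 : X.dist o x + 1 = X.dist o z := by
    have := hX.adj_or o hzx
    rw [mem_W] at h1
    omega
  have d2 : X.dist o y + 1 = X.dist o z := by
    have := hX.adj_or o hzy
    rw [mem_W] at h2
    omega
  obtain ⟨m, hm, c, hc, c0, c1, c2, c3, c4⟩ := hX.med.cycle o x y z hne hzx hzy d1 d2
  have hcell : Cell2 X (Set.range c) := ⟨m, hm, c, hc, rfl⟩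
  refine ⟨_, hcell, ⟨_, c0⟩, ⟨_, c1⟩, ⟨_, c2⟩, ?_⟩
  obtain ⟨z', hz', hz2⟩ := (hcell.cell hX).anti z ⟨_, c0⟩
  -- `z'` is `c m`
  have key : ∀ h, HS X h → Crs h (Set.range c) → z ∈ h → o ∉ h := by
    intro h hh hcr hz ho
    have hcy := hc.cyc hcon hm
    have hzI : ∀ w ∈ Set.range c, w ∈ Itv X z (c (m : ZMod (2 * m))) := by
      rintro w ⟨j', rfl⟩
      obtain ⟨j, rfl⟩ := ZMod.intCast_surjective j'
      obtain ⟨k, hk1, hk2, hk3⟩ := hcy.rep 0 j
      rw [zero_add] at hk3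
      have hk3' : c j = c ((k : ℤ)) := hk3
      have e0 : z = c ((0 : ℤ)) := by rw [Int.cast_zero]; exact c0.symm
      have em : c (m : ZMod (2 * m)) = c ((m : ℤ)) := by rw [Int.cast_natCast]
      rw [hk3', em, e0]
      have h0 := hcy.dist 0 m (by omega)
      have h1 := hcy.dist 0 k (by omega)
      show X.dist _ _ = _
      rw [h0, h1]
      rcases le_total 0 k with h | h
      · have h2 := hcy.dist k m (by omega)
        rw [h2]
        omega
      · have h2 := hcy.dist k (-m) (by omega)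
        have h3 := hcy.per (-m)
        have h4 : c ((m : ℤ)) = c ((-m : ℤ)) := by
          rw [← h3]
          congr 2
          ring
        rw [h4, h2]
        omega
    have hm' : c (m : ZMod (2 * m)) ∉ h := by
      intro hmh
      obtain ⟨-, b, hb, hb'⟩ := hcr
      exact hb' ((mem_Itv_iff hX).1 (hzI b hb) h hh hz hmh)
    have hx : x ∉ h := fun hx => hm' ((mem_Itv_iff hX).1 c3 h hh ho hx)
    have hy : y ∉ h := fun hy => hm' ((mem_Itv_iff hX).1 c4 h hh ho hy)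
    have e1 := hh.edge hX hzx hz hx
    have e2 := hh.edge hX hzy hz hy
    have h5 : x ∉ W X z y := by rw [← e2]; exact hx
    rw [mem_W, X.dist_comm, dist_adj hzx] at h5
    have : X.dist x y = 0 := by
      have h6 : x ∉ W X z y := by rw [← e2]; exact hx
      rw [not_mem_W hX hzy, mem_W] at h6
      rw [X.dist_comm (u := x) (v := z), dist_adj hzx] at h6
      omega
    exact hne ((hcon.dist_eq_zero_iff).1 this)
  intro h hh hcr
  constructor
  · exact key h hh hcr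
  · intro ho
    by_contra hz
    exact key hᶜ (hh.compl hX) hcr.compl hz ho

/-- in a half of an even cycle one quadrant of two further walls is missing -/
theorem Cell2.arc (hX : TF X) {C : Set V} (hC : Cell2 X C) {l h k : Set V} (hl : HS X l)
    (hh : HS X h) (hk : HS X k) (cl : Crs l C) (ch : Crs h C) (ck : Crs k C)
    (h1 : h ≠ l) (h2 : h ≠ lᶜ) (h3 : k ≠ l) (h4 : k ≠ lᶜ) (h5 : h ≠ k) (h6 : h ≠ kᶜ) :
    ∃ a b : Set V, (a = h ∨ a = hᶜ) ∧ (b = k ∨ b = kᶜ) ∧ ∀ z ∈ C, z ∈ l → z ∈ a → z ∉ b := by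
  obtain ⟨m, hm, c, hc, rfl⟩ := hC
  have hcon := hX.med.connected
  have hcy := hc.cyc hcon hm
  -- an index `i` with `c i ∈ l`, `c (i-1) ∉ l`
  obtain ⟨i, hi1, hi2⟩ : ∃ i : ℤ, c i ∈ l ∧ c ((i - 1 : ℤ)) ∉ l := by
    obtain ⟨⟨a, ⟨ja', rfl⟩, ha2⟩, b, ⟨jb', rfl⟩, hb2⟩ := cl
    obtain ⟨ja, rfl⟩ := ZMod.intCast_surjective ja'
    obtain ⟨jb, rfl⟩ := ZMod.intCast_surjective jb'
    obtain ⟨k, hk1, hk2, hk3⟩ := hcy.rep jb ja
    have hk3' : c ja = c ((jb + k : ℤ)) := hk3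
    have hk4 : c ja = c ((jb + (k + 2 * m) : ℤ)) := by
      rw [hk3']
      have := hcy.per (jb + k)
      rw [← this]
      congr 2
      ring
    obtain ⟨n, hn⟩ : ∃ n : ℕ, k + 2 * m = n := ⟨(k + 2 * m).toNat, by omega⟩
    rw [hn] at hk4
    rw [hk4] at ha2
    clear hk4 hn hk3 hk3'
    induction n with
    | zero => exact absurd (by simpa using ha2) hb2
    | succ n ih =>
      by_cases hcn : c ((jb + n : ℤ)) ∈ l
      · exact ih hcn
      · refine ⟨jb + (n + 1 : ℕ), ha2, ?_⟩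
        have : (jb + (n + 1 : ℕ) - 1 : ℤ) = jb + n := by push_cast; ring
        rw [this]
        exact hcn
  have hadj1 : X.Adj (c i) (c ((i - 1 : ℤ))) := hcy.adj' i (i - 1) (Or.inr rfl)
  have hl' := hl.edge hX hadj1 hi1 hi2
  -- position of the vertices of `l`
  have posl : ∀ z ∈ Set.range c, z ∈ l → ∃ j : ℤ, 0 ≤ j ∧ j ≤ m - 1 ∧ z = c ((i + j : ℤ)) := by
    rintro z ⟨j', rfl⟩ hz
    obtain ⟨j, rfl⟩ := ZMod.intCast_surjective j'
    obtain ⟨r, q, hr1, hr2, hr3⟩ := int_rep hm i j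
    have e : c j = c ((i + r : ℤ)) := by
      have := hcy.per' (i + r) q
      rw [← this, ← hr3]
    rw [e] at hz ⊢
    refine ⟨r, ?_, by omega, rfl⟩
    by_contra hneg
    rw [hl', mem_W] at hz
    have d1 := hcy.dist (i + r) i (by omega)
    have d2 := hcy.dist (i + r) (i - 1) (by omega)
    rw [d1, d2] at hz
    omega
  -- position of another wall
  have wall : ∀ h, HS X h → Crs h (Set.range c) → h ≠ l → h ≠ lᶜ →
      ∃ a, (a = h ∨ a = hᶜ) ∧ ∃ s : ℤ, 0 ≤ s ∧ s ≤ m - 2 ∧ a = W X (c ((i + s : ℤ)))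
        (c ((i + s + 1 : ℤ))) := by
    intro h hh ch hn1 hn2
    -- orient
    obtain ⟨a, ha, haS, hca, hai⟩ : ∃ a, (a = h ∨ a = hᶜ) ∧ HS X a ∧ Crs a (Set.range c) ∧
        c i ∈ a := by
      by_cases hci : c i ∈ h
      · exact ⟨h, Or.inl rfl, hh, ch, hci⟩
      · exact ⟨hᶜ, Or.inr rfl, hh.compl hX, ch.compl, hci⟩
    refine ⟨a, ha, ?_⟩
    have hop : c ((i + m : ℤ)) ∉ a := by
      intro hmem
      obtain ⟨-, b, ⟨jb', rfl⟩, hb2⟩ := hca
      obtain ⟨jb, rfl⟩ := ZMod.intCast_surjective jb'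
      apply hb2
      have hI : c jb ∈ Itv X (c i) (c ((i + m : ℤ))) := by
        obtain ⟨k, hk1, hk2, hk3⟩ := hcy.rep i jb
        have hk3' : c jb = c ((i + k : ℤ)) := hk3
        rw [hk3']
        have h0 := hcy.dist i (i + m) (by omega)
        have h1 := hcy.dist i (i + k) (by omega)
        show X.dist _ _ = _
        rw [h0, h1]
        rcases le_total 0 k with h | h
        · have h2 := hcy.dist (i + k) (i + m) (by omega)
          rw [h2]
          omega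
        · have h2 := hcy.dist (i + k) (i - m) (by omega)
          have h3 := hcy.per (i - m)
          have h4 : c ((i + m : ℤ)) = c ((i - m : ℤ)) := by
            rw [← h3]
            congr 2
            ring
          rw [h4, h2]
          omega
      exact (mem_Itv_iff hX).1 hI a haS hai hmem
    obtain ⟨s, hs0, hs1, hs2, hs3⟩ : ∃ s : ℕ, s + 1 ≤ m ∧ c ((i + s : ℤ)) ∈ a ∧
        c ((i + s + 1 : ℤ)) ∉ a ∧ True := by
      by_contra hcon2
      push Not at hcon2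
      have : ∀ s : ℕ, s ≤ m → c ((i + s : ℤ)) ∈ a := by
        intro s
        induction s with
        | zero => intro _; simpa using hai
        | succ s ih =>
          intro hs
          by_contra hs2
          have h9 := hcon2 s hs (ih (by omega))
          apply h9
          · have : (i + s + 1 : ℤ) = i + (s + 1 : ℕ) := by push_cast; ring
            rw [this]
            exact hs2
      exact hop (by simpa using this m le_rfl)
    refine ⟨s, by omega, ?_, haS.edge hX (hcy.adj _) hs1 hs2⟩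
    by_contra hs4
    have hsm : (s : ℤ) = m - 1 := by omega
    -- the wall of `l`
    have h9 := W_opp hX hm hc (i - 1)
    have e1 : (i - 1 + 1 : ℤ) = i := by ring
    have e2 : (i - 1 + m + 1 : ℤ) = i + s + 1 := by rw [hsm]; ring
    have e3 : (i - 1 + m : ℤ) = i + s := by rw [hsm]; ring
    rw [e1, e2, e3] at h9
    have h10 := haS.edge hX (hcy.adj _) hs1 hs2
    have h11 : aᶜ = lᶜ := by
      rw [h10, hl', W_compl hX (hcy.adj _), W_compl hX hadj1]
      exact h9.symm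
    have h12 : a = l := compl_injective h11
    rcases ha with rfl | ha
    · exact hn1 h12
    · apply hn2
      rw [← h12, ha, compl_compl]
  obtain ⟨a, ha, s, hs1, hs2, hs3⟩ := wall h hh ch h1 h2
  obtain ⟨b, hb, t, ht1, ht2, ht3⟩ := wall k hk ck h3 h4
  -- membership
  have memb : ∀ (s j : ℤ), 0 ≤ s → s ≤ m - 2 → 0 ≤ j → j ≤ m - 1 →
      (c ((i + j : ℤ)) ∈ W X (c ((i + s : ℤ))) (c ((i + s + 1 : ℤ))) ↔ j ≤ s) := by
    intro s j hs1 hs2 hj1 hj2
    rw [mem_W, hcy.dist (i + j) (i + s) (by omega), hcy.dist (i + j) (i + s + 1) (by omega)]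
    omega
  have hst : s ≠ t := by
    rintro rfl
    have hab : a = b := hs3.trans ht3.symm
    rcases ha with rfl | rfl <;> rcases hb with rfl | rfl
    · exact h5 hab
    · exact h6 hab
    · exact h6 (by rw [← hab, compl_compl])
    · exact h5 (compl_injective hab)
  rcases lt_or_gt_of_ne hst with hlt | hlt
  · refine ⟨a, bᶜ, ha, ?_, ?_⟩
    · rcases hb with rfl | rfl
      · exact Or.inr rfl
      · exact Or.inl (compl_compl _)
    · intro z hz hzl hza hzb
      obtain ⟨j, hj1, hj2, rfl⟩ := posl z hz hzl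
      rw [hs3, memb s j hs1 hs2 hj1 hj2] at hza
      apply hzb
      rw [ht3, memb t j ht1 ht2 hj1 hj2]
      omega
  · refine ⟨aᶜ, b, ?_, hb, ?_⟩
    · rcases ha with rfl | rfl
      · exact Or.inr rfl
      · exact Or.inl (compl_compl _)
    · intro z hz hzl hza hzb
      obtain ⟨j, hj1, hj2, rfl⟩ := posl z hz hzl
      rw [ht3, memb t j ht1 ht2 hj1 hj2] at hzb
      apply hza
      rw [hs3, memb s j hs1 hs2 hj1 hj2]
      omega

/-- two 2-cells crossed by the same two walls are crossed by the same walls -/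
theorem par2 (hX : TF X) {C C' : Set V} (hC : Cell2 X C) (hC' : Cell2 X C') {h k l : Set V}
    (hh : HS X h) (hk : HS X k) (hl : HS X l) (h1 : h ≠ k) (h2 : h ≠ kᶜ)
    (ch : Crs h C) (ck : Crs k C) (ch' : Crs h C') (ck' : Crs k C') (cl : Crs l C) :
    Crs l C' := by
  by_contra hncl
  obtain ⟨l0, hl0, hl0S, hl0c, hin⟩ : ∃ l0, (l0 = l ∨ l0 = lᶜ) ∧ HS X l0 ∧ Crs l0 C ∧
      ∀ z ∈ C', z ∈ l0 := by
    obtain ⟨w, hw⟩ := (hC'.cell hX).ne
    by_cases hwl : w ∈ l
    · exact ⟨l, Or.inl rfl, hl, cl, fun z hz => (not_crs hncl hw hz).1 hwl⟩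
    · exact ⟨lᶜ, Or.inr rfl, hl.compl hX, cl.compl,
        fun z hz hzl => hwl ((not_crs hncl hw hz).2 hzl)⟩
  have ncr : ∀ h, Crs h C' → h ≠ l0 ∧ h ≠ l0ᶜ := by
    intro h hc
    obtain ⟨⟨a, ha, ha'⟩, b, hb, hb'⟩ := hc
    constructor
    · rintro rfl
      exact hb' (hin b hb)
    · rintro rfl
      exact ha' (hin a ha)
  obtain ⟨n1, n2⟩ := ncr h ch'
  obtain ⟨n3, n4⟩ := ncr k ck'
  obtain ⟨a, b, ha, hb, hab⟩ := hC.arc hX hl0S hh hk hl0c ch ck n1 n2 n3 n4 h1 h2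
  have ha1 : HS X a ∧ Crs a C ∧ Crs a C' := by
    rcases ha with rfl | rfl
    · exact ⟨hh, ch, ch'⟩
    · exact ⟨hh.compl hX, ch.compl, ch'.compl⟩
  have hb1 : HS X b ∧ Crs b C ∧ Crs b C' := by
    rcases hb with rfl | rfl
    · exact ⟨hk, ck, ck'⟩
    · exact ⟨hk.compl hX, ck.compl, ck'.compl⟩
  have hn1 : a ≠ b := by
    rcases ha with rfl | rfl <;> rcases hb with rfl | rfl
    · exact h1
    · exact h2
    · intro h; exact h2 (by rw [← h, compl_compl])
    · intro h; exact h1 (compl_injective h)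
  have hn2 : a ≠ bᶜ := by
    rcases ha with rfl | rfl <;> rcases hb with rfl | rfl
    · exact h2
    · rw [compl_compl]; exact h1
    · intro h; exact h1 (compl_injective h)
    · intro h; rw [compl_compl] at h; exact h2 (by rw [← h, compl_compl])
  obtain ⟨x, hx, hxa, hxb⟩ := (hC'.cell hX).quad hX ha1.1 hb1.1 ha1.2.2 hb1.2.2 hn1 hn2
  obtain ⟨g, hg, hg2⟩ := (gated_iff hX).1 (hC.cell hX).gated x
  exact hab g hg ((hg2 l0 hl0S hl0c).1 (hin x hx)) ((hg2 a ha1.1 ha1.2.1).1 hxa)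
    ((hg2 b hb1.1 hb1.2.1).1 hxb)

end Pool.Agent.Med7a
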