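import Mathlib

/-!
# Equivariant collapses of posets without chains of four elements

A group acting by automorphisms on a finite poset, whose order complex has dimension at most two, is
connected, has Euler characteristic one and has a free edge in every nonempty set of triangles,
fixes an element of the poset.
-/

set_option autoImplicit false

namespace Pool.Agent.Med7a.Collapse

open Finset Relation

variable {P : Type*} [PartialOrder P] {G : Type*} [Group G] [MulAction G P]

omit [PartialOrder P] in
theorem eqvGen_closed {r : P → P → Prop} {S : P → Prop} (h : ∀ a b, r a b → (S a ↔ S b)) {x y : P}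
    (hxy : EqvGen r x y) : S x ↔ S y := by
  induction hxy with
  | rel a b hab => exact h a b hab
  | refl a => exact Iff.rfl
  | symm a b _ ih => exact ih.symm
  | trans a b c _ _ ih1 ih2 => exact ih1.trans ih2

omit [PartialOrder P] in
theorem eqvGen_map {r s : P → P → Prop} {f : P → P} (h : ∀ a b, r a b → EqvGen s (f a) (f b))
    {x y : P} (hxy : EqvGen r x y) : EqvGen s (f x) (f y) := by
  induction hxy with
  | rel a b hab => exact h a b hab
  | refl a => exact EqvGen.refl _
  | symm a b _ ih => exact EqvGen.symm _ _ ih
  | trans a b c _ _ ih1 ih2 => exact EqvGen.trans _ _ _ ih1 ih2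

open Classical in
/-- A tree with vertices in a poset and edges between comparable elements: a group of automorphisms
fixes a vertex. -/
theorem tree_fixed (n : ℕ) : ∀ (V : Finset P) (E : Finset (P × P)), V.card = n →
    (∀ p ∈ E, p.1 ∈ V ∧ p.2 ∈ V ∧ p.1 < p.2) →
    (∀ (g : G), ∀ x ∈ V, g • x ∈ V) → (∀ (g : G), ∀ p ∈ E, (g • p.1, g • p.2) ∈ E) →
    (∀ x ∈ V, ∀ y ∈ V, EqvGen (fun a b => (a, b) ∈ E) x y) → V.card = E.card + 1 →
    ∃ x ∈ V, ∀ g : G, g • x = x := by
  induction n using Nat.strong_induction_on with
  | _ n ih =>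
    intro V E hn hE hGV hGE hconn hcard
    -- degree
    let inc : P → Finset (P × P) := fun x => E.filter fun p => p.1 = x ∨ p.2 = x
    have hsum : ∑ x ∈ V, (inc x).card = 2 * E.card := by
      have h1 : ∀ x ∈ V, (inc x).card = ∑ p ∈ E, if (p.1 = x ∨ p.2 = x) then 1 else 0 := by
        intro x _
        rw [card_filter]
      rw [sum_congr rfl h1, sum_comm]
      have h2 : ∀ p ∈ E, (∑ x ∈ V, if (p.1 = x ∨ p.2 = x) then 1 else 0) = 2 := by
        intro p hp
        obtain ⟨e1, e2, e3⟩ := hE p hp
        rw [← card_filter]
        have : (V.filter fun x => p.1 = x ∨ p.2 = x) = {p.1, p.2} := by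
          ext x
          simp only [mem_filter, mem_insert, mem_singleton]
          constructor
          · rintro ⟨-, h | h⟩
            · exact Or.inl h.symm
            · exact Or.inr h.symm
          · rintro (rfl | rfl)
            · exact ⟨e1, Or.inl rfl⟩
            · exact ⟨e2, Or.inr rfl⟩
        rw [this, card_pair e3.ne]
      rw [sum_congr rfl h2, sum_const, smul_eq_mul, mul_comm]
    by_cases h1 : V.card = 1
    · obtain ⟨x, hx⟩ := card_eq_one.1 h1
      refine ⟨x, by rw [hx]; exact mem_singleton_self x, fun g => ?_⟩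
      have := hGV g x (by rw [hx]; exact mem_singleton_self x)
      rw [hx, mem_singleton] at this
      exact this
    -- closed sets
    have hclosed : ∀ S : P → Prop, (∀ p ∈ E, (S p.1 ↔ S p.2)) → ∀ x ∈ V, ∀ y ∈ V, (S x ↔ S y) :=
      fun S hS x hx y hy => eqvGen_closed (fun a b hab => hS (a, b) hab) (hconn x hx y hy)
    have hdeg : ∀ x ∈ V, 1 ≤ (inc x).card := by
      intro x hx
      by_contra h0
      have h0' : inc x = ∅ := by
        rw [← card_eq_zero]
        omega
      have hS := hclosed (fun z => z = x) (by
        intro p hp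
        constructor
        · intro h
          have : p ∈ inc x := mem_filter.2 ⟨hp, Or.inl h⟩
          rw [h0'] at this
          exact absurd this (notMem_empty _)
        · intro h
          have : p ∈ inc x := mem_filter.2 ⟨hp, Or.inr h⟩
          rw [h0'] at this
          exact absurd this (notMem_empty _))
      apply h1
      rw [card_eq_one]
      refine ⟨x, ?_⟩
      ext y
      rw [mem_singleton]
      constructor
      · intro hy
        exact (hS x hx y hy).1 rfl
      · rintro rfl
        exact hx
    let L : Finset P := V.filter fun x => (inc x).card = 1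
    by_cases h2 : ∃ p ∈ E, p.1 ∈ L ∧ p.2 ∈ L
    · obtain ⟨p, hp, hp1, hp2⟩ := h2
      obtain ⟨e1, e2, e3⟩ := hE p hp
      have huniq : ∀ x, x ∈ L → ∀ p q, p ∈ inc x → q ∈ inc x → p = q := by
        intro x hx p q hp hq
        have h3 : (inc x).card = 1 := (mem_filter.1 hx).2
        exact card_le_one.1 h3.le p hp q hq
      have hS := hclosed (fun z => z = p.1 ∨ z = p.2) (by
        intro q hq
        constructor
        · rintro (h | h)
          · have : q = p := huniq p.1 hp1 q p (mem_filter.2 ⟨hq, Or.inl h⟩)
              (mem_filter.2 ⟨hp, Or.inl rfl⟩)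
            rw [this]; exact Or.inr rfl
          · have : q = p := huniq p.2 hp2 q p (mem_filter.2 ⟨hq, Or.inl h⟩)
              (mem_filter.2 ⟨hp, Or.inr rfl⟩)
            rw [this]; exact Or.inr rfl
        · rintro (h | h)
          · have : q = p := huniq p.1 hp1 q p (mem_filter.2 ⟨hq, Or.inr h⟩)
              (mem_filter.2 ⟨hp, Or.inl rfl⟩)
            rw [this]; exact Or.inl rfl
          · have : q = p := huniq p.2 hp2 q p (mem_filter.2 ⟨hq, Or.inr h⟩)
              (mem_filter.2 ⟨hp, Or.inr rfl⟩)
            rw [this]; exact Or.inl rfl)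
      have hV : ∀ y ∈ V, y = p.1 ∨ y = p.2 := fun y hy => (hS p.1 e1 y hy).1 (Or.inl rfl)
      refine ⟨p.1, e1, fun g => ?_⟩
      have hlt := (hE _ (hGE g p hp)).2.2
      simp only at hlt
      rcases hV _ (hGV g _ e1) with h | h
      · exact h
      · exfalso
        rcases hV _ (hGV g _ e2) with h' | h'
        · rw [h, h'] at hlt
          exact absurd (hlt.trans e3) (lt_irrefl _)
        · rw [h, h'] at hlt
          exact lt_irrefl _ hlt
    · push Not at h2
      -- the leaf edges
      have hex : ∀ x ∈ L, ∃ p, inc x = {p} := fun x hx => card_eq_one.1 (mem_filter.1 hx).2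
      choose! ε hε using hex
      have hεE : ∀ x ∈ L, ε x ∈ E ∧ ((ε x).1 = x ∨ (ε x).2 = x) := by
        intro x hx
        have : ε x ∈ inc x := by rw [hε x hx]; exact mem_singleton_self _
        exact mem_filter.1 this
      have hεu : ∀ x ∈ L, ∀ p ∈ E, (p.1 = x ∨ p.2 = x) → p = ε x := by
        intro x hx p hp h
        have : p ∈ inc x := mem_filter.2 ⟨hp, h⟩
        rw [hε x hx, mem_singleton] at this
        exact this
      let V' := V \ L
      let E' := E.filter fun p => p.1 ∉ L ∧ p.2 ∉ L
      have hLV : L ⊆ V := filter_subset _ _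
      have hR : (E \ E').card = L.card := by
        symm
        apply card_bij (fun x _ => ε x)
        · intro x hx
          rw [mem_sdiff, mem_filter]
          refine ⟨(hεE x hx).1, fun h => ?_⟩
          rcases (hεE x hx).2 with h3 | h3
          · exact h.2.1 (by rw [h3]; exact hx)
          · exact h.2.2 (by rw [h3]; exact hx)
        · intro x hx y hy hxy
          rcases (hεE x hx).2 with h3 | h3 <;> rcases (hεE y hy).2 with h4 | h4
          · rw [← h3, ← h4, hxy]
          · exact absurd (by rw [h4]; exact hy) (h2 _ (hεE y hy).1 (by rw [← hxy, h3]; exact hx))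
          · exact absurd (by rw [h3]; exact hx) (h2 _ (hεE x hx).1 (by rw [hxy, h4]; exact hy))
          · rw [← h3, ← h4, hxy]
        · intro p hp
          rw [mem_sdiff, mem_filter] at hp
          obtain ⟨hp1, hp2⟩ := hp
          by_cases h3 : p.1 ∈ L
          · exact ⟨p.1, h3, (hεu _ h3 p hp1 (Or.inl rfl)).symm⟩
          · have h4 : p.2 ∈ L := by
              by_contra h4
              exact hp2 ⟨hp1, h3, h4⟩
            exact ⟨p.2, h4, (hεu _ h4 p hp1 (Or.inr rfl)).symm⟩
      have hE'E : E' ⊆ E := filter_subset _ _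
      have hcE : (E \ E').card + E'.card = E.card := card_sdiff_add_card_eq_card hE'E
      have hcV : (V \ L).card + L.card = V.card := card_sdiff_add_card_eq_card hLV
      -- there are leaves
      have hLpos : 0 < L.card := by
        by_contra h0
        have h0' : L = ∅ := by
          rw [← card_eq_zero]
          omega
        have h3 : ∀ x ∈ V, 2 ≤ (inc x).card := by
          intro x hx
          have h4 := hdeg x hx
          have h5 : (inc x).card ≠ 1 := by
            intro h5
            have : x ∈ L := mem_filter.2 ⟨hx, h5⟩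
            rw [h0'] at this
            exact absurd this (notMem_empty _)
          omega
        have h4 : ∑ x ∈ V, 2 ≤ ∑ x ∈ V, (inc x).card := sum_le_sum h3
        rw [hsum, sum_const, smul_eq_mul] at h4
        omega
      have hGinc : ∀ (g : G) (x : P), (inc (g • x)).card = (inc x).card := by
        have key : ∀ (g : G) (x : P), (inc x).card ≤ (inc (g • x)).card := by
          intro g x
          apply card_le_card_of_injOn (fun p => (g • p.1, g • p.2))
          · intro p hp
            have hp' := mem_filter.1 hp
            rw [SetLike.mem_coe]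
            refine mem_filter.2 ⟨hGE g p hp'.1, ?_⟩
            rcases hp'.2 with h | h
            · exact Or.inl (by show g • p.1 = g • x; rw [h])
            · exact Or.inr (by show g • p.2 = g • x; rw [h])
          · intro p _ q _ hpq
            have h3 := congrArg Prod.fst hpq
            have h4 := congrArg Prod.snd hpq
            simp only [smul_left_cancel_iff] at h3 h4
            exact Prod.ext h3 h4
        intro g x
        apply le_antisymm
        · have := key g⁻¹ (g • x)
          rwa [inv_smul_smul] at this
        · exact key g x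
      have hGL : ∀ (g : G) (x : P), g • x ∈ L → x ∈ L := by
        intro g x hx
        have hx' := mem_filter.1 hx
        refine mem_filter.2 ⟨?_, ?_⟩
        · have := hGV g⁻¹ _ hx'.1
          rwa [inv_smul_smul] at this
        · rw [← hGinc g x]
          exact hx'.2
      have hlt' : V'.card < n := by
        show (V \ L).card < n
        omega
      have hc' : V'.card = E'.card + 1 := by
        show (V \ L).card = E'.card + 1
        omega
      have hmain := ih V'.card hlt' V' E' rfl ?_ ?_ ?_ ?_ hc'
      · obtain ⟨x, hx, hx'⟩ := hmain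
        exact ⟨x, (mem_sdiff.1 hx).1, hx'⟩
      · intro p hp
        obtain ⟨hp1, hp2, hp3⟩ := mem_filter.1 hp
        obtain ⟨e1, e2, e3⟩ := hE p hp1
        exact ⟨mem_sdiff.2 ⟨e1, hp2⟩, mem_sdiff.2 ⟨e2, hp3⟩, e3⟩
      · intro g x hx
        obtain ⟨hx1, hx2⟩ := mem_sdiff.1 hx
        exact mem_sdiff.2 ⟨hGV g x hx1, fun h => hx2 (hGL g x h)⟩
      · intro g p hp
        obtain ⟨hp1, hp2, hp3⟩ := mem_filter.1 hp
        exact mem_filter.2 ⟨hGE g p hp1, fun h => hp2 (hGL g _ h), fun h => hp3 (hGL g _ h)⟩
      · intro x hx y hy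
        obtain ⟨hx1, hx2⟩ := mem_sdiff.1 hx
        obtain ⟨hy1, hy2⟩ := mem_sdiff.1 hy
        let r : P → P := fun x => if x ∈ L then (if (ε x).1 = x then (ε x).2 else (ε x).1) else x
        have hr : ∀ x, x ∉ L → r x = x := fun x hx => if_neg hx
        have := eqvGen_map (r := fun a b => (a, b) ∈ E) (s := fun a b => (a, b) ∈ E') (f := r) (by
          intro a b hab
          obtain ⟨-, -, hlt⟩ := hE _ hab
          by_cases ha : a ∈ L
          · have hb : b ∉ L := h2 _ hab ha
            have h3 : (a, b) = ε a := hεu a ha _ hab (Or.inl rfl)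
            have h4 : r a = b := by
              simp only [r, if_pos ha, ← h3, if_true]
            rw [h4, hr b hb]
            exact EqvGen.refl _
          · by_cases hb : b ∈ L
            · have h3 : (a, b) = ε b := hεu b hb _ hab (Or.inr rfl)
              have h4 : r b = a := by
                simp only [r, if_pos hb, ← h3, if_neg hlt.ne]
              rw [h4, hr a ha]
              exact EqvGen.refl _
            · rw [hr a ha, hr b hb]
              exact EqvGen.rel _ _ (mem_filter.2 ⟨hab, ha, hb⟩)) (hconn x hx1 y hy1)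
        rwa [hr x hx2, hr y hy2] at this

/-- `p` is one of the three edges of the triangle `t` -/
def Face (p : P × P) (t : P × P × P) : Prop :=
  p = (t.1, t.2.1) ∨ p = (t.1, t.2.2) ∨ p = (t.2.1, t.2.2)

open Classical in
/-- A connected complex of dimension at most two with Euler characteristic one, all of whose nonempty
sets of triangles have a free edge: a group of automorphisms fixes a vertex. -/
theorem collapse_fixed [Fintype P] (n : ℕ) : ∀ (E : Finset (P × P)) (T : Finset (P × P × P)),
    T.card = n → (∀ p ∈ E, p.1 < p.2) → (∀ t ∈ T, t.1 < t.2.1 ∧ t.2.1 < t.2.2) →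
    (∀ t ∈ T, ∀ p, Face p t → p ∈ E) →
    (∀ (g : G), ∀ p ∈ E, (g • p.1, g • p.2) ∈ E) →
    (∀ (g : G), ∀ t ∈ T, (g • t.1, g • t.2.1, g • t.2.2) ∈ T) →
    (∀ x y, EqvGen (fun a b => (a, b) ∈ E) x y) →
    Fintype.card P + T.card = E.card + 1 →
    (∀ T' ⊆ T, T'.Nonempty → ∃ t ∈ T', ∃ p, Face p t ∧ ∀ t' ∈ T', Face p t' → t' = t) →
    ∃ x : P, ∀ g : G, g • x = x := by
  induction n using Nat.strong_induction_on with
  | _ n ih =>
    intro E T hn hE hT hTE hGE hGT hconn hcard hfree
    rcases T.eq_empty_or_nonempty with h0 | hne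
    · subst h0
      obtain ⟨x, -, hx⟩ := tree_fixed (G := G) _ (univ : Finset P) E rfl
        (fun p hp => ⟨mem_univ _, mem_univ _, hE p hp⟩) (fun _ _ _ => mem_univ _) hGE
        (fun x _ y _ => hconn x y) (by rw [card_univ]; simpa using hcard)
      exact ⟨x, hx⟩
    -- free edges
    let Fr : P × P → P × P × P → Prop := fun p t => Face p t ∧ ∀ t' ∈ T, Face p t' → t' = t
    let μ : P × P × P → P × P := fun t =>
      if Fr (t.1, t.2.1) t then (t.1, t.2.1) else
        if Fr (t.1, t.2.2) t then (t.1, t.2.2) else (t.2.1, t.2.2)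
    let S : Finset (P × P × P) := T.filter fun t => ∃ p, Fr p t
    have hμ : ∀ t ∈ S, Fr (μ t) t := by
      intro t ht
      obtain ⟨-, p, hp⟩ := mem_filter.1 ht
      simp only [μ]
      by_cases h1 : Fr (t.1, t.2.1) t
      · rw [if_pos h1]; exact h1
      · rw [if_neg h1]
        by_cases h2 : Fr (t.1, t.2.2) t
        · rw [if_pos h2]; exact h2
        · rw [if_neg h2]
          rcases hp.1 with h | h | h
          · exact absurd (h ▸ hp) h1
          · exact absurd (h ▸ hp) h2
          · exact h ▸ hp
    have hSne : S.Nonempty := by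
      obtain ⟨t, ht, p, hp⟩ := hfree T Subset.rfl hne
      exact ⟨t, mem_filter.2 ⟨ht, p, hp⟩⟩
    have hST : S ⊆ T := filter_subset _ _
    -- equivariance
    have hFace : ∀ (g : G) (p : P × P) (t : P × P × P), Face p t →
        Face (g • p.1, g • p.2) (g • t.1, g • t.2.1, g • t.2.2) := by
      rintro g p t (h | h | h)
      · exact Or.inl (by rw [h])
      · exact Or.inr (Or.inl (by rw [h]))
      · exact Or.inr (Or.inr (by rw [h]))
    have hFr : ∀ (g : G) (p : P × P) (t : P × P × P), Fr p t →
        Fr (g • p.1, g • p.2) (g • t.1, g • t.2.1, g • t.2.2) := by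
      intro g p t h
      refine ⟨hFace g p t h.1, fun t' ht' hp => ?_⟩
      have h1 := h.2 _ (hGT g⁻¹ t' ht') (by
        have := hFace g⁻¹ _ _ hp
        simpa only [inv_smul_smul] using this)
      rw [← h1]
      simp only [smul_inv_smul]
    have hFr' : ∀ (g : G) (p : P × P) (t : P × P × P),
        Fr (g • p.1, g • p.2) (g • t.1, g • t.2.1, g • t.2.2) ↔ Fr p t := by
      intro g p t
      refine ⟨fun h => ?_, hFr g p t⟩
      have := hFr g⁻¹ _ _ h
      simpa only [inv_smul_smul] using this
    have hGS : ∀ (g : G), ∀ t ∈ S, (g • t.1, g • t.2.1, g • t.2.2) ∈ S := by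
      intro g t ht
      obtain ⟨h1, p, hp⟩ := mem_filter.1 ht
      exact mem_filter.2 ⟨hGT g t h1, _, hFr g p t hp⟩
    have hGμ : ∀ (g : G) (t : P × P × P),
        μ (g • t.1, g • t.2.1, g • t.2.2) = (g • (μ t).1, g • (μ t).2) := by
      intro g t
      have e1 := hFr' g (t.1, t.2.1) t
      have e2 := hFr' g (t.1, t.2.2) t
      simp only at e1 e2
      simp only [μ]
      by_cases h1 : Fr (t.1, t.2.1) t
      · rw [if_pos h1, if_pos (e1.2 h1)]
      · rw [if_neg h1, if_neg (fun h => h1 (e1.1 h))]
        by_cases h2 : Fr (t.1, t.2.2) t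
        · rw [if_pos h2, if_pos (e2.2 h2)]
        · rw [if_neg h2, if_neg (fun h => h2 (e2.1 h))]
    let E' := E \ S.image μ
    let T' := T \ S
    have hμinj : Set.InjOn μ S := by
      intro t ht t' ht' h
      have h1 := hμ t ht
      have h2 := hμ t' ht'
      rw [← h] at h2
      exact (h1.2 t' (hST ht') h2.1).symm
    have hμE : S.image μ ⊆ E := by
      intro p hp
      obtain ⟨t, ht, rfl⟩ := mem_image.1 hp
      exact hTE t (hST ht) _ (hμ t ht).1
    have c1 : (E \ S.image μ).card + S.card = E.card := by
      rw [← card_image_of_injOn hμinj]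
      exact card_sdiff_add_card_eq_card hμE
    have c2 : (T \ S).card + S.card = T.card := card_sdiff_add_card_eq_card hST
    have c3 : 0 < S.card := card_pos.2 hSne
    -- an edge of a removed triangle different from the matched one survives
    have hother : ∀ t ∈ S, ∀ p, Face p t → p ≠ μ t → p ∈ E' := by
      intro t ht p hp hne
      refine mem_sdiff.2 ⟨hTE t (hST ht) p hp, fun h => ?_⟩
      obtain ⟨t', ht', rfl⟩ := mem_image.1 h
      have := (hμ t' ht').2 t (hST ht) hp
      exact hne (by rw [this])
    have hlt : T'.card < n := by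
      show (T \ S).card < n
      omega
    have hcard' : Fintype.card P + T'.card = E'.card + 1 := by
      show Fintype.card P + (T \ S).card = (E \ S.image μ).card + 1
      omega
    refine ih T'.card hlt E' T' rfl (fun p hp => hE p (mem_sdiff.1 hp).1)
      (fun t ht => hT t (mem_sdiff.1 ht).1) ?_ ?_ ?_ ?_ hcard'
      (fun T'' h1 h2 => hfree T'' (h1.trans sdiff_subset) h2)
    · intro t ht p hp
      obtain ⟨ht1, ht2⟩ := mem_sdiff.1 ht
      refine mem_sdiff.2 ⟨hTE t ht1 p hp, fun h => ?_⟩
      obtain ⟨t', ht', rfl⟩ := mem_image.1 h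
      have := (hμ t' ht').2 t ht1 hp
      exact ht2 (by rw [this]; exact ht')
    · intro g p hp
      obtain ⟨h1, h2⟩ := mem_sdiff.1 hp
      refine mem_sdiff.2 ⟨hGE g p h1, fun h => h2 ?_⟩
      obtain ⟨t, ht, he⟩ := mem_image.1 h
      refine mem_image.2 ⟨_, hGS g⁻¹ t ht, ?_⟩
      rw [hGμ g⁻¹ t, he]
      simp only [inv_smul_smul]
    · intro g t ht
      obtain ⟨h1, h2⟩ := mem_sdiff.1 ht
      refine mem_sdiff.2 ⟨hGT g t h1, fun h => h2 ?_⟩
      have := hGS g⁻¹ _ h
      simpa only [inv_smul_smul] using this
    · intro x y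
      have := eqvGen_map (r := fun a b => (a, b) ∈ E) (s := fun a b => (a, b) ∈ E') (f := id) (by
        intro a b hab
        by_cases h : (a, b) ∈ S.image μ
        · obtain ⟨t, ht, he⟩ := mem_image.1 h
          obtain ⟨l1, l2⟩ := hT t (hST ht)
          have f1 : Face (t.1, t.2.1) t := Or.inl rfl
          have f2 : Face (t.1, t.2.2) t := Or.inr (Or.inl rfl)
          have f3 : Face (t.2.1, t.2.2) t := Or.inr (Or.inr rfl)
          rcases (hμ t ht).1 with h1 | h1 | h1
          · rw [h1, Prod.mk.injEq] at he
            obtain ⟨rfl, rfl⟩ := he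
            have g2 := hother t ht _ f2 (by
              rw [h1]; intro hh; exact l2.ne' (congrArg Prod.snd hh))
            have g3 := hother t ht _ f3 (by
              rw [h1]; intro hh; exact l1.ne' (congrArg Prod.fst hh))
            exact EqvGen.trans _ _ _ (EqvGen.rel _ _ g2) (EqvGen.symm _ _ (EqvGen.rel _ _ g3))
          · rw [h1, Prod.mk.injEq] at he
            obtain ⟨rfl, rfl⟩ := he
            have g1 := hother t ht _ f1 (by
              rw [h1]; intro hh; exact l2.ne (congrArg Prod.snd hh))
            have g3 := hother t ht _ f3 (by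
              rw [h1]; intro hh; exact l1.ne' (congrArg Prod.fst hh))
            exact EqvGen.trans _ _ _ (EqvGen.rel _ _ g1) (EqvGen.rel _ _ g3)
          · rw [h1, Prod.mk.injEq] at he
            obtain ⟨rfl, rfl⟩ := he
            have g1 := hother t ht _ f1 (by
              rw [h1]; intro hh; exact l1.ne (congrArg Prod.fst hh))
            have g2 := hother t ht _ f2 (by
              rw [h1]; intro hh; exact l1.ne (congrArg Prod.fst hh))
            exact EqvGen.trans _ _ _ (EqvGen.symm _ _ (EqvGen.rel _ _ g1)) (EqvGen.rel _ _ g2)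
        · exact EqvGen.rel _ _ (mem_sdiff.2 ⟨hab, h⟩)) (hconn x y)
      exact this

end Pool.Agent.Med7a.Collapse
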