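import Mathlib

/-!
# Counting in finite posets and the induction over solvable groups
-/

namespace Pool.Agent.Med7a

open Finset

section Poset

variable {α : Type*} [Fintype α] [PartialOrder α]

open Classical in
theorem filter_le_eq (a : α) :
    (univ.filter fun b => b ≤ a) = insert a (univ.filter fun b => b < a) := by
  ext b
  simp only [mem_filter, mem_univ, true_and, mem_insert]
  exact le_iff_eq_or_lt

open Classical in
theorem sum_le_eq (f : α → ℤ) (a : α) :
    ∑ b ∈ univ.filter (fun b => b ≤ a), f b = f a + ∑ b ∈ univ.filter (fun b => b < a), f b := by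
  rw [filter_le_eq, sum_insert (by simp)]

open Classical in
theorem mob_exists (α : Type*) [Fintype α] [PartialOrder α] :
    ∃ f : α → ℤ, ∀ a, ∑ b ∈ univ.filter (fun b => b ≤ a), f b = 1 := by
  have hwf : WellFounded (fun a b : α => a < b) := (Finite.to_wellFoundedLT (α := α)).wf
  let F : (a : α) → ((b : α) → b < a → ℤ) → ℤ := fun a ih =>
    1 - ∑ b ∈ (univ.filter fun b => b < a).attach, ih b.1 (mem_filter.1 b.2).2
  refine ⟨hwf.fix F, fun a => ?_⟩
  rw [sum_le_eq, hwf.fix_eq F a]
  simp only [F]
  rw [sum_attach (univ.filter fun b => b < a) (fun b => hwf.fix F b)]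
  ring

open Classical in
theorem mob_unique {f g : α → ℤ} (hf : ∀ a, ∑ b ∈ univ.filter (fun b => b ≤ a), f b = 1)
    (hg : ∀ a, ∑ b ∈ univ.filter (fun b => b ≤ a), g b = 1) : f = g := by
  funext a
  have hwf : WellFounded (fun a b : α => a < b) := (Finite.to_wellFoundedLT (α := α)).wf
  induction a using hwf.induction with
  | _ a ih =>
    have h1 := hf a
    have h2 := hg a
    rw [sum_le_eq] at h1 h2
    have h3 : ∑ b ∈ univ.filter (fun b => b < a), f b =
        ∑ b ∈ univ.filter (fun b => b < a), g b := by
      apply sum_congr rfl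
      intro b hb
      simp only [mem_filter, mem_univ, true_and] at hb
      exact ih b hb
    omega

/-- the fibration of a set `S` of elements by their tops, with base point `o` -/
structure GoodSet (t : α → α) (S : α → Prop) (o : α) : Prop where
  mem : S o
  min : ∀ b, b ≤ o → b = o
  fix : t o = o
  only : ∀ a, S a → t a = o → a = o
  max : ∀ a, S a → t a ≠ o → ∃ m, S m ∧ t m = t a ∧ m ≠ t a ∧ ∀ a', S a' → t a' = t a → a' ≤ m

open Classical in
theorem sum_fibre_zero {f : α → ℤ} {t : α → α} {S : α → Prop} {o : α} (hG : GoodSet t S o)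
    (hdown : ∀ a b, b ≤ a → S a → S b) {s : α} (hs : s ≠ o)
    (IH : ∀ m, S m → t m = s → m ≠ s → ∑ b ∈ univ.filter (fun b => b ≤ m ∧ t b = s), f b = 0) :
    ∑ b ∈ univ.filter (fun b => S b ∧ t b = s), f b = 0 := by
  by_cases hex : ∃ a, S a ∧ t a = s
  · obtain ⟨a, ha, rfl⟩ := hex
    obtain ⟨m, h1, h2, h3, h4⟩ := hG.max a ha hs
    have : (univ.filter fun b => S b ∧ t b = t a) = univ.filter fun b => b ≤ m ∧ t b = t a := by
      ext b
      simp only [mem_filter, mem_univ, true_and]
      constructor
      · rintro ⟨e1, e2⟩
        exact ⟨h4 b e1 e2, e2⟩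
      · rintro ⟨e1, e2⟩
        exact ⟨hdown m b e1 h1, e2⟩
    rw [this]
    exact IH m h1 h2 h3
  · push Not at hex
    apply sum_eq_zero
    intro b hb
    simp only [mem_filter, mem_univ, true_and] at hb
    exact absurd hb.2 (hex b hb.1)

open Classical in
theorem sum_base {f : α → ℤ} {t : α → α} {S : α → Prop} {o : α} (hG : GoodSet t S o)
    (hf : ∀ a, ∑ b ∈ univ.filter (fun b => b ≤ a), f b = 1) :
    ∑ b ∈ univ.filter (fun b => S b ∧ t b = o), f b = 1 := by
  have h1 : (univ.filter fun b => S b ∧ t b = o) = univ.filter fun b => b ≤ o := by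
    ext b
    simp only [mem_filter, mem_univ, true_and]
    constructor
    · rintro ⟨e1, e2⟩
      exact (hG.only b e1 e2).le
    · intro h
      rw [hG.min b h]
      exact ⟨hG.mem, hG.fix⟩
  rw [h1]
  exact hf o

open Classical in
theorem fibre_zero {f : α → ℤ} {t : α → α}
    (hf : ∀ a, ∑ b ∈ univ.filter (fun b => b ≤ a), f b = 1)
    (h1 : ∀ a, ∃ o, GoodSet t (fun b => b ≤ a) o) :
    ∀ a, a ≠ t a → ∑ b ∈ univ.filter (fun b => b ≤ a ∧ t b = t a), f b = 0 := by
  intro a
  have hwf : WellFounded (fun a b : α => a < b) := (Finite.to_wellFoundedLT (α := α)).wf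
  induction a using hwf.induction with
  | _ a ih =>
    intro hat
    obtain ⟨o, hG⟩ := h1 a
    have hto : t a ≠ o := by
      intro h
      have := hG.only a le_rfl h
      exact hat (this.trans h.symm)
    have hsum := hf a
    rw [← sum_fiberwise (univ.filter fun b => b ≤ a) t f] at hsum
    simp only [filter_filter] at hsum
    rw [sum_eq_add o (t a) hto.symm] at hsum
    · rw [sum_base hG hf] at hsum
      omega
    · intro s _ hs
      apply sum_fibre_zero hG (fun a b h1 h2 => h1.trans h2) hs.1
      intro m hm1 hm2 hm3
      have hma : m < a := by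
        refine lt_of_le_of_ne hm1 ?_
        rintro rfl
        exact hs.2 hm2.symm
      have := ih m hma (by rw [hm2]; exact hm3)
      rw [hm2] at this
      exact this
    · intro h
      exact absurd (mem_univ _) h
    · intro h
      exact absurd (mem_univ _) h

open Classical in
theorem euler {f : α → ℤ} {t : α → α}
    (hf : ∀ a, ∑ b ∈ univ.filter (fun b => b ≤ a), f b = 1)
    (h1 : ∀ a, ∃ o, GoodSet t (fun b => b ≤ a) o)
    (h2 : ∃ o, GoodSet t (fun _ => True) o) : ∑ b, f b = 1 := by
  obtain ⟨o, hG⟩ := h2
  rw [← sum_fiberwise univ t f]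
  rw [sum_eq_single o]
  · have := sum_base hG hf
    simpa using this
  · intro s _ hs
    have := sum_fibre_zero (f := f) hG (fun _ _ _ _ => trivial) hs (by
      intro m _ hm2 hm3
      have := fibre_zero hf h1 m (by rw [hm2]; exact hm3)
      rw [hm2] at this
      exact this)
    simpa using this
  · intro h
    exact absurd (mem_univ _) h

open Classical in
/-- A `p`-group acting by order automorphisms on a finite poset of Euler characteristic one has a
fixed point. -/
theorem exists_fixed {S : Type*} [Group S] [MulAction S α] {p : ℕ} [hp : Fact p.Prime]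
    (hS : IsPGroup p S) (mono : ∀ (g : S) (a b : α), a ≤ b → g • a ≤ g • b)
    {f : α → ℤ} (hf : ∀ a, ∑ b ∈ univ.filter (fun b => b ≤ a), f b = 1)
    (hsum : ∑ b, f b = 1) : ∃ a : α, ∀ g : S, g • a = a := by
  have mono' : ∀ (g : S) (a b : α), g • a ≤ g • b ↔ a ≤ b := by
    intro g a b
    refine ⟨fun h => ?_, mono g a b⟩
    have := mono g⁻¹ _ _ h
    simpa using this
  have hinv : ∀ (g : S) (a : α), f (g • a) = f a := by
    intro g a
    have : (fun a => f (g • a)) = f := by
      apply mob_unique _ hf
      intro a
      rw [← hf (g • a)]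
      refine sum_nbij' (fun b => g • b) (fun b => g⁻¹ • b) ?_ ?_ ?_ ?_ ?_
      · intro b hb
        simp only [mem_filter, mem_univ, true_and] at hb ⊢
        exact mono g _ _ hb
      · intro b hb
        simp only [mem_filter, mem_univ, true_and] at hb ⊢
        have := mono g⁻¹ _ _ hb
        simpa using this
      · intro b _
        simp
      · intro b _
        simp
      · intro b _
        rfl
    exact congrFun this a
  by_contra hno
  push Not at hno
  have hdvd : (p : ℤ) ∣ ∑ b, f b := by
    rw [← sum_fiberwise_of_maps_to (s := univ) (t := univ.image f) (g := f)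
      (fun x hx => mem_image_of_mem f hx)]
    apply dvd_sum
    intro c _
    have h1 : ∑ b ∈ univ.filter (fun b => f b = c), f b =
        (univ.filter fun b => f b = c).card * c := by
      rw [sum_congr rfl (g := fun _ => c)]
      · rw [sum_const, nsmul_eq_mul]
      · intro b hb
        simp only [mem_filter, mem_univ, true_and] at hb
        exact hb
    rw [h1]
    apply Dvd.dvd.mul_right
    let Q : SubMulAction S α :=
      { carrier := {a | f a = c}
        smul_mem' := by
          intro g a ha
          show f (g • a) = c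
          rw [hinv]
          exact ha }
    have h2 := hS.card_modEq_card_fixedPoints Q
    have h3 : Nat.card (MulAction.fixedPoints S Q) = 0 := by
      rw [Nat.card_eq_zero]
      left
      constructor
      rintro ⟨⟨a, ha⟩, h⟩
      obtain ⟨g, hg⟩ := hno a
      apply hg
      have := h g
      exact congrArg Subtype.val this
    rw [h3] at h2
    have h4 : Nat.card Q = (univ.filter fun b => f b = c).card := by
      have : Nat.card Q = Nat.card {a : α // f a = c} := rfl
      rw [this, Nat.card_eq_fintype_card, Fintype.card_subtype]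
    rw [h4] at h2
    exact_mod_cast (Nat.modEq_zero_iff_dvd.1 h2)
  rw [hsum] at hdvd
  have := Int.eq_one_of_dvd_one (by positivity) hdvd
  have h5 := hp.out.one_lt
  omega

end Poset

/-- Induction over a finite solvable group by means of extensions by `p`-groups. -/
theorem solvable_induction {Γ : Type*} [Group Γ] [Finite Γ] [hΓ : Group.IsSolvable Γ]
    (P : Subgroup Γ → Prop) (h0 : P ⊥)
    (hstep : ∀ N S : Subgroup Γ, P N → (∀ s ∈ S, ∀ n ∈ N, s * n * s⁻¹ ∈ N) →
      (∃ p : ℕ, p.Prime ∧ IsPGroup p S) → P (N ⊔ S)) : P ⊤ := by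
  suffices H : ∀ n : ℕ, ∀ K : Subgroup Γ, Nat.card K = n → P K from H _ ⊤ rfl
  intro n
  induction n using Nat.strong_induction_on with
  | _ n ih =>
    intro K hK
    by_cases hbot : K = ⊥
    · rw [hbot]
      exact h0
    have hnt : Nontrivial K := (Subgroup.nontrivial_iff_ne_bot K).2 hbot
    have hnt2 : Nontrivial (Abelianization K) := by
      by_contra hn
      rw [not_nontrivial_iff_subsingleton] at hn
      have h1 : commutator K = ⊤ := by
        rw [eq_top_iff]
        intro x _
        have : (Abelianization.of x : Abelianization K) = 1 := Subsingleton.elim _ _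
        rwa [← MonoidHom.mem_ker, Abelianization.ker_of] at this
      have h2 := IsSolvable.commutator_lt_top_of_nontrivial K
      exact h2.ne h1
    set A := Abelianization K with hA
    have hfinA : Finite A := Quotient.finite _
    set p := (Nat.card A).minFac with hp
    have hcard : Nat.card A ≠ 1 := by
      have := Finite.one_lt_card (α := A)
      omega
    have hpp : p.Prime := Nat.minFac_prime hcard
    haveI : Fact p.Prime := ⟨hpp⟩
    let φ : A →* A := powMonoidHom p
    have hφ : φ.range ≠ ⊤ := by
      intro h
      rw [MonoidHom.range_eq_top] at h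
      have hinj := Finite.injective_iff_surjective.2 h
      obtain ⟨x, hx⟩ := exists_prime_orderOf_dvd_card' (G := A) p (Nat.minFac_dvd _)
      have h1 : φ x = φ 1 := by
        simp only [φ, powMonoidHom_apply, one_pow]
        rw [← hx]
        exact pow_orderOf_eq_one x
      have h2 := hinj h1
      rw [h2, orderOf_one] at hx
      exact hpp.one_lt.ne hx
    let N : Subgroup K := φ.range.comap (Abelianization.of : K →* A)
    have hNn : N.Normal := Subgroup.normal_comap _
    have hsurj : Function.Surjective (Abelianization.of : K →* A) := QuotientGroup.mk_surjective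
    have hNtop : N ≠ ⊤ := by
      intro h
      apply hφ
      rw [eq_top_iff]
      intro x _
      obtain ⟨y, rfl⟩ := hsurj x
      have : y ∈ N := h ▸ Subgroup.mem_top y
      exact this
    have hpq : IsPGroup p (K ⧸ N) := by
      intro x
      obtain ⟨y, rfl⟩ := QuotientGroup.mk_surjective x
      refine ⟨1, ?_⟩
      rw [pow_one, ← QuotientGroup.mk_pow, QuotientGroup.eq_one_iff]
      show Abelianization.of (y ^ p) ∈ φ.range
      exact ⟨Abelianization.of y, by simp [φ]⟩
    obtain ⟨S⟩ : Nonempty (Sylow p K) := inferInstance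
    have hsup : N ⊔ (S : Subgroup K) = ⊤ := by
      rw [← Subgroup.index_eq_one]
      obtain ⟨k, hk⟩ := IsPGroup.iff_card.1 hpq
      have h1 : (N ⊔ (S : Subgroup K)).index ∣ p ^ k := by
        have := Subgroup.index_dvd_of_le (le_sup_left : N ≤ N ⊔ (S : Subgroup K))
        rwa [Subgroup.index_eq_card N, hk] at this
      have h2 : (N ⊔ (S : Subgroup K)).index ∣ (S : Subgroup K).index :=
        Subgroup.index_dvd_of_le le_sup_right
      have h3 : ¬ p ∣ (S : Subgroup K).index := S.not_dvd_index
      have h4 : Nat.Coprime (p ^ k) (S : Subgroup K).index :=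
        Nat.Coprime.pow_left _ ((Nat.Prime.coprime_iff_not_dvd hpp).2 h3)
      exact Nat.eq_one_of_dvd_coprimes h4 h1 h2
    have hN' : P (N.map K.subtype) := by
      apply ih (Nat.card (N.map K.subtype)) _ _ rfl
      rw [Subgroup.card_map_of_injective K.subtype_injective, ← hK]
      refine lt_of_le_of_ne (Subgroup.card_le_card_group N) ?_
      intro h
      exact hNtop (Subgroup.eq_top_of_card_eq N h)
    have := hstep (N.map K.subtype) ((S : Subgroup K).map K.subtype) hN' ?_ ⟨p, hpp, ?_⟩
    · rw [← Subgroup.map_sup, hsup, ← MonoidHom.range_eq_map, Subgroup.range_subtype] at this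
      exact this
    · rintro s ⟨s, hs, rfl⟩ n ⟨n, hn, rfl⟩
      exact ⟨s * n * s⁻¹, hNn.conj_mem n hn s, by simp⟩
    · exact S.isPGroup'.map _

end Pool.Agent.Med7a
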