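import Pool.Agent.Lib.MP_7af17a_al.Collapse
import Pool.Agent.Lib.MP_7af17a_al.Count

/-!
# Fixed elements in posets with tops and without chains of four elements
-/

set_option autoImplicit false

namespace Pool.Agent.Med7a.Collapse

open Finset Relation

variable {P : Type*} [PartialOrder P] {G : Type*} [Group G] [MulAction G P]

/-- the combinatorial data used below: tops `t`, base point `O`, and a distance `D` from `O` -/
structure Data (t : P → P) (O : P) (D : P → ℕ) : Prop where
  chain : ∀ a b c d : P, a < b → b < c → c < d → False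
  le : ∀ a, t a ≤ a
  min : ∀ a x, x ≤ t a → x = t a
  far : ∀ b x, x ≤ b → (∀ y, y ≤ x → y = x) → x ≠ t b → D x < D (t b)
  loc : ∀ a, ∃ o, GoodSet t (fun b => b ≤ a) o
  glob : GoodSet t (fun _ => True) O

variable {t : P → P} {O : P} {D : P → ℕ}

theorem Data.tmin (h : Data t O D) {x : P} (hx : ∀ y, y ≤ x → y = x) : t x = x := hx _ (h.le x)

open Classical in
theorem Data.euler [Fintype P] (h : Data t O D) :
    Fintype.card P + (univ.filter fun q : P × P × P => q.1 < q.2.1 ∧ q.2.1 < q.2.2).card =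
      (univ.filter fun p : P × P => p.1 < p.2).card + 1 := by
  let n1 : P → ℕ := fun b => (univ.filter fun x => x < b).card
  let n2 : P → ℕ := fun b => ∑ c ∈ univ.filter (fun c => c < b), n1 c
  have hE : (univ.filter fun p : P × P => p.1 < p.2).card = ∑ b, n1 b := by
    rw [card_filter, Fintype.sum_prod_type, sum_comm]
    refine sum_congr rfl fun b _ => ?_
    simp only [n1]
    rw [card_filter]
  have hT : (univ.filter fun q : P × P × P => q.1 < q.2.1 ∧ q.2.1 < q.2.2).card = ∑ b, n2 b := by
    rw [card_filter, Fintype.sum_prod_type]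
    simp only [Fintype.sum_prod_type]
    have e1 : ∀ b, n2 b = ∑ x, ∑ c, if (x < c ∧ c < b) then 1 else 0 := by
      intro b
      simp only [n2, n1]
      rw [sum_filter, sum_comm]
      refine sum_congr rfl fun c _ => ?_
      by_cases hc : c < b
      · simp only [hc, if_true, and_true]
        rw [card_filter]
      · simp only [hc, if_false, and_false, sum_const_zero]
    have e2 : ∀ x : P, (∑ y, ∑ z, if (x < y ∧ y < z) then 1 else 0) =
        ∑ z, ∑ y, if (x < y ∧ y < z) then 1 else 0 := fun x => sum_comm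
    rw [sum_congr rfl fun b _ => e1 b, sum_congr rfl fun x _ => e2 x, sum_comm]
  let f : P → ℤ := fun b => 1 - n1 b + n2 b
  have hf : ∀ a, ∑ b ∈ univ.filter (fun b => b ≤ a), f b = 1 := by
    intro a
    rw [sum_le_eq]
    have h0 : ∀ b ∈ univ.filter (fun b => b < a), n2 b = 0 := by
      intro b hb
      have hba := (mem_filter.1 hb).2
      refine sum_eq_zero fun c hc => ?_
      have hcb := (mem_filter.1 hc).2
      rw [card_eq_zero, filter_eq_empty_iff]
      intro x _ hx
      exact h.chain x c b a hx hcb hba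
    have h1 : ∑ b ∈ univ.filter (fun b => b < a), f b = n1 a - n2 a := by
      have e2 : ∑ b ∈ univ.filter (fun b => b < a), f b =
          ∑ b ∈ univ.filter (fun b => b < a), ((1 : ℤ) - n1 b) := by
        refine sum_congr rfl fun b hb => ?_
        simp only [f, h0 b hb]
        simp
      rw [e2, sum_sub_distrib]
      simp only [n2, n1, sum_const, nsmul_eq_mul, mul_one]
      push_cast
      ring
    rw [h1]
    simp only [f]
    ring
  have hsum := Med7a.euler hf h.loc ⟨O, h.glob⟩
  have e3 : ∑ b, f b = (Fintype.card P : ℤ) - (∑ b, n1 b : ℕ) + (∑ b, n2 b : ℕ) := by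
    simp only [f]
    rw [sum_add_distrib, sum_sub_distrib, sum_const, card_univ]
    push_cast
    simp
  rw [hE, hT]
  rw [e3] at hsum
  omega

/-- a minimal element below a non-maximal non-minimal `y` and different from the base of `y` is the
top of `y` -/
theorem Data.top_eq (h : Data t O D) {x y z o : P} (hxy : x < y) (hyz : y < z)
    (ho : GoodSet t (fun b => b ≤ y) o) (hxo : x ≠ o) : t y = x := by
  have hx : ∀ w, w ≤ x → w = x := by
    intro w hw
    by_contra hne
    exact h.chain w x y z (lt_of_le_of_ne hw hne) hxy hyz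
  have e1 := h.tmin hx
  obtain ⟨m, m1, m2, m3, -⟩ := ho.max x hxy.le (by rw [e1]; exact hxo)
  rw [e1] at m2 m3
  have hxm : x < m := lt_of_le_of_ne (m2 ▸ h.le m) m3.symm
  rcases eq_or_lt_of_le m1 with h1 | h1
  · rw [← h1]
    exact m2
  · exact (h.chain x m y z hxm h1 hyz).elim

theorem Data.free (h : Data t O D) (T : Finset (P × P × P)) (hne : T.Nonempty)
    (hT : ∀ q ∈ T, q.1 < q.2.1 ∧ q.2.1 < q.2.2) :
    ∃ q ∈ T, ∃ p, Face p q ∧ ∀ q' ∈ T, Face p q' → q' = q := by
  by_contra hno
  push Not at hno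
  obtain ⟨⟨s, b, c⟩, hs, hmax⟩ := exists_max_image T (fun q => D q.1) hne
  simp only at hmax
  -- Claim A
  have A : ∀ y z, (s, y, z) ∈ T → t y = s := by
    intro y z hq
    obtain ⟨l1, l2⟩ := hT _ hq
    simp only at l1 l2
    obtain ⟨⟨x', y', z'⟩, hq', hF, hne'⟩ := hno _ hq (y, z) (Or.inr (Or.inr rfl))
    obtain ⟨l3, l4⟩ := hT _ hq'
    simp only at l3 l4
    have hyz : y' = y ∧ z' = z := by
      rcases hF with hF | hF | hF <;> simp only [Prod.mk.injEq] at hF
      · obtain ⟨rfl, rfl⟩ := hF
        exact (h.chain _ _ _ _ l1 l3 l4).elim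
      · obtain ⟨rfl, rfl⟩ := hF
        exact (h.chain _ _ _ _ l1 l3 l4).elim
      · exact ⟨hF.1.symm, hF.2.symm⟩
    obtain ⟨rfl, rfl⟩ := hyz
    have hx' : x' ≠ s := by
      rintro rfl
      exact hne' rfl
    obtain ⟨o, ho⟩ := h.loc y'
    by_cases hso : s = o
    · -- then the top is `x'`, which is farther than `s`
      have e1 : t y' = x' := h.top_eq l3 l4 ho (by rw [← hso]; exact hx')
      have e2 := h.far y' s l1.le (fun w hw => by
        by_contra hne2
        exact h.chain w s y' z' (lt_of_le_of_ne hw hne2) l1 l2) (by rw [e1]; exact hx'.symm)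
      rw [e1] at e2
      have e3 := hmax _ hq'
      simp only at e3
      omega
    · exact h.top_eq l1 l2 ho hso
  -- Claim B
  have B : ∀ y z, (s, y, z) ∈ T → t z = s := by
    intro y z hq
    obtain ⟨l1, l2⟩ := hT _ hq
    simp only at l1 l2
    obtain ⟨⟨x', y', z'⟩, hq', hF, hne'⟩ := hno _ hq (s, z) (Or.inr (Or.inl rfl))
    obtain ⟨l3, l4⟩ := hT _ hq'
    simp only at l3 l4
    have hyz : x' = s ∧ z' = z := by
      rcases hF with hF | hF | hF <;> simp only [Prod.mk.injEq] at hF
      · obtain ⟨rfl, rfl⟩ := hF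
        exact (h.chain _ _ _ _ l1 l2 l4).elim
      · exact ⟨hF.1.symm, hF.2.symm⟩
      · obtain ⟨rfl, rfl⟩ := hF
        exact (h.chain _ _ _ _ l3 l1 l2).elim
    obtain ⟨rfl, rfl⟩ := hyz
    have hy' : y' ≠ y := by
      rintro rfl
      exact hne' rfl
    have a1 := A y z' hq
    have a2 := A y' z' hq'
    obtain ⟨o, ho⟩ := h.loc z'
    have hso : t y ≠ o := by
      intro e
      have := ho.only y l2.le e
      rw [← this, a1] at e
      exact l1.ne e
    obtain ⟨m, m1, m2, -, m4⟩ := ho.max y l2.le hso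
    rw [a1] at m2
    rcases eq_or_lt_of_le m1 with h1 | h1
    · rw [← h1]
      exact m2
    · exfalso
      have k1 := m4 y l2.le rfl
      have k2 := m4 y' l4.le (by rw [a1, a2])
      rcases eq_or_lt_of_le k1 with h2 | h2
      · rcases eq_or_lt_of_le k2 with h3 | h3
        · exact hy' (h3.trans h2.symm)
        · exact h.chain _ _ _ _ l3 h3 h1
      · exact h.chain _ _ _ _ l1 h2 h1
  -- Claim C
  obtain ⟨l1, l2⟩ := hT _ hs
  simp only at l1 l2
  obtain ⟨⟨x', y', z'⟩, hq', hF, hne'⟩ := hno _ hs (s, b) (Or.inl rfl)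
  obtain ⟨l3, l4⟩ := hT _ hq'
  simp only at l3 l4
  have hyz : x' = s ∧ y' = b := by
    rcases hF with hF | hF | hF <;> simp only [Prod.mk.injEq] at hF
    · exact ⟨hF.1.symm, hF.2.symm⟩
    · obtain ⟨rfl, rfl⟩ := hF
      exact (h.chain _ _ _ _ l3 l4 l2).elim
    · obtain ⟨rfl, rfl⟩ := hF
      exact (h.chain _ _ _ _ l3 l1 l2).elim
  obtain ⟨rfl, rfl⟩ := hyz
  have hz' : z' ≠ c := by
    rintro rfl
    exact hne' rfl
  have b1 := B y' c hs
  have b2 := B y' z' hq'
  have hso : t c ≠ O := by
    intro e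
    have := h.glob.only c trivial e
    rw [← this, b1] at e
    exact (l1.trans l2).ne e
  obtain ⟨m, -, m2, -, m4⟩ := h.glob.max c trivial hso
  have k1 := m4 c trivial rfl
  have k2 := m4 z' trivial (by rw [b1, b2])
  rcases eq_or_lt_of_le k1 with h2 | h2
  · rcases eq_or_lt_of_le k2 with h3 | h3
    · exact hz' (h3.trans h2.symm)
    · exact h.chain _ _ _ _ l3 l4 h3
  · exact h.chain _ _ _ _ l1 l2 h2

theorem Data.conn (h : Data t O D) (x y : P) : EqvGen (fun a b => a < b) x y := by
  have h1 : ∀ a, EqvGen (fun a b => a < b) (t a) a := by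
    intro a
    rcases eq_or_lt_of_le (h.le a) with e | e
    · rw [e]
      exact EqvGen.refl _
    · exact EqvGen.rel _ _ e
  have h2 : ∀ n, ∀ s, D s = n → (∀ w, w ≤ s → w = s) → EqvGen (fun a b => a < b) s O := by
    intro n
    induction n using Nat.strong_induction_on with
    | _ n ih =>
      intro s hn hs
      by_cases hsO : s = O
      · rw [hsO]
        exact EqvGen.refl _
      have e1 := h.tmin hs
      obtain ⟨m, -, m2, m3, -⟩ := h.glob.max s trivial (by rw [e1]; exact hsO)
      rw [e1] at m2 m3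
      have hsm : s < m := lt_of_le_of_ne (m2 ▸ h.le m) m3.symm
      obtain ⟨o, ho⟩ := h.loc m
      have hom : o ≤ m := ho.mem
      have hot : o ≠ t m := by
        intro e
        have := ho.only m le_rfl e.symm
        rw [← this, m2] at e
        exact m3 e
      have hD := h.far m o hom ho.min hot
      rw [m2] at hD
      have h3 := ih (D o) (by omega) o rfl ho.min
      have hom' : o < m := lt_of_le_of_ne hom (by
        rintro rfl
        exact absurd (ho.min s hsm.le) hsm.ne)
      exact EqvGen.trans _ _ _ (EqvGen.rel _ _ hsm)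
        (EqvGen.trans _ _ _ (EqvGen.symm _ _ (EqvGen.rel _ _ hom')) h3)
  have h3 : ∀ a, EqvGen (fun a b => a < b) a O := fun a =>
    EqvGen.trans _ _ _ (EqvGen.symm _ _ (h1 a)) (h2 _ (t a) rfl (h.min a))
  exact EqvGen.trans _ _ _ (h3 x) (EqvGen.symm _ _ (h3 y))

/-- A group of automorphisms of such a poset fixes an element. -/
theorem Data.fixed [Fintype P] (h : Data t O D)
    (mono : ∀ (g : G) (a b : P), a ≤ b → g • a ≤ g • b) : ∃ x : P, ∀ g : G, g • x = x := by
  classical
  have mono' : ∀ (g : G) (a b : P), a < b → g • a < g • b := by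
    intro g a b hab
    refine lt_of_le_of_ne (mono g a b hab.le) fun e => ?_
    rw [smul_left_cancel_iff] at e
    exact hab.ne e
  refine collapse_fixed (G := G) _ (univ.filter fun p : P × P => p.1 < p.2)
    (univ.filter fun q : P × P × P => q.1 < q.2.1 ∧ q.2.1 < q.2.2) rfl
    (fun p hp => (mem_filter.1 hp).2) (fun q hq => (mem_filter.1 hq).2) ?_ ?_ ?_ ?_ h.euler ?_
  · intro q hq p hp
    obtain ⟨-, l1, l2⟩ := mem_filter.1 hq
    refine mem_filter.2 ⟨mem_univ _, ?_⟩
    rcases hp with rfl | rfl | rfl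
    · exact l1
    · exact l1.trans l2
    · exact l2
  · intro g p hp
    exact mem_filter.2 ⟨mem_univ _, mono' g _ _ (mem_filter.1 hp).2⟩
  · intro g q hq
    obtain ⟨-, l1, l2⟩ := mem_filter.1 hq
    exact mem_filter.2 ⟨mem_univ _, mono' g _ _ l1, mono' g _ _ l2⟩
  · intro x y
    refine eqvGen_map (f := id) (fun a b hab => ?_) (h.conn x y)
    exact EqvGen.rel _ _ (mem_filter.2 ⟨mem_univ _, hab⟩)
  · intro T' hT' hne
    exact h.free T' hne fun q hq => (mem_filter.1 (hT' hq)).2

end Pool.Agent.Med7a.Collapse
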