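import Pool.Agent.Lib.MP_7af17a_al.Defs

/-!
# Convex cycles of even length in a triangle-free mediangle graph
-/

namespace Pool.Agent.Med7a

variable {V : Type*} {X : SimpleGraph V}

/-- triangle-free mediangle graphs -/
structure TF (X : SimpleGraph V) : Prop where
  med : IsMediangle X
  tf : ∀ a b c, X.Adj a b → X.Adj b c → X.Adj a c → False

theorem exists_step (hc : X.Connected) {x y : V} {n : ℕ} (h : X.dist x y = n + 1) :
    ∃ z, X.Adj x z ∧ X.dist z y = n := by
  obtain ⟨w, hw⟩ := hc.exists_walk_length_eq_dist x y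
  cases w with
  | nil => simp at h
  | cons hadj p =>
    rename_i z
    refine ⟨z, hadj, ?_⟩
    have h1 : X.dist z y ≤ p.length := SimpleGraph.dist_le p
    have h2 : X.dist x y ≤ X.dist x z + X.dist z y := hc.dist_triangle
    have h3 : X.dist x z = 1 := SimpleGraph.dist_eq_one_iff_adj.2 hadj
    simp at hw
    omega

theorem dist_adj {x y : V} (h : X.Adj x y) : X.dist x y = 1 :=
  SimpleGraph.dist_eq_one_iff_adj.2 h

theorem adj_dist_le (hc : X.Connected) {o x y : V} (h : X.Adj x y) :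
    X.dist o y ≤ X.dist o x + 1 := by
  have := hc.dist_triangle (u := o) (v := x) (w := y)
  rw [dist_adj h] at this
  exact this

theorem TF.ne (hX : TF X) {o x y : V} (h : X.Adj x y) : X.dist o x ≠ X.dist o y := by
  intro he
  obtain ⟨z, h1, h2, -⟩ := hX.med.triangle o x y h he
  exact hX.tf x y z h h2 h1

theorem TF.adj_or (hX : TF X) (o : V) {x y : V} (h : X.Adj x y) :
    X.dist o y = X.dist o x + 1 ∨ X.dist o x = X.dist o y + 1 := by
  have h1 := adj_dist_le hX.med.connected (o := o) h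
  have h2 := adj_dist_le hX.med.connected (o := o) h.symm
  have h3 := hX.ne (o := o) h
  omega

/-- a cycle of length `2m`, run through by the integers, isometric and convex -/
structure Cyc (X : SimpleGraph V) (m : ℕ) (c : ℤ → V) : Prop where
  two : 2 ≤ m
  per : ∀ i, c (i + 2 * m) = c i
  dst : ∀ (i : ℤ) (k : ℕ), k ≤ m → X.dist (c i) (c (i + k)) = k
  conv : Conv X (Set.range c)

theorem Cyc.per' {m : ℕ} {c : ℤ → V} (h : Cyc X m c) (i q : ℤ) : c (i + 2 * m * q) = c i := by
  induction q using Int.induction_on with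
  | zero => simp
  | succ q ih =>
    rw [← ih, ← h.per (i + 2 * m * q)]
    congr 1
    ring
  | pred q ih =>
    rw [← ih, ← h.per (i + 2 * m * (-q - 1))]
    congr 1
    ring

theorem Cyc.rep {m : ℕ} {c : ℤ → V} (h : Cyc X m c) (i j : ℤ) :
    ∃ k : ℤ, -m < k ∧ k ≤ m ∧ c j = c (i + k) := by
  have hm : (0 : ℤ) < 2 * m := by have := h.two; omega
  refine ⟨(j - i + m - 1) % (2 * m) - (m - 1), ?_, ?_, ?_⟩
  · have := Int.emod_nonneg (j - i + m - 1) hm.ne'
    omega
  · have := Int.emod_lt_of_pos (j - i + m - 1) hm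
    omega
  · have h1 := Int.emod_add_mul_ediv (j - i + m - 1) (2 * m)
    have h2 := h.per' (i + ((j - i + m - 1) % (2 * m) - (m - 1))) ((j - i + m - 1) / (2 * m))
    rw [← h2]
    congr 1
    linarith

theorem Cyc.dist {m : ℕ} {c : ℤ → V} (h : Cyc X m c) (a b : ℤ) (hab : (b - a).natAbs ≤ m) :
    X.dist (c a) (c b) = (b - a).natAbs := by
  rcases le_total a b with h1 | h1
  · have := h.dst a (b - a).natAbs hab
    have h2 : a + ((b - a).natAbs : ℤ) = b := by omega
    rw [h2] at this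
    exact this
  · have := h.dst b (b - a).natAbs hab
    have h2 : b + ((b - a).natAbs : ℤ) = a := by omega
    rw [h2, SimpleGraph.dist_comm] at this
    exact this

theorem Cyc.adj {m : ℕ} {c : ℤ → V} (h : Cyc X m c) (a : ℤ) : X.Adj (c a) (c (a + 1)) := by
  have h1 := h.two
  rw [← SimpleGraph.dist_eq_one_iff_adj, h.dist _ _ (by omega)]
  omega

theorem Cyc.adj' {m : ℕ} {c : ℤ → V} (h : Cyc X m c) (a b : ℤ) (hab : b = a + 1 ∨ b = a - 1) :
    X.Adj (c a) (c b) := by
  rcases hab with rfl | rfl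
  · exact h.adj a
  · have := h.adj (a - 1)
    rw [sub_add_cancel] at this
    exact this.symm

theorem Cyc.dist_le {m : ℕ} {c : ℤ → V} (h : Cyc X m c) (a b : ℤ) :
    X.dist (c a) (c b) ≤ m := by
  obtain ⟨k, h1, h2, h3⟩ := h.rep a b
  rw [h3, h.dist _ _ (by omega)]
  omega

/-- injectivity -/
theorem Cyc.inj {m : ℕ} {c : ℤ → V} (h : Cyc X m c) (hc : X.Connected) {a b : ℤ}
    (hab : c a = c b) (h1 : (b - a).natAbs ≤ m) : a = b := by
  have := h.dist a b h1
  rw [hab] at this
  simp at this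
  omega

theorem ConvexCycle.cyc (hX : X.Connected) {m : ℕ} (hm : 2 ≤ m) {c : ZMod (2 * m) → V}
    (hc : ConvexCycle X (2 * m) c) : Cyc X m (fun i : ℤ => c i) := by
  have hadj : ∀ i : ℤ, X.Adj (c i) (c ((i + 1 : ℤ))) := by
    intro i
    rw [hc.adj]
    left
    push_cast
    rfl
  have hper : ∀ i : ℤ, c ((i + 2 * m : ℤ)) = c i := by
    intro i
    congr 1
    push_cast
    have : ((2 * m : ℕ) : ZMod (2 * m)) = 0 := ZMod.natCast_self _
    push_cast at this
    rw [this, add_zero]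
  have key : ∀ (l : ℕ) (i j : ℤ), X.dist (c i) (c j) = l →
      ∃ s : ℤ, s.natAbs ≤ l ∧ (j : ZMod (2 * m)) = ((i + s : ℤ) : ZMod (2 * m)) := by
    intro l
    induction l with
    | zero =>
      intro i j h
      have : c i = c j := (hX.dist_eq_zero_iff).1 h
      exact ⟨0, by simp, by simpa using (hc.inj this).symm⟩
    | succ l ih =>
      intro i j h
      obtain ⟨w, hw1, hw2⟩ := exists_step hX h
      have hw3 : w ∈ Set.range c := by
        apply hc.conv (c i) ⟨_, rfl⟩ (c j) ⟨_, rfl⟩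
        show X.dist _ _ = _
        rw [h, dist_adj hw1, hw2, add_comm]
      obtain ⟨k, rfl⟩ := hw3
      rcases (hc.adj _ _).1 hw1 with hk | hk
      · have hk' : k = ((i + 1 : ℤ) : ZMod (2 * m)) := by push_cast; exact hk
        rw [hk'] at hw2
        obtain ⟨s, hs1, hs2⟩ := ih (i + 1) j hw2
        refine ⟨s + 1, by omega, ?_⟩
        rw [hs2]
        congr 1
        ring
      · have hk' : k = ((i - 1 : ℤ) : ZMod (2 * m)) := by
          push_cast
          exact (sub_eq_of_eq_add hk).symm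
        rw [hk'] at hw2
        obtain ⟨s, hs1, hs2⟩ := ih (i - 1) j hw2
        refine ⟨s - 1, by omega, ?_⟩
        rw [hs2]
        congr 1
        ring
  refine ⟨hm, hper, ?_, ?_⟩
  · intro i k hk
    have hle : ∀ k : ℕ, X.dist (c i) (c ((i + k : ℤ))) ≤ k := by
      intro k
      induction k with
      | zero => simp
      | succ k ih =>
        have := adj_dist_le hX (o := c i) (hadj (i + k))
        have h2 : (i + k + 1 : ℤ) = i + (k + 1 : ℕ) := by push_cast; ring
        rw [h2] at this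
        omega
    refine le_antisymm (hle k) ?_
    by_contra hlt
    push Not at hlt
    obtain ⟨s, hs1, hs2⟩ := key _ i (i + k) rfl
    rw [ZMod.intCast_eq_intCast_iff] at hs2
    have h3 : ((2 * m : ℕ) : ℤ) ∣ (i + s) - (i + k) := hs2.dvd
    obtain ⟨q, hq⟩ := h3
    have h4 : s - k = 2 * m * q := by push_cast at hq; linarith
    have h5 : s < k := by
      have : (s.natAbs : ℤ) < k := by
        have := lt_of_le_of_lt hs1 hlt
        exact_mod_cast this
      omega
    have h6 : -(2 * m : ℤ) < s - k := by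
      have : (s.natAbs : ℤ) < k := by
        have := lt_of_le_of_lt hs1 hlt
        exact_mod_cast this
      omega
    rw [h4] at h6
    have h7 : s - k < 0 := by omega
    rw [h4] at h7
    have hm' : (0 : ℤ) < 2 * m := by omega
    have h8 : q < 0 := by
      by_contra h8
      push Not at h8
      nlinarith
    nlinarith
  · have : Set.range (fun i : ℤ => c i) = Set.range c := by
      ext v
      constructor
      · rintro ⟨i, rfl⟩
        exact ⟨_, rfl⟩
      · rintro ⟨i, rfl⟩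
        obtain ⟨j, rfl⟩ := ZMod.intCast_surjective i
        exact ⟨j, rfl⟩
    rw [this]
    exact hc.conv

theorem range_int {m : ℕ} (c : ZMod (2 * m) → V) :
    Set.range (fun i : ℤ => c i) = Set.range c := by
  ext v
  constructor
  · rintro ⟨i, rfl⟩
    exact ⟨_, rfl⟩
  · rintro ⟨i, rfl⟩
    obtain ⟨j, rfl⟩ := ZMod.intCast_surjective i
    exact ⟨j, rfl⟩

/-- the gate of a vertex in a convex even cycle -/
theorem gate_cycle (hX : TF X) {m : ℕ} (hm : 2 ≤ m) {c : ZMod (2 * m) → V}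
    (hc : ConvexCycle X (2 * m) c) (o : V) :
    ∃ i : ℤ, ∀ k : ℤ, k.natAbs ≤ m →
      X.dist o (c ((i + k : ℤ))) = X.dist o (c i) + k.natAbs := by
  have hcon := hX.med.connected
  have hcy := hc.cyc hcon hm
  have : NeZero (2 * m) := ⟨by omega⟩
  obtain ⟨i', hi'⟩ := Finite.exists_max (fun j : ZMod (2 * m) => X.dist o (c j))
  obtain ⟨i0, rfl⟩ := ZMod.intCast_surjective i'
  have hmax : ∀ j : ℤ, X.dist o (c j) ≤ X.dist o (c i0) := fun j => hi' j
  have ha1 : X.Adj (c i0) (c ((i0 + 1 : ℤ))) := hcy.adj i0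
  have ha2 : X.Adj (c i0) (c ((i0 - 1 : ℤ))) := hcy.adj' i0 (i0 - 1) (Or.inr rfl)
  have hne : c ((i0 + 1 : ℤ)) ≠ c ((i0 - 1 : ℤ)) := by
    intro h
    have := hcy.inj hcon (a := i0 + 1) (b := i0 - 1) h (by omega)
    omega
  have hd1 : X.dist o (c ((i0 + 1 : ℤ))) + 1 = X.dist o (c i0) := by
    have := hmax (i0 + 1)
    have := hX.adj_or o ha1
    omega
  have hd2 : X.dist o (c ((i0 - 1 : ℤ))) + 1 = X.dist o (c i0) := by
    have := hmax (i0 - 1)
    have := hX.adj_or o ha2
    omega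
  obtain ⟨m', hm', c', hc', h0, h1, h2, h3, h4⟩ :=
    hX.med.cycle o _ _ _ hne ha1 ha2 hd1 hd2
  have hcy' := hc'.cyc hcon hm'
  have hrange : Set.range c = Set.range c' := by
    refine hX.med.share m m' c c' hm hm' hc hc' (c i0) (c ((i0 + 1 : ℤ))) (c i0)
      (c ((i0 - 1 : ℤ))) ha1 ha2 ?_ ⟨_, rfl⟩ ⟨_, rfl⟩ ⟨_, rfl⟩ ⟨_, rfl⟩ ⟨_, h0⟩ ⟨_, h1⟩ ⟨_, h0⟩
      ⟨_, h2⟩
    intro h
    rw [Sym2.eq_iff] at h
    rcases h with ⟨-, h⟩ | ⟨h, -⟩
    · exact hne h
    · exact ha2.ne h
  -- the opposite vertex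
  have h0' : c i0 = c' ((0 : ℤ)) := by rw [Int.cast_zero]; exact h0.symm
  have hmm : m ≤ m' := by
    have h5 : c ((i0 + m : ℤ)) ∈ Set.range c' := hrange ▸ ⟨_, rfl⟩
    obtain ⟨j', hj⟩ := h5
    obtain ⟨j, rfl⟩ := ZMod.intCast_surjective j'
    have h6 := hcy'.dist_le 0 j
    have h7 := hcy.dist i0 (i0 + m) (by omega)
    rw [← h0', hj, h7] at h6
    omega
  have h5 : c' ((m' : ℤ)) ∈ Set.range c := hrange ▸ ⟨_, rfl⟩
  obtain ⟨j', hj⟩ := h5
  obtain ⟨j, rfl⟩ := ZMod.intCast_surjective j'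
  obtain ⟨r, hr1, hr2, hr3⟩ := hcy.rep i0 j
  have h6 : X.dist (c i0) (c' ((m' : ℤ))) = m' := by
    have := hcy'.dist 0 m' (by omega)
    rw [h0', this]
    omega
  have h7 : X.dist (c i0) (c ((i0 + r : ℤ))) = r.natAbs := by
    have := hcy.dist i0 (i0 + r) (by omega)
    rw [this]
    omega
  have h8 : r = m ∧ m' = m := by
    rw [← hj, hr3, h7] at h6
    omega
  obtain ⟨h8, h8'⟩ := h8
  have h8'' := h8'.symm
  subst h8 h8''
  have h9 : c' ((m : ZMod (2 * m))) = c ((i0 + m : ℤ)) := by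
    rw [← hr3, hj, Int.cast_natCast]
  rw [h9] at h3 h4
  have hD : X.dist o (c ((i0 + m : ℤ))) + m = X.dist o (c i0) := by
    have h10 : X.dist o (c ((i0 + 1 : ℤ))) = X.dist o (c ((i0 + m : ℤ))) +
      X.dist (c ((i0 + m : ℤ))) (c ((i0 + 1 : ℤ))) := h3
    have h11 := hcy.dist (i0 + m) (i0 + 1) (by omega)
    rw [h11] at h10
    omega
  refine ⟨i0 + m, fun k hk => ?_⟩
  apply le_antisymm
  · have h10 := hcon.dist_triangle (u := o) (v := c ((i0 + m : ℤ))) (w := c ((i0 + m + k : ℤ)))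
    have h11 := hcy.dist (i0 + m) (i0 + m + k) (by omega)
    rw [h11] at h10
    omega
  · have h10 := hcon.dist_triangle (u := o) (v := c ((i0 + m + k : ℤ))) (w := c i0)
    have h12 : X.dist (c ((i0 + m + k : ℤ))) (c i0) = m - k.natAbs := by
      rcases le_total 0 k with hk0 | hk0
      · have h11 := hcy.dist (i0 + m + k) (i0 + 2 * m) (by omega)
        rw [hcy.per i0] at h11
        rw [h11]
        omega
      · have h11 := hcy.dist (i0 + m + k) i0 (by omega)
        rw [h11]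
        omega
    omega

end Pool.Agent.Med7a
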