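import Mathlib

/-!
# Mediangle graphs: the definitions of problem MP_7af17a_al

All notions are for a simple graph `X` on a vertex type `V` (possibly infinite, not necessarily
locally finite); a subgraph is given by its vertex set.
-/

namespace Pool.Agent.Med7a

variable {V : Type*}

/-- The interval `I(x,y)`. -/
def Itv (X : SimpleGraph V) (x y : V) : Set V :=
  {z | X.dist x y = X.dist x z + X.dist z y}

/-- A (full) subgraph, given by its vertex set, is convex if it contains the intervals between its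
vertices. -/
def Conv (X : SimpleGraph V) (Y : Set V) : Prop :=
  ∀ x ∈ Y, ∀ y ∈ Y, Itv X x y ⊆ Y

/-- A subgraph is gated if every vertex `x` has a gate in it. -/
def Gated (X : SimpleGraph V) (Y : Set V) : Prop :=
  ∀ x, ∃ y ∈ Y, ∀ z ∈ Y, y ∈ Itv X x z

/-- `c : ZMod n → V` runs once around a convex cycle of length `n`: it is injective, its image
spans exactly the cycle, and the image is convex. -/
structure ConvexCycle (X : SimpleGraph V) (n : ℕ) (c : ZMod n → V) : Prop where
  inj : Function.Injective c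
  adj : ∀ i j, X.Adj (c i) (c j) ↔ (j = i + 1 ∨ i = j + 1)
  conv : Conv X (Set.range c)

/-- Mediangle graphs: conditions (1)-(4) of the problem (connected, simple). -/
structure IsMediangle (X : SimpleGraph V) : Prop where
  connected : X.Connected
  /-- (1) -/
  triangle : ∀ o x y, X.Adj x y → X.dist o x = X.dist o y →
    ∃ z, X.Adj x z ∧ X.Adj y z ∧ z ∈ Itv X o x ∧ z ∈ Itv X o y
  /-- (2) no induced `K₄` minus an edge -/
  noK4minus : ∀ a b c d, a ≠ b → X.Adj c d → X.Adj a c → X.Adj a d → X.Adj b c → X.Adj b d →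
    X.Adj a b
  /-- (3) -/
  cycle : ∀ o x y z, x ≠ y → X.Adj z x → X.Adj z y →
    X.dist o x + 1 = X.dist o z → X.dist o y + 1 = X.dist o z →
    ∃ m : ℕ, 2 ≤ m ∧ ∃ c : ZMod (2 * m) → V, ConvexCycle X (2 * m) c ∧
      c 0 = z ∧ c 1 = x ∧ c (-1) = y ∧ c (m : ZMod (2 * m)) ∈ Itv X o x ∧
      c (m : ZMod (2 * m)) ∈ Itv X o y
  /-- (4) two convex cycles of even length which have two different edges in common are equal -/
  share : ∀ (m m' : ℕ) (c : ZMod (2 * m) → V) (c' : ZMod (2 * m') → V), 2 ≤ m → 2 ≤ m' →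
    ConvexCycle X (2 * m) c → ConvexCycle X (2 * m') c' →
    ∀ a b a' b', X.Adj a b → X.Adj a' b' → s(a, b) ≠ s(a', b') →
      a ∈ Set.range c → b ∈ Set.range c → a' ∈ Set.range c → b' ∈ Set.range c →
      a ∈ Set.range c' → b ∈ Set.range c' → a' ∈ Set.range c' → b' ∈ Set.range c' →
      Set.range c = Set.range c'

/-- The elementary relation between edges: two edges of a common `3`-cycle, or two opposite edges of
a convex cycle of even length `2 m`. -/
inductive HypStep (X : SimpleGraph V) : Sym2 V → Sym2 V → Prop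
  | tri (a b c : V) (hab : X.Adj a b) (hbc : X.Adj b c) (hac : X.Adj a c) :
      HypStep X s(a, b) s(b, c)
  | opp (m : ℕ) (hm : 2 ≤ m) (c : ZMod (2 * m) → V) (hc : ConvexCycle X (2 * m) c)
      (i : ZMod (2 * m)) : HypStep X s(c i, c (i + 1)) s(c (i + m), c (i + m + 1))

/-- Two edges lie in the same hyperplane. -/
def SameHyp (X : SimpleGraph V) : Sym2 V → Sym2 V → Prop :=
  Relation.EqvGen (HypStep X)

/-- The hyperplanes of the edges `e` and `f` are (distinct and) transverse: some convex cycle of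
even length contains an edge of each. -/
def Transverse (X : SimpleGraph V) (e f : Sym2 V) : Prop :=
  ¬ SameHyp X e f ∧ ∃ (m : ℕ) (c : ZMod (2 * m) → V) (i j : ZMod (2 * m)), 2 ≤ m ∧
    ConvexCycle X (2 * m) c ∧ SameHyp X e s(c i, c (i + 1)) ∧ SameHyp X f s(c j, c (j + 1))

/-- A monolith: a (nonempty) gated subgraph whose hyperplanes are pairwise transverse. -/
def Monolith (X : SimpleGraph V) (M : Set V) : Prop :=
  M.Nonempty ∧ Gated X M ∧ ∀ a ∈ M, ∀ b ∈ M, ∀ a' ∈ M, ∀ b' ∈ M, X.Adj a b → X.Adj a' b' →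
    SameHyp X s(a, b) s(a', b') ∨ Transverse X s(a, b) s(a', b')

end Pool.Agent.Med7a
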