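import Pool.Agent.Lib.MP_7af17a_al.Orbit

/-!
# Bounded orbits: existence of a finite orbit, and the main theorem for triangle-free graphs
-/

namespace Pool.Agent.Med7a

open Pointwise

variable {V : Type*} {X : SimpleGraph V}

variable {G : Type*} [Group G]

/-- B. H. Neumann's lemma: finitely many points with infinite orbits can be moved off a finite set
by an element of a given subgroup of finite index. -/
theorem neumann {α : Type*} [MulAction G α] (H : Subgroup G) [H.FiniteIndex] {W F : Set α}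
    (hW : W.Finite) (hF : F.Finite) (hinf : ∀ w ∈ W, ¬ (MulAction.orbit G w).Finite) :
    ∃ h ∈ H, ∀ w ∈ W, h • w ∉ F := by
  classical
  by_contra hcon
  push Not at hcon
  let s : Finset (α × α) := (hW.toFinset ×ˢ hF.toFinset).filter
    (fun p => ∃ h : H, (h : G) • p.1 = p.2)
  let g : α × α → H := fun p => if hp : ∃ h : H, (h : G) • p.1 = p.2 then hp.choose else 1
  have hg : ∀ p : α × α, (∃ h : H, (h : G) • p.1 = p.2) → (g p : G) • p.1 = p.2 := by
    intro p hp
    simp only [g, hp, dite_true]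
    exact hp.choose_spec
  have hcov : ⋃ p ∈ s, (g p) • ((MulAction.stabilizer H p.1 : Subgroup H) : Set H) = Set.univ := by
    rw [Set.eq_univ_iff_forall]
    intro h
    obtain ⟨w, hw, hwF⟩ := hcon h.1 h.2
    have hp : ∃ h' : H, (h' : G) • w = (h : G) • w := ⟨h, rfl⟩
    simp only [Set.mem_iUnion]
    refine ⟨(w, (h : G) • w), ?_, ?_⟩
    · simp only [s, Finset.mem_filter, Finset.mem_product, Set.Finite.mem_toFinset]
      exact ⟨⟨hw, hwF⟩, hp⟩
    · rw [mem_leftCoset_iff, SetLike.mem_coe, MulAction.mem_stabilizer_iff, mul_smul, inv_smul_eq_iff]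
      exact (hg (w, (h : G) • w) hp).symm
  obtain ⟨p, hp, hfi⟩ := Subgroup.exists_finiteIndex_of_leftCoset_cover hcov
  simp only [s, Finset.mem_filter, Finset.mem_product, Set.Finite.mem_toFinset] at hp
  apply hinf p.1 hp.1.1
  have h1 : MulAction.stabilizer H p.1 = (MulAction.stabilizer G p.1).subgroupOf H := by
    ext h
    rfl
  rw [h1] at hfi
  have h2 : (MulAction.stabilizer G p.1).relIndex H ≠ 0 := hfi.index_ne_zero
  have h3 : (MulAction.stabilizer G p.1 ⊓ H).index ≠ 0 := by
    rw [← Subgroup.relIndex_mul_index (inf_le_right : MulAction.stabilizer G p.1 ⊓ H ≤ H),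
      Subgroup.inf_relIndex_right]
    exact mul_ne_zero h2 Subgroup.FiniteIndex.index_ne_zero
  have h4 : (MulAction.stabilizer G p.1).index ≠ 0 := by
    have : (MulAction.stabilizer G p.1 ⊓ H).FiniteIndex := ⟨h3⟩
    exact (Subgroup.finiteIndex_of_le
      (inf_le_left : MulAction.stabilizer G p.1 ⊓ H ≤ MulAction.stabilizer G p.1)).index_ne_zero
  rw [MulAction.index_stabilizer] at h4
  exact Set.finite_of_ncard_ne_zero h4

theorem exists_argmax {ι : Type*} [Nonempty ι] (f : ι → ℕ) (B : ℕ) (hB : ∀ i, f i ≤ B) :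
    ∃ i0, ∀ i, f i ≤ f i0 := by
  have hne : (Set.range f).Nonempty := Set.range_nonempty f
  have hb : BddAbove (Set.range f) := ⟨B, by rintro _ ⟨i, rfl⟩; exact hB i⟩
  obtain ⟨i0, hi0⟩ := Nat.sSup_mem hne hb
  exact ⟨i0, fun i => hi0 ▸ le_csSup hb ⟨i, rfl⟩⟩

variable [MulAction G V]

theorem SS_smul (hX : TF X) (ha : Acts X G) (g : G) (x y : V) :
    SS X (g • x) (g • y) = (fun h => g • h) '' SS X x y := by
  ext h
  constructor
  · rintro ⟨h1, h2⟩
    refine ⟨g⁻¹ • h, ⟨ha.HS hX g⁻¹ h1, ?_⟩, smul_inv_smul g h⟩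
    rw [Set.mem_inv_smul_set_iff, Set.mem_inv_smul_set_iff]
    exact h2
  · rintro ⟨h, ⟨h1, h2⟩, rfl⟩
    refine ⟨ha.HS hX g h1, ?_⟩
    simp only [Set.smul_mem_smul_set_iff]
    exact h2

/-- A bounded orbit gives a finite orbit. -/
theorem exists_finite_orbit (hX : TF X) (ha : Acts X G) (x0 : V) (D : ℕ)
    (hD : ∀ g : G, X.dist x0 (g • x0) ≤ D) : ∃ z : V, (MulAction.orbit G z).Finite := by
  classical
  let I : Set (Set V) := {h | HS X h ∧ ¬ (MulAction.orbit G h).Finite}
  have hIsmul : ∀ (g : G) (h : Set V), h ∈ I → g • h ∈ I := by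
    rintro g h ⟨h1, h2⟩
    refine ⟨ha.HS hX g h1, ?_⟩
    rw [MulAction.orbit_smul]
    exact h2
  let T : V → V → Set (Set V) := fun x y => SS X x y ∩ I
  have Tfin : ∀ x y, (T x y).Finite := fun x y => (SS_finite hX x y).subset Set.inter_subset_left
  have Tsymm : ∀ x y z, T x z = symmDiff (T x y) (T y z) := by
    intro x y z
    ext h
    have := Set.ext_iff.1 (SS_symmDiff (X := X) x y z) h
    simp only [T, Set.mem_inter_iff, Set.mem_symmDiff] at this ⊢
    tauto
  have Tcomm : ∀ x y, T x y = T y x := by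
    intro x y
    simp only [T]
    rw [SS_comm]
  have Tsmul : ∀ (g : G) x y, T (g • x) (g • y) = (fun h => g • h) '' T x y := by
    intro g x y
    ext h
    constructor
    · rintro ⟨h1, h2⟩
      rw [SS_smul hX ha] at h1
      obtain ⟨h, h1, rfl⟩ := h1
      refine ⟨h, ⟨h1, ?_⟩, rfl⟩
      have := hIsmul g⁻¹ _ h2
      rwa [inv_smul_smul] at this
    · rintro ⟨h, ⟨h1, h2⟩, rfl⟩
      refine ⟨?_, hIsmul g _ h2⟩
      rw [SS_smul hX ha]
      exact ⟨h, h1, rfl⟩
  have ncard_smul : ∀ (g : G) (P : Set (Set V)), ((fun h => g • h) '' P).ncard = P.ncard :=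
    fun g P => Set.ncard_image_of_injective P (MulAction.injective g)
  obtain ⟨g0, hg0⟩ := exists_argmax (fun g : G => (T x0 (g • x0)).ncard) (2 * D) (by
    intro g
    refine (Set.ncard_le_ncard Set.inter_subset_left (SS_finite hX _ _)).trans ?_
    refine (SS_le hX _ _).trans ?_
    have := hD g
    omega)
  set W := T x0 (g0 • x0) with hWdef
  set w := W.ncard with hwdef
  have hmax : ∀ a b : G, (T (a • x0) (b • x0)).ncard ≤ w := by
    intro a b
    have h1 : b • x0 = a • ((a⁻¹ * b) • x0) := by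
      rw [← mul_smul]
      congr 1
      group
    rw [h1, Tsmul, ncard_smul]
    exact hg0 _
  have hmax0 : ∀ b : G, (T x0 (b • x0)).ncard ≤ w := fun b => hg0 b
  have hWinf : ∀ k ∈ W, ¬ (MulAction.orbit G k).Finite := fun k hk => hk.2.2
  have hWf : W.Finite := Tfin _ _
  have hWh : ∀ h : G, (fun k => h • k) '' W = T (h • x0) ((h * g0) • x0) := by
    intro h
    rw [hWdef, ← Tsmul, ← mul_smul]
  -- one element
  have lemA : ∀ h : G, (∀ k ∈ W, h • k ∉ W) →
      T x0 (h • x0) ⊆ W ∪ (fun k => h • k) '' W ∧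
      (T x0 (h • x0)).ncard = w ∧ 2 * (T x0 (h • x0) ∩ W).ncard = w := by
    intro h hh
    set U := T x0 (h • x0) with hU
    set W' := (fun k => h • k) '' W with hW'
    have hdisj : W ∩ W' = ∅ := by
      ext k
      simp only [Set.mem_inter_iff, Set.mem_empty_iff_false, iff_false]
      rintro ⟨h1, ⟨k', h2, rfl⟩⟩
      exact hh k' h2 h1
    have hW'f : W'.Finite := hWf.image _
    have hUf : U.Finite := Tfin _ _
    have c1 : U.ncard ≤ w := hmax0 h
    have cW' : W'.ncard = w := ncard_smul h W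
    have e1 : T (g0 • x0) (h • x0) = symmDiff W U := by
      rw [Tsymm (g0 • x0) x0 (h • x0), Tcomm (g0 • x0) x0]
    have c2 : (symmDiff W U).ncard ≤ w := by
      rw [← e1]
      exact hmax _ _
    have e3 : T x0 ((h * g0) • x0) = symmDiff U W' := by
      rw [Tsymm x0 (h • x0) ((h * g0) • x0), hW', hWh]
    have c3 : (symmDiff U W').ncard ≤ w := by
      rw [← e3]
      exact hmax0 _
    have e4 : T (g0 • x0) ((h * g0) • x0) = symmDiff (symmDiff W U) W' := by
      rw [Tsymm (g0 • x0) (h • x0) ((h * g0) • x0), e1, hW', hWh]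
    have c4 : (symmDiff (symmDiff W U) W').ncard ≤ w := by
      rw [← e4]
      exact hmax _ _
    have s1 := ncard_symmDiff hWf hUf
    have s2 := ncard_symmDiff hUf hW'f
    have hWUf : (symmDiff W U).Finite := by rw [← e1]; exact Tfin _ _
    have s3 := ncard_symmDiff hWUf hW'f
    have e5 : symmDiff W U ∩ W' = U ∩ W' := by
      ext k
      have : ¬ (k ∈ W ∧ k ∈ W') := by
        intro h1
        have h2 : k ∈ W ∩ W' := h1
        rw [hdisj] at h2
        exact h2
      simp only [Set.mem_inter_iff, Set.mem_symmDiff]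
      tauto
    rw [e5] at s3
    rw [Set.inter_comm W U] at s1
    have hun : (U ∩ W ∪ U ∩ W').ncard = (U ∩ W).ncard + (U ∩ W').ncard := by
      apply Set.ncard_union_eq _ (hUf.subset Set.inter_subset_left)
        (hUf.subset Set.inter_subset_left)
      rw [Set.disjoint_left]
      rintro k ⟨-, h1⟩ ⟨-, h2⟩
      have h3 : k ∈ W ∩ W' := ⟨h1, h2⟩
      rw [hdisj] at h3
      exact h3
    have hsub : U ∩ W ∪ U ∩ W' ⊆ U := by
      rintro k (h1 | h1)
      · exact h1.1
      · exact h1.1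
    have hle := Set.ncard_le_ncard hsub hUf
    rw [hun] at hle
    have hall : U ∩ W ∪ U ∩ W' = U := by
      apply Set.eq_of_subset_of_ncard_le hsub _ hUf
      rw [hun]
      omega
    refine ⟨?_, by omega, by omega⟩
    rw [← hall]
    rintro k (h1 | h1)
    · exact Or.inl h1.2
    · exact Or.inr h1.2
  -- two elements
  have lemB0 : ∀ h h' : G, (∀ k ∈ W, h • k ∉ W) → (∀ k ∈ W, h' • k ∉ W) →
      (∀ k ∈ W, h' • k ∉ (fun k => h • k) '' W) →
      T x0 (h • x0) ∩ W = T x0 (h' • x0) ∩ W := by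
    intro h h' hh hh' hhh
    obtain ⟨a1, a2, a3⟩ := lemA h hh
    obtain ⟨b1, b2, b3⟩ := lemA h' hh'
    set U := T x0 (h • x0) with hU
    set U' := T x0 (h' • x0) with hU'
    have hUf : U.Finite := Tfin _ _
    have hU'f : U'.Finite := Tfin _ _
    have e1 : T (h • x0) (h' • x0) = symmDiff U U' := by
      rw [Tsymm (h • x0) x0 (h' • x0), Tcomm (h • x0) x0]
    have c1 : (symmDiff U U').ncard ≤ w := by
      rw [← e1]
      exact hmax _ _
    have s1 := ncard_symmDiff hUf hU'f
    have hsubW : U ∩ U' ⊆ W := by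
      rintro k ⟨h1, h2⟩
      by_contra hk
      rcases a1 h1 with h3 | h3
      · exact hk h3
      rcases b1 h2 with h4 | ⟨k', h4, rfl⟩
      · exact hk h4
      · exact hhh k' h4 h3
    have hs1 : U ∩ U' ⊆ U ∩ W := fun k hk => ⟨hk.1, hsubW hk⟩
    have hs2 : U ∩ U' ⊆ U' ∩ W := fun k hk => ⟨hk.2, hsubW hk⟩
    have q1 := Set.eq_of_subset_of_ncard_le hs1 (by omega) (hUf.subset Set.inter_subset_left)
    have q2 := Set.eq_of_subset_of_ncard_le hs2 (by omega) (hU'f.subset Set.inter_subset_left)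
    rw [← q1, ← q2]
  obtain ⟨h1, -, hh1⟩ := neumann (⊤ : Subgroup G) hWf hWf hWinf
  set A := T x0 (h1 • x0) ∩ W with hA
  have lemB : ∀ h : G, (∀ k ∈ W, h • k ∉ W) → T x0 (h • x0) ∩ W = A := by
    intro h hh
    obtain ⟨h2, -, hh2⟩ := neumann (⊤ : Subgroup G) hWf
      (F := W ∪ ((fun k => h • k) '' W ∪ (fun k => h1 • k) '' W))
      (hWf.union ((hWf.image _).union (hWf.image _))) hWinf
    have e1 := lemB0 h h2 hh (fun k hk h3 => hh2 k hk (Or.inl h3))
      (fun k hk h3 => hh2 k hk (Or.inr (Or.inl h3)))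
    have e2 := lemB0 h1 h2 hh1 (fun k hk h3 => hh2 k hk (Or.inl h3))
      (fun k hk h3 => hh2 k hk (Or.inr (Or.inr h3)))
    rw [e1, ← e2]
  have hAf : A.Finite := hWf.subset Set.inter_subset_right
  obtain ⟨z, hz⟩ := realise hX x0 A hAf (by
    intro F hF
    -- elements fixing all walls of `F` with finite orbit
    let ι := {f : Set V // f ∈ F ∧ (MulAction.orbit G f).Finite}
    have : Finite ι := by
      have : Finite F := hF
      exact Finite.of_injective (fun i : ι => (⟨i.1, i.2.1⟩ : F)) (by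
        intro i j hij
        apply Subtype.ext
        exact congrArg (fun v : F => v.1) hij)
    let H : Subgroup G := ⨅ i : ι, MulAction.stabilizer G i.1
    have : H.FiniteIndex := by
      apply Subgroup.finiteIndex_iInf
      intro i
      refine ⟨?_⟩
      rw [MulAction.index_stabilizer]
      exact Set.ncard_ne_zero_of_mem (MulAction.mem_orbit_self _) i.2.2
    obtain ⟨h, hhH, hh⟩ := neumann H hWf (hWf.union hF) hWinf
    have hh' : ∀ k ∈ W, h • k ∉ W := fun k hk h2 => hh k hk (Or.inl h2)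
    obtain ⟨a1, -, -⟩ := lemA h hh'
    have hB := lemB h hh'
    refine ⟨h • x0, fun f hf => ?_⟩
    constructor
    · intro hfS
      by_cases hforb : (MulAction.orbit G f).Finite
      · exfalso
        have h3 : h ∈ MulAction.stabilizer G f := (Subgroup.mem_iInf.1 hhH) ⟨f, hf, hforb⟩
        rw [MulAction.mem_stabilizer_iff] at h3
        apply hfS.2
        conv_rhs => rw [← h3]
        rw [Set.smul_mem_smul_set_iff]
      · have h3 : f ∈ T x0 (h • x0) := ⟨hfS, hfS.1, hforb⟩
        rcases a1 h3 with h4 | ⟨k, h4, rfl⟩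
        · rw [← hB]
          exact ⟨h3, h4⟩
        · exact absurd (Or.inr hf) (hh k h4)
    · intro hfA
      rw [← hB] at hfA
      exact hfA.1.1)
  -- walls with infinite orbit do not separate `z` from its translates
  have hzT : T x0 z = A := by
    simp only [T]
    rw [hz]
    ext k
    constructor
    · exact fun h => h.1
    · exact fun h => ⟨h, h.1.2⟩
  have hR : ∀ g : G, T z (g • z) = ∅ := by
    intro g
    set R := T z (g • z) with hRdef
    have hRf : R.Finite := Tfin _ _
    obtain ⟨h, -, hh⟩ := neumann (⊤ : Subgroup G) hWf (hWf.union hRf) hWinf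
    have hhW : ∀ k ∈ W, h • k ∉ W := fun k hk h2 => hh k hk (Or.inl h2)
    obtain ⟨h', -, hh'⟩ := neumann (⊤ : Subgroup G) hWf
      (F := W ∪ (fun k => g⁻¹ • k) '' (R ∪ (fun k => h • k) '' W))
      (hWf.union ((hRf.union (hWf.image _)).image _)) hWinf
    have hhW' : ∀ k ∈ W, h' • k ∉ W := fun k hk h2 => hh' k hk (Or.inl h2)
    -- the sets `B`
    have hBset : ∀ h : G, (∀ k ∈ W, h • k ∉ W) → T z (h • x0) ⊆ (fun k => h • k) '' W ∧
        2 * (T z (h • x0)).ncard = w := by
      intro h hh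
      obtain ⟨a1, a2, a3⟩ := lemA h hh
      have hB := lemB h hh
      have e1 : T z (h • x0) = symmDiff A (T x0 (h • x0)) := by
        rw [Tsymm z x0 (h • x0), Tcomm z x0, hzT]
      have hAs : A ⊆ T x0 (h • x0) := by
        rw [← hB]
        exact Set.inter_subset_left
      constructor
      · rw [e1]
        rintro k (⟨h3, h4⟩ | ⟨h3, h4⟩)
        · exact absurd (hAs h3) h4
        · rcases a1 h3 with h5 | h5
          · exfalso
            apply h4
            rw [← hB]
            exact ⟨h3, h5⟩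
          · exact h5
      · have s1 := ncard_symmDiff hAf (Tfin x0 (h • x0))
        rw [← e1, Set.inter_eq_left.2 hAs] at s1
        rw [hB] at a3
        omega
    obtain ⟨b1, b2⟩ := hBset h hhW
    obtain ⟨b1', b2'⟩ := hBset h' hhW'
    have e1 : T (h • x0) ((g * h') • x0) = symmDiff (symmDiff (T z (h • x0)) R)
        ((fun k => g • k) '' T z (h' • x0)) := by
      rw [← Tsmul, ← mul_smul, Tsymm (h • x0) (g • z) ((g * h') • x0), Tsymm (h • x0) z (g • z),
        Tcomm (h • x0) z]
    have c1 : (T (h • x0) ((g * h') • x0)).ncard ≤ w := hmax _ _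
    have f1 : (T z (h • x0)).Finite := Tfin _ _
    have f2 : ((fun k => g • k) '' T z (h' • x0)).Finite := (Tfin _ _).image _
    have d1 : T z (h • x0) ∩ R = ∅ := by
      ext k
      simp only [Set.mem_inter_iff, Set.mem_empty_iff_false, iff_false]
      rintro ⟨h3, h4⟩
      obtain ⟨k', h5, rfl⟩ := b1 h3
      exact hh k' h5 (Or.inr h4)
    have f3 : (symmDiff (T z (h • x0)) R).Finite := by
      refine (f1.union hRf).subset ?_
      rintro k (⟨h3, -⟩ | ⟨h3, -⟩)
      · exact Or.inl h3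
      · exact Or.inr h3
    have d2 : symmDiff (T z (h • x0)) R ∩ ((fun k => g • k) '' T z (h' • x0)) = ∅ := by
      ext k
      simp only [Set.mem_inter_iff, Set.mem_empty_iff_false, iff_false]
      rintro ⟨h3, ⟨k', h4, rfl⟩⟩
      obtain ⟨k'', h5, rfl⟩ := b1' h4
      have h6 : h' • k'' ∉ (fun k => g⁻¹ • k) '' (R ∪ (fun k => h • k) '' W) :=
        fun h7 => hh' k'' h5 (Or.inr h7)
      apply h6
      refine ⟨g • h' • k'', ?_, inv_smul_smul g _⟩
      rcases h3 with ⟨h3, -⟩ | ⟨h3, -⟩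
      · exact Or.inr (b1 h3)
      · exact Or.inl h3
    have s1 := ncard_symmDiff f1 hRf
    have s2 := ncard_symmDiff f3 f2
    rw [d1, Set.ncard_empty] at s1
    rw [d2, Set.ncard_empty, ncard_smul] at s2
    rw [e1] at c1
    have : R.ncard = 0 := by omega
    exact (Set.ncard_eq_zero hRf).1 this
  -- second stage
  have hbd : ∀ g : G, (SS X z (g • z)).ncard ≤ 2 * (2 * X.dist x0 z + D) := by
    intro g
    refine (SS_le hX _ _).trans ?_
    have hcon := hX.med.connected
    have t1 := hcon.dist_triangle (u := z) (v := x0) (w := g • z)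
    have t2 := hcon.dist_triangle (u := x0) (v := g • x0) (w := g • z)
    have t3 := ha.dist hX g x0 z
    have t4 := hD g
    rw [X.dist_comm (u := z) (v := x0)] at t1
    omega
  obtain ⟨g1, hg1⟩ := exists_argmax (fun g : G => (SS X z (g • z)).ncard) _ hbd
  have horb : ∀ g : G, ∀ k ∈ SS X z (g • z), (MulAction.orbit G k).Finite := by
    intro g k hk
    by_contra hn
    have : k ∈ T z (g • z) := ⟨hk, hk.1, hn⟩
    rw [hR] at this
    exact this
  let ι := SS X z (g1 • z)
  have : Finite ι := SS_finite hX _ _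
  let H : Subgroup G := ⨅ i : ι, MulAction.stabilizer G i.1
  have hHfi : H.FiniteIndex := by
    apply Subgroup.finiteIndex_iInf
    intro i
    refine ⟨?_⟩
    rw [MulAction.index_stabilizer]
    exact Set.ncard_ne_zero_of_mem (MulAction.mem_orbit_self _) (horb g1 i.1 i.2)
  have hfix : ∀ h ∈ H, h • z = z := by
    intro h hh
    have hdis : SS X z (g1 • z) ∩ SS X z (h • z) = ∅ := by
      ext k
      simp only [Set.mem_inter_iff, Set.mem_empty_iff_false, iff_false]
      rintro ⟨h3, h4⟩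
      have h5 : h ∈ MulAction.stabilizer G k := (Subgroup.mem_iInf.1 hh) ⟨k, h3⟩
      rw [MulAction.mem_stabilizer_iff] at h5
      apply h4.2
      conv_rhs => rw [← h5]
      rw [Set.smul_mem_smul_set_iff]
    have e1 : SS X (g1 • z) (h • z) = symmDiff (SS X z (g1 • z)) (SS X z (h • z)) := by
      rw [SS_symmDiff (g1 • z) z (h • z), SS_comm (g1 • z) z]
    have s1 := ncard_symmDiff (SS_finite hX z (g1 • z)) (SS_finite hX z (h • z))
    rw [hdis, Set.ncard_empty, ← e1] at s1
    have e2 : (SS X (g1 • z) (h • z)).ncard = (SS X z ((g1⁻¹ * h) • z)).ncard := by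
      have : h • z = g1 • ((g1⁻¹ * h) • z) := by
        rw [← mul_smul]
        congr 1
        group
      rw [this, SS_smul hX ha, ncard_smul]
    have e3 := hg1 (g1⁻¹ * h)
    have e4 : (SS X z (h • z)).ncard = 0 := by omega
    exact (eq_of_SS hX ((Set.ncard_eq_zero (SS_finite hX _ _)).1 e4)).symm
  refine ⟨z, ?_⟩
  have hle : H ≤ MulAction.stabilizer G z := fun h hh => hfix h hh
  have h5 := (Subgroup.finiteIndex_of_le hle).index_ne_zero
  rw [MulAction.index_stabilizer] at h5
  exact Set.finite_of_ncard_ne_zero h5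

/-- a finite orbit lies in a finite convex invariant set -/
theorem exists_hull (hX : TF X) (ha : Acts X G) (x0 : V) (hfin : (MulAction.orbit G x0).Finite) :
    ∃ Y : Set V, Y.Finite ∧ Conv X Y ∧ x0 ∈ Y ∧ ∀ g : G, g • Y = Y := by
  let Y : Set V := {z | ∀ h, HS X h → (∀ g : G, g • x0 ∈ h) → z ∈ h}
  have hsub : ∀ g : G, g • Y ⊆ Y := by
    rintro g _ ⟨z, hz, rfl⟩ h hh hall
    have h1 : z ∈ g⁻¹ • h := by
      apply hz _ (ha.HS hX g⁻¹ hh)
      intro g'
      rw [Set.mem_inv_smul_set_iff, ← mul_smul]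
      exact hall _
    rwa [Set.mem_inv_smul_set_iff] at h1
  refine ⟨Y, ?_, ?_, ?_, ?_⟩
  · let F : Set (Set V) := ⋃ y ∈ MulAction.orbit G x0, SS X x0 y
    have hF : F.Finite := hfin.biUnion fun y _ => SS_finite hX x0 y
    have hinj : Set.InjOn (fun z => F ∩ {h | z ∈ h}) Y := by
      intro z hz z' hz' he
      simp only at he
      apply eq_of_HS hX
      intro k hk hzk
      by_cases hkF : k ∈ F
      · have : k ∈ F ∩ {h | z ∈ h} := ⟨hkF, hzk⟩
        rw [he] at this
        exact this.2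
      · have hsame : ∀ g : G, (x0 ∈ k ↔ g • x0 ∈ k) := by
          intro g
          by_contra hn
          apply hkF
          simp only [F, Set.mem_iUnion]
          exact ⟨g • x0, ⟨g, rfl⟩, hk, hn⟩
        by_cases hx0 : x0 ∈ k
        · exact hz' k hk (fun g => (hsame g).1 hx0)
        · exact absurd hzk (hz kᶜ (hk.compl hX) (fun g h => hx0 ((hsame g).2 h)))
    refine Set.Finite.of_finite_image (hF.finite_subsets.subset ?_) hinj
    rintro _ ⟨z, -, rfl⟩
    exact Set.inter_subset_left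
  · intro x hx y hy z hz h hh hall
    exact (mem_Itv_iff hX).1 hz h hh (hx h hh hall) (hy h hh hall)
  · intro h _ hall
    have := hall 1
    rwa [one_smul] at this
  · intro g
    apply Set.Subset.antisymm (hsub g)
    have := Set.smul_set_mono (a := g) (hsub g⁻¹)
    rwa [smul_inv_smul] at this

/-- antipodal gated sets are monoliths -/
theorem Cell.monolith (hX : TF X) {M : Set V} (hM : Cell X M) : Monolith X M := by
  refine ⟨hM.ne, hM.gated, ?_⟩
  intro a ha b hb a' ha' b' hb' hab hab'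
  have hkS : HS X (W X a' b') := HS_W hab'
  have hhS : HS X (W X a b) := HS_W hab
  have hc : Crs (W X a b) M := ⟨⟨a, ha, left_mem_W hab⟩, b, hb, right_not_mem_W⟩
  have hc' : Crs (W X a' b') M := ⟨⟨a', ha', left_mem_W hab'⟩, b', hb', right_not_mem_W⟩
  by_cases e1 : W X a b = W X a' b'
  · left
    refine hhS.same hX hab (left_mem_W hab) right_not_mem_W hab' ?_ ?_
    · rw [e1]; exact left_mem_W hab'
    · rw [e1]; exact right_not_mem_W
  by_cases e2 : W X a b = (W X a' b')ᶜ
  · left
    rw [Sym2.eq_swap (a := a') (b := b')]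
    refine hhS.same hX hab (left_mem_W hab) right_not_mem_W hab'.symm ?_ ?_
    · rw [e2]; exact right_not_mem_W
    · rw [e2]; exact fun h => h (left_mem_W hab')
  right
  -- the invariant halfspace of a hyperplane
  have hinv : ∀ e f, SameHyp X e f → ∀ x y, X.Adj x y → e = s(x, y) →
      ∃ x' y', X.Adj x' y' ∧ f = s(x', y') ∧ W X x' y' = W X x y := by
    have hstep : ∀ e f, HypStep X e f → (∀ x y, X.Adj x y → e = s(x, y) →
        ∃ x' y', X.Adj x' y' ∧ f = s(x', y') ∧ W X x' y' = W X x y) ∧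
        (∀ x y, X.Adj x y → f = s(x, y) →
        ∃ x' y', X.Adj x' y' ∧ e = s(x', y') ∧ W X x' y' = W X x y) := by
      intro e f hef
      cases hef with
      | tri a b c hab hbc hac => exact absurd hac (fun h => hX.tf a b c hab hbc h)
      | opp m hm c hc i =>
        obtain ⟨i, rfl⟩ := ZMod.intCast_surjective i
        have hcy := hc.cyc hX.med.connected hm
        have key := W_opp hX hm hc i
        have a1 : X.Adj (c i) (c ((i + 1 : ℤ))) := hcy.adj i
        have a2 : X.Adj (c ((i + m : ℤ))) (c ((i + m + 1 : ℤ))) := hcy.adj (i + m)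
        have n1 : c ((i : ZMod (2 * m)) + 1) = c ((i + 1 : ℤ)) := by push_cast; rfl
        have n2 : c ((i : ZMod (2 * m)) + m) = c ((i + m : ℤ)) := by push_cast; rfl
        have n3 : c ((i : ZMod (2 * m)) + m + 1) = c ((i + m + 1 : ℤ)) := by push_cast; rfl
        have key' : W X (c ((i + 1 : ℤ))) (c i) = W X (c ((i + m : ℤ))) (c ((i + m + 1 : ℤ))) := by
          rw [← W_compl hX a1, ← W_compl hX a2.symm, key]
        rw [n1, n2, n3]
        constructor
        · intro x y _ he
          rw [Sym2.eq_iff] at he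
          rcases he with ⟨rfl, rfl⟩ | ⟨rfl, rfl⟩
          · exact ⟨_, _, a2.symm, Sym2.eq_swap, key.symm⟩
          · exact ⟨_, _, a2, rfl, key'.symm⟩
        · intro x y _ he
          rw [Sym2.eq_iff] at he
          rcases he with ⟨rfl, rfl⟩ | ⟨rfl, rfl⟩
          · exact ⟨_, _, a1.symm, Sym2.eq_swap, key'⟩
          · exact ⟨_, _, a1, rfl, key⟩
    intro e f hef
    have : (∀ x y, X.Adj x y → e = s(x, y) →
        ∃ x' y', X.Adj x' y' ∧ f = s(x', y') ∧ W X x' y' = W X x y) ∧
        (∀ x y, X.Adj x y → f = s(x, y) →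
        ∃ x' y', X.Adj x' y' ∧ e = s(x', y') ∧ W X x' y' = W X x y) := by
      induction hef with
      | rel e f h => exact hstep e f h
      | refl e => exact ⟨fun x y h1 h2 => ⟨x, y, h1, h2, rfl⟩, fun x y h1 h2 => ⟨x, y, h1, h2, rfl⟩⟩
      | symm e f _ ih => exact ⟨ih.2, ih.1⟩
      | trans e f g _ _ ih1 ih2 =>
        constructor
        · intro x y h1 h2
          obtain ⟨x', y', h3, h4, h5⟩ := ih1.1 x y h1 h2
          obtain ⟨x'', y'', h6, h7, h8⟩ := ih2.1 x' y' h3 h4
          exact ⟨x'', y'', h6, h7, h8.trans h5⟩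
        · intro x y h1 h2
          obtain ⟨x', y', h3, h4, h5⟩ := ih2.2 x y h1 h2
          obtain ⟨x'', y'', h6, h7, h8⟩ := ih1.2 x' y' h3 h4
          exact ⟨x'', y'', h6, h7, h8.trans h5⟩
    exact this.1
  refine ⟨?_, ?_⟩
  · intro hs
    obtain ⟨x', y', h1, h2, h3⟩ := hinv _ _ hs a b hab rfl
    rw [Sym2.eq_iff] at h2
    rcases h2 with ⟨rfl, rfl⟩ | ⟨rfl, rfl⟩
    · exact e1 h3.symm
    · apply e2
      rw [← h3, W_compl hX hab']
  · -- a vertex in all quadrants, and a 2-cell crossing both walls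
    obtain ⟨p, hp, hph, hpk⟩ := hM.quad hX hhS hkS hc hc' e1 e2
    obtain ⟨q, hq, hqh, hqk⟩ := hM.quad hX hhS (hkS.compl hX) hc hc'.compl e2
      (by rw [compl_compl]; exact e1)
    -- an edge of each side crossing `h`
    obtain ⟨p', hp', hp'h, hp'k⟩ := hM.quad hX (hhS.compl hX) hkS hc.compl hc'
      (fun h => e2 (by rw [← h, compl_compl])) (fun h => e1 (compl_injective h))
    obtain ⟨q', hq', hq'h, hq'k⟩ := hM.quad hX (hhS.compl hX) (hkS.compl hX) hc.compl hc'.compl
      (fun h => e1 (compl_injective h)) (fun h => e2 (by rw [compl_compl] at h; rw [← h, compl_compl]))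
    have hconvk : Conv X (W X a' b') := fun x hx y hy z hz => (mem_Itv_iff hX).1 hz _ hkS hx hy
    have hconvk' : Conv X (W X a' b')ᶜ := fun x hx y hy z hz =>
      (mem_Itv_iff' hX).1 hz _ hkS hx hy
    obtain ⟨x, hxk, y, hyk, hxy, hxh, hyh⟩ := exists_edge hX hconvk hhS hpk hp'k hph hp'h
    obtain ⟨u, huk, v, hvk, huv, huh, hvh⟩ := exists_edge hX hconvk' hhS hqk hq'k hqh hq'h
    -- chain of opposite edges
    have chain : ∀ n : ℕ, ∀ x y, X.Adj x y → x ∈ W X a b → y ∉ W X a b → x ∈ W X a' b' →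
        X.dist x u = n → ∃ C, Cell2 X C ∧ Crs (W X a b) C ∧ Crs (W X a' b') C := by
      intro n
      induction n using Nat.strong_induction_on with
      | _ n ih =>
        intro x y hxy hxh hyh hxk hn
        have hW : W X a b = W X x y := hhS.edge hX hxy hxh hyh
        have hne : x ≠ u := by
          rintro rfl
          exact huk hxk
        obtain ⟨C, r, s', hC, c1, c2, c3, c4, c5, c6, -, c8⟩ := hyp_step hX hxy huv
          (by rw [← hW]; exact huh) (by rw [← hW]; exact hvh) hne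
        have hrh : r ∈ W X a b := by rw [hW, ← c6]; exact left_mem_W c5
        have hsh : s' ∉ W X a b := by rw [hW, ← c6]; exact right_not_mem_W
        by_cases hrk : r ∈ W X a' b'
        · exact ih _ (hn ▸ c8) r s' c5 hrh hsh hrk rfl
        · exact ⟨C, hC, ⟨⟨x, c1, hxh⟩, y, c2, hyh⟩, ⟨x, c1, hxk⟩, r, c3, hrk⟩
    obtain ⟨C, hC, hC1, hC2⟩ := chain _ x y hxy hxh hyh hxk rfl
    -- edges of the cycle
    obtain ⟨m, hm, c, hcc, rfl⟩ := hC
    have hedge : ∀ h, HS X h → Crs h (Set.range c) →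
        ∃ i : ZMod (2 * m), (c i ∈ h ∧ c (i + 1) ∉ h) ∨ (c i ∉ h ∧ c (i + 1) ∈ h) := by
      rintro h hh ⟨⟨_, ⟨ja', rfl⟩, ha2⟩, _, ⟨jb', rfl⟩, hb2⟩
      have hconv : Conv X (Set.range c) := hcc.conv
      obtain ⟨x, ⟨i, rfl⟩, y, ⟨j, rfl⟩, hxy, hxh, hyh⟩ :=
        exists_edge hX hconv hh ⟨ja', rfl⟩ ⟨jb', rfl⟩ ha2 hb2
      rw [hcc.adj] at hxy
      rcases hxy with rfl | rfl
      · exact ⟨i, Or.inl ⟨hxh, hyh⟩⟩
      · exact ⟨j, Or.inr ⟨hyh, hxh⟩⟩
    have hsame : ∀ a b, X.Adj a b → ∀ i : ZMod (2 * m),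
        (c i ∈ W X a b ∧ c (i + 1) ∉ W X a b) ∨ (c i ∉ W X a b ∧ c (i + 1) ∈ W X a b) →
        SameHyp X s(a, b) s(c i, c (i + 1)) := by
      intro a b hab i hi
      have hadj : X.Adj (c i) (c (i + 1)) := by
        rw [hcc.adj]
        exact Or.inl rfl
      rcases hi with ⟨h1, h2⟩ | ⟨h1, h2⟩
      · exact (HS_W hab).same hX hab (left_mem_W hab) right_not_mem_W hadj h1 h2
      · rw [Sym2.eq_swap (a := c i)]
        exact (HS_W hab).same hX hab (left_mem_W hab) right_not_mem_W hadj.symm h2 h1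
    obtain ⟨i, hi⟩ := hedge _ hhS hC1
    obtain ⟨j, hj⟩ := hedge _ hkS hC2
    exact ⟨m, c, i, j, hm, hcc, hsame a b hab i hi, hsame a' b' hab' j hj⟩

/-- **Main theorem, triangle-free case.** -/
theorem main_tf (hX : TF X) (ha : Acts X G) (x0 : V) (D : ℕ)
    (hD : ∀ g : G, X.dist x0 (g • x0) ≤ D)
    (hG : ∀ N : Subgroup G, ∀ _ : N.Normal, N.FiniteIndex → Group.IsSolvable (G ⧸ N)) :
    ∃ M : Set V, Monolith X M ∧ M.Finite ∧ ∀ g : G, g • M = M := by
  obtain ⟨z, hz⟩ := exists_finite_orbit hX ha x0 D hD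
  obtain ⟨Y, hYf, hYc, hzY, hYG⟩ := exists_hull hX ha z hz
  have hsm : ∀ (g : G) (y : V), y ∈ Y → g • y ∈ Y := by
    intro g y hy
    have := Set.smul_mem_smul_set (a := g) hy
    rwa [hYG] at this
  let Ys : SubMulAction G V := { carrier := Y, smul_mem' := fun g y hy => hsm g y hy }
  have : Finite Ys := hYf
  let φ : G →* Equiv.Perm Ys := MulAction.toPermHom G Ys
  have : Finite φ.range := inferInstance
  have hfi : φ.ker.FiniteIndex := Subgroup.finiteIndex_ker φ
  have : Finite (G ⧸ φ.ker) := Subgroup.finite_quotient_of_finiteIndex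
  have : Group.IsSolvable (G ⧸ φ.ker) := hG φ.ker inferInstance hfi
  obtain ⟨M, h1, h2, h3⟩ := stable_of_solvable hX ha hYf hYc ⟨z, hzY⟩ hYG
    (QuotientGroup.mk' φ.ker) (QuotientGroup.mk'_surjective _) (by
      intro g hg y hy
      rw [QuotientGroup.mk'_apply, QuotientGroup.eq_one_iff, MonoidHom.mem_ker] at hg
      have := congrArg (fun e : Equiv.Perm Ys => (e ⟨y, hy⟩ : V)) hg
      exact this)
  exact ⟨M, h1.monolith hX, hYf.subset h2, h3⟩

end Pool.Agent.Med7a
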