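import Pool.Agent.Lib.MP_7af17a_al.Collapse2
import Pool.Agent.Lib.MP_7af17a_al.Orbit2

/-!
# Stable monoliths when there are no chains of four monoliths stable under a normal subgroup
-/

set_option autoImplicit false

namespace Pool.Agent.Med7a

open Pointwise

variable {V : Type*} {X : SimpleGraph V}

variable {G : Type*} [Group G] [MulAction G V]

/-- The poset of cells in `Y` stable under `N`, if it has no chains of four elements, carries the data
needed for equivariant collapses. -/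
theorem data_cells (hX : TF X) (ha : Acts X G) {Y : Set V} (hYf : Y.Finite) (hYc : Conv X Y)
    (N : Subgroup G) (hne : (QN X Y N).Nonempty)
    (h4 : ∀ a b c d : QN X Y N, a < b → b < c → c < d → False) :
    ∃ (t : QN X Y N → QN X Y N) (o : QN X Y N) (D : QN X Y N → ℕ), Collapse.Data t o D := by
  obtain ⟨O, hO, hOmin⟩ := (QN_finite hYf N).exists_minimal hne
  have hmin : ∀ M ∈ QN X Y N, M ⊆ O → M = O := fun M hM hMO =>
    Set.Subset.antisymm hMO (hOmin hM hMO)
  -- all stable cells are crossed by the walls of `O`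
  have hwalls : ∀ M ∈ QN X Y N, ∀ h, HS X h → Crs h O → Crs h M := by
    intro M hM h hh hc
    have h1 : proj X O M ∈ QN X Y N := by
      refine ⟨hO.1.proj hX hM.1, proj_sub.trans hO.2.1, fun g hg => ?_⟩
      rw [ha.proj hX g, hO.2.2 g hg, hM.2.2 g hg]
    have h2 := hmin _ h1 proj_sub
    rw [← h2] at hc
    exact (crs_of_proj hX hh hc).2
  have htp : ∀ M ∈ QN X Y N, tp X O M ∈ QN X Y N := by
    intro M hM
    refine ⟨cell_tp hX hO.1 hM.1 (hwalls M hM), (topC_tp hX hO.1 hM.1 (hwalls M hM)).1.trans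
      hM.2.1, fun g hg => ?_⟩
    rw [ha.tp hX g, hO.2.2 g hg, hM.2.2 g hg]
  let t : QN X Y N → QN X Y N := fun M => ⟨tp X O M.1, htp M.1 M.2⟩
  have key : ∀ (Z : Set V) (B : QN X Y N), Conv X Z → B.1 ⊆ Z →
      (∀ h, HS X h → (Crs h B.1 ↔ Crs h O)) →
      (∀ M' ∈ QN X Y N, M' ⊆ Z → ∀ T, TopC X O M' T ↔ TopC X B.1 M' T) →
      GoodSet t (fun a => a.1 ⊆ Z) B := by
    intro Z B hZ hBZ hBw hrel
    refine ⟨hBZ, ?_, ?_, ?_, ?_⟩
    · intro b hb
      apply Subtype.ext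
      exact eq_of_walls hX b.2.1.gated b.2.1.ne hb
        (fun k hk hc => hwalls b.1 b.2 k hk ((hBw k hk).1 hc))
    · apply Subtype.ext
      show tp X O B.1 = B.1
      refine (topC_unique hX hO.1 B.2.1 (hwalls B.1 B.2) B.2.1 hBw ?_).symm
      rw [hrel B.1 B.2 hBZ]
      exact ⟨subset_rfl, fun h _ h1 h2 => absurd h1 h2⟩
    · intro a haZ hta
      have hta' : tp X O a.1 = B.1 := congrArg Subtype.val hta
      apply Subtype.ext
      have h1 := topC_tp hX hO.1 a.2.1 (hwalls a.1 a.2)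
      rw [hta', hrel a.1 a.2 haZ] at h1
      refine (eq_of_walls hX B.2.1.gated B.2.1.ne h1.1 ?_).symm
      intro k hk hc
      by_contra hnc
      obtain ⟨x, hx⟩ := B.2.1.ne
      have := h1.2 k hk hc hnc x hx x hx
      tauto
    · intro a haZ hta
      have hTmem := htp a.1 a.2
      have hTw : ∀ h, HS X h → (Crs h (tp X O a.1) ↔ Crs h B.1) := by
        intro h hh
        rw [crs_tp hX hO.1 a.2.1 (hwalls a.1 a.2) hh, hBw h hh]
      have hTB : tp X O a.1 ≠ B.1 := fun h => hta (Subtype.ext h)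
      have hTa : tp X O a.1 ⊆ a.1 := (topC_tp hX hO.1 a.2.1 (hwalls a.1 a.2)).1
      obtain ⟨M, hM1, hM2, hM3, hM4, hM5⟩ := exists_max hX B.2.1 hTmem.1 hTw hTB
      have hMmem : M ∈ QN X Y N := by
        refine ⟨hM1, hM5 Y hYc (hTa.trans a.2.2.1) B.2.2.1, ?_⟩
        have hsub : ∀ g ∈ N, g • M ⊆ M := by
          intro g hg
          apply hM4 _ (ha.cell hX g hM1)
          have := ha.topC hX g hM2
          rwa [B.2.2.2 g hg, hTmem.2.2 g hg] at this
        intro g hg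
        apply Set.Subset.antisymm (hsub g hg)
        have := Set.smul_set_mono (a := g) (hsub g⁻¹ (N.inv_mem hg))
        rwa [smul_inv_smul] at this
      have hMZ : M ⊆ Z := hM5 Z hZ (hTa.trans haZ) hBZ
      have htM : tp X O M = tp X O a.1 := by
        refine (topC_unique hX hO.1 hM1 (hwalls M hMmem) hTmem.1 ?_ ?_).symm
        · intro h hh
          exact crs_tp hX hO.1 a.2.1 (hwalls a.1 a.2) hh
        · rw [hrel M hMmem hMZ]
          exact hM2
      refine ⟨⟨M, hMmem⟩, hMZ, Subtype.ext htM, fun h => hM3 (congrArg Subtype.val h), ?_⟩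
      intro a' ha'Z hta'
      apply hM4 a'.1 a'.2.1
      rw [← hrel a'.1 a'.2 ha'Z]
      have h1 := topC_tp hX hO.1 a'.2.1 (hwalls a'.1 a'.2)
      have h2 : tp X O a'.1 = tp X O a.1 := congrArg Subtype.val hta'
      rwa [h2] at h1
  -- the halfspaces separating `O` from a stable cell
  let S : QN X Y N → Set (Set V) := fun z => {h | HS X h ∧ O ⊆ h ∧ Disjoint z.1 h}
  have hSfin : ∀ z : QN X Y N, (S z).Finite := by
    intro z
    obtain ⟨u, hu⟩ := hO.1.ne
    obtain ⟨v, hv⟩ := z.2.1.ne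
    refine (sep_finite hX u v).subset ?_
    rintro h ⟨h1, h2, h3⟩
    exact ⟨h1, h2 hu, fun h5 => Set.disjoint_left.1 h3 hv h5⟩
  refine ⟨t, ⟨O, hO⟩, fun z => (S z).ncard, h4, ?_, ?_, ?_, ?_, ?_⟩
  · intro a
    exact (topC_tp hX hO.1 a.2.1 (hwalls a.1 a.2)).1
  · intro a x hx
    apply Subtype.ext
    refine eq_of_walls hX x.2.1.gated x.2.1.ne hx fun k hk hc => ?_
    exact hwalls x.1 x.2 k hk ((crs_tp hX hO.1 a.2.1 (hwalls a.1 a.2) hk).1 hc)
  · intro b x hxb hxmin hxt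
    have htop := topC_tp hX hO.1 b.2.1 (hwalls b.1 b.2)
    -- the walls of `x` are those of `O`
    have hxw : ∀ h, HS X h → (Crs h x.1 ↔ Crs h O) := by
      have h1 : proj X x.1 O ∈ QN X Y N := by
        refine ⟨x.2.1.proj hX hO.1, proj_sub.trans x.2.2.1, fun g hg => ?_⟩
        rw [ha.proj hX g, hO.2.2 g hg, x.2.2.2 g hg]
      have h2 := congrArg Subtype.val (hxmin ⟨_, h1⟩ proj_sub)
      simp only at h2
      intro h hh
      refine ⟨fun hc => ?_, hwalls x.1 x.2 h hh⟩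
      rw [← h2] at hc
      exact (crs_of_proj hX hh hc).2
    have hyw : ∀ h, HS X h → (Crs h (tp X O b.1) ↔ Crs h O) := fun h hh =>
      crs_tp hX hO.1 b.2.1 (hwalls b.1 b.2) hh
    have hcrsO : ∀ h, O ⊆ h → ¬ Crs h O := by
      rintro h h1 ⟨-, v, hv, hv'⟩
      exact hv' (h1 hv)
    obtain ⟨u, hu⟩ := hO.1.ne
    obtain ⟨w, hw⟩ := x.2.1.ne
    -- separating walls of `b` lie in `S (t b)`
    have hSy : ∀ h, HS X h → Crs h b.1 → O ⊆ h → h ∈ S (t b) := by
      intro h hh hc h1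
      refine ⟨hh, h1, Set.disjoint_left.2 fun z hz hzh => ?_⟩
      exact (htop.2 h hh hc (fun h2 => hcrsO h h1 ((hyw h hh).1 h2)) u hu z hz).1 hzh (h1 hu)
    have hsub : S x ⊆ S (t b) := by
      rintro h ⟨h1, h2, h3⟩
      by_cases hc : Crs h b.1
      · exact hSy h h1 hc h2
      · refine ⟨h1, h2, Set.disjoint_left.2 fun z hz hzh => ?_⟩
        have e1 := (not_crs hc (htop.1 hz) (hxb hw)).1 hzh
        exact Set.disjoint_left.1 h3 hw e1
    refine Set.ncard_lt_ncard ⟨hsub, fun hsub' => hxt ?_⟩ (hSfin _)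
    apply Subtype.ext
    show x.1 = tp X O b.1
    refine topC_unique hX hO.1 b.2.1 (hwalls b.1 b.2) x.2.1 hxw ⟨hxb, ?_⟩
    intro h hh hc hnc u' hu' z hz
    have hncO : ¬ Crs h O := fun h1 => hnc ((hxw h hh).2 h1)
    by_cases huh : u' ∈ h
    · have hOh : O ⊆ h := fun v hv => (not_crs hncO hu' hv).1 huh
      have h1 := hsub' (hSy h hh hc hOh)
      exact ⟨fun h2 => absurd h2 (Set.disjoint_left.1 h1.2.2 hz), fun h2 => absurd huh h2⟩
    · have hOh : O ⊆ hᶜ := fun v hv h1 => huh ((not_crs hncO hu' hv).2 h1)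
      have h1 := hsub' (hSy hᶜ (hh.compl hX) hc.compl hOh)
      refine ⟨fun _ => huh, fun _ => ?_⟩
      by_contra h2
      exact Set.disjoint_left.1 h1.2.2 hz h2
  · intro a
    have hB : proj X a.1 O ∈ QN X Y N := by
      refine ⟨a.2.1.proj hX hO.1, proj_sub.trans a.2.2.1, fun g hg => ?_⟩
      rw [ha.proj hX g, hO.2.2 g hg, a.2.2.2 g hg]
    refine ⟨⟨_, hB⟩, key a.1 ⟨_, hB⟩ (a.2.1.gated.conv hX) proj_sub ?_ ?_⟩
    · intro h hh
      exact ⟨fun hc => (crs_of_proj hX hh hc).2, fun hc =>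
        crs_proj hX a.2.1.gated hh (hwalls a.1 a.2 h hh hc) hc⟩
    · intro M' hM' hM'a T
      have aux : ∀ h, HS X h → Crs h M' → ∀ z : V,
          (∀ x ∈ O, (z ∈ h ↔ x ∉ h)) ↔ (∀ x ∈ proj X a.1 O, (z ∈ h ↔ x ∉ h)) := by
        intro h hh hc z
        have hca := hc.mono hM'a
        constructor
        · rintro h1 x' ⟨x, hx, hgx⟩
          rw [h1 x hx, ((isGate_iff hX).1 hgx).2 h hh hca]
        · intro h1 x hx
          obtain ⟨g, hg1, hg2⟩ := a.2.1.gated x
          rw [h1 g ⟨x, hx, hg1, hg2⟩, ((isGate_iff hX).1 ⟨hg1, hg2⟩).2 h hh hca]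
      constructor
      · rintro ⟨h1, h2⟩
        refine ⟨h1, fun h hh hc hnc x hx z hz => ?_⟩
        exact (aux h hh hc z).1 (fun x hx => h2 h hh hc hnc x hx z hz) x hx
      · rintro ⟨h1, h2⟩
        refine ⟨h1, fun h hh hc hnc x hx z hz => ?_⟩
        exact (aux h hh hc z).2 (fun x hx => h2 h hh hc hnc x hx z hz) x hx
  · have h1 := key Y ⟨O, hO⟩ hYc hO.2.1 (fun _ _ => Iff.rfl) (fun _ _ _ _ => Iff.rfl)
    have h2 : (fun a : QN X Y N => a.1 ⊆ Y) = fun _ => True := by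
      funext a
      simp only [eq_iff_iff, iff_true]
      exact a.2.2.1
    rwa [h2] at h1

/-- If the normal subgroup `N` stabilises a cell in the finite convex invariant set `Y` and there are
no chains of four `N`-stable cells in `Y`, then the whole group stabilises a cell in `Y`. -/
theorem stable_of_chain (hX : TF X) (ha : Acts X G) {Y : Set V} (hYf : Y.Finite) (hYc : Conv X Y)
    (hYG : ∀ g : G, g • Y = Y) (N : Subgroup G) (hN : N.Normal) (hne : (QN X Y N).Nonempty)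
    (h4 : ∀ a b c d : QN X Y N, a < b → b < c → c < d → False) :
    ∃ M, Cell X M ∧ M ⊆ Y ∧ ∀ g : G, g • M = M := by
  obtain ⟨t, O, D, hdata⟩ := data_cells hX ha hYf hYc N hne h4
  have : Fintype (QN X Y N) := (QN_finite hYf N).fintype
  have hmem : ∀ (g : G) (M : QN X Y N), g • M.1 ∈ QN X Y N := by
    intro g M
    refine ⟨ha.cell hX _ M.2.1, (Set.smul_set_mono M.2.2.1).trans (hYG g).subset, fun n hn => ?_⟩
    rw [← mul_smul]
    have e1 : n * g = g * (g⁻¹ * n * g) := by group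
    rw [e1, mul_smul]
    congr 1
    apply M.2.2.2
    have := hN.conj_mem n hn g⁻¹
    rwa [inv_inv] at this
  let act : MulAction G (QN X Y N) :=
    { smul := fun g M => ⟨g • M.1, hmem g M⟩
      one_smul := fun M => Subtype.ext (one_smul G M.1)
      mul_smul := fun g g' M => Subtype.ext (mul_smul g g' M.1) }
  obtain ⟨M, hM⟩ := hdata.fixed (G := G) (fun g a b hab => by
    show g • a.1 ⊆ g • b.1
    exact Set.smul_set_mono hab)
  exact ⟨M.1, M.2.1, M.2.2.1, fun g => congrArg Subtype.val (hM g)⟩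

/-- **Main theorem of this file.** -/
theorem main_chain (hX : TF X) (ha : Acts X G) (x0 : V) (D : ℕ)
    (hD : ∀ g : G, X.dist x0 (g • x0) ≤ D) (N : Subgroup G) (hN : N.Normal)
    (hNs : ∀ K : Subgroup N, ∀ _ : K.Normal, K.FiniteIndex → Group.IsSolvable (N ⧸ K))
    (h4 : ∀ M₀ M₁ M₂ M₃ : Set V, Monolith X M₀ → Monolith X M₁ → Monolith X M₂ → Monolith X M₃ →
      (∀ g ∈ N, g • M₀ = M₀) → (∀ g ∈ N, g • M₁ = M₁) → (∀ g ∈ N, g • M₂ = M₂) →
      (∀ g ∈ N, g • M₃ = M₃) → M₀ ⊂ M₁ → M₁ ⊂ M₂ → M₂ ⊂ M₃ → False) :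
    ∃ M : Set V, Monolith X M ∧ M.Finite ∧ ∀ g : G, g • M = M := by
  obtain ⟨z, hz⟩ := exists_finite_orbit hX ha x0 D hD
  obtain ⟨Y, hYf, hYc, hzY, hYG⟩ := exists_hull hX ha z hz
  have hsm : ∀ (g : G) (y : V), y ∈ Y → g • y ∈ Y := by
    intro g y hy
    have := Set.smul_mem_smul_set (a := g) hy
    rwa [hYG] at this
  let Ys : SubMulAction N V := { carrier := Y, smul_mem' := fun g y hy => hsm g.1 y hy }
  have : Finite Ys := hYf
  let φ : N →* Equiv.Perm Ys := MulAction.toPermHom N Ys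
  have : Finite φ.range := inferInstance
  have hfi : φ.ker.FiniteIndex := Subgroup.finiteIndex_ker φ
  have : Finite (N ⧸ φ.ker) := Subgroup.finite_quotient_of_finiteIndex
  have : Group.IsSolvable (N ⧸ φ.ker) := hNs φ.ker inferInstance hfi
  have haN : Acts X N := fun g x y => ha g.1 x y
  obtain ⟨M, h1, h2, h3⟩ := stable_of_solvable hX haN hYf hYc ⟨z, hzY⟩ (fun g => hYG g.1)
    (QuotientGroup.mk' φ.ker) (QuotientGroup.mk'_surjective _) (by
      intro g hg y hy
      rw [QuotientGroup.mk'_apply, QuotientGroup.eq_one_iff, MonoidHom.mem_ker] at hg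
      have := congrArg (fun e : Equiv.Perm Ys => (e ⟨y, hy⟩ : V)) hg
      exact this)
  obtain ⟨M', k1, k2, k3⟩ := stable_of_chain hX ha hYf hYc hYG N hN
    ⟨M, h1, h2, fun g hg => h3 ⟨g, hg⟩⟩ (fun a b c d hab hbc hcd =>
      h4 a.1 b.1 c.1 d.1 (a.2.1.monolith hX) (b.2.1.monolith hX) (c.2.1.monolith hX)
        (d.2.1.monolith hX) a.2.2.2 b.2.2.2 c.2.2.2 d.2.2.2 hab hbc hcd)
  exact ⟨M', k1.monolith hX, hYf.subset k2, k3⟩

end Pool.Agent.Med7a
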