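import Pool.Agent.Lib.MP_7af17a_al.Good

/-!
# Stable cells
-/

namespace Pool.Agent.Med7a

open Pointwise

variable {V : Type*} {X : SimpleGraph V}

/-! ### Projections -/

/-- the projection of `O` to `M` -/
def proj (X : SimpleGraph V) (M O : Set V) : Set V := {g | ∃ x ∈ O, IsGate X M x g}

theorem proj_sub {M O : Set V} : proj X M O ⊆ M := by
  rintro g ⟨x, -, hg⟩
  exact hg.1

theorem crs_of_proj (hX : TF X) {M O h : Set V} (hh : HS X h) (hc : Crs h (proj X M O)) :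
    Crs h M ∧ Crs h O := by
  have hcM := hc.mono proj_sub
  obtain ⟨⟨a, ⟨x, hx, ha⟩, ha'⟩, b, ⟨y, hy, hb⟩, hb'⟩ := hc
  refine ⟨hcM, ⟨x, hx, ?_⟩, y, hy, ?_⟩
  · exact (((isGate_iff hX).1 ha).2 h hh hcM).2 ha'
  · exact fun h1 => hb' ((((isGate_iff hX).1 hb).2 h hh hcM).1 h1)

theorem crs_proj (hX : TF X) {M O h : Set V} (hM : Gated X M) (hh : HS X h) (hc : Crs h M)
    (hc' : Crs h O) : Crs h (proj X M O) := by
  obtain ⟨⟨a, ha, ha'⟩, b, hb, hb'⟩ := hc'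
  obtain ⟨ga, h1, h2⟩ := hM a
  obtain ⟨gb, h3, h4⟩ := hM b
  refine ⟨⟨ga, ⟨a, ha, h1, h2⟩, ?_⟩, gb, ⟨b, hb, h3, h4⟩, ?_⟩
  · exact (((isGate_iff hX).1 ⟨h1, h2⟩).2 h hh hc).1 ha'
  · exact fun h5 => hb' ((((isGate_iff hX).1 ⟨h3, h4⟩).2 h hh hc).2 h5)

theorem Cell.proj (hX : TF X) {M O : Set V} (hM : Cell X M) (hO : Cell X O) :
    Cell X (proj X M O) := by
  refine ⟨?_, ?_, ?_⟩
  · obtain ⟨x, hx⟩ := hO.ne
    obtain ⟨g, h1, h2⟩ := hM.gated x
    exact ⟨g, x, hx, h1, h2⟩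
  · rw [gated_iff hX]
    intro z
    obtain ⟨a, a1, a2⟩ := (gated_iff hX).1 hM.gated z
    obtain ⟨b, b1, b2⟩ := (gated_iff hX).1 hO.gated a
    obtain ⟨c, c1, c2⟩ := (gated_iff hX).1 hM.gated b
    refine ⟨c, ⟨b, b1, (isGate_iff hX).2 ⟨c1, c2⟩⟩, fun h hh hc => ?_⟩
    obtain ⟨e1, e2⟩ := crs_of_proj hX hh hc
    rw [a2 h hh e1, b2 h hh e2, c2 h hh e1]
  · rintro f ⟨x, hx, hf⟩
    obtain ⟨x', hx', hx2⟩ := hO.anti x hx
    obtain ⟨f', f1, f2⟩ := hM.gated x'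
    refine ⟨f', ⟨x', hx', f1, f2⟩, fun h hh hc => ?_⟩
    obtain ⟨e1, e2⟩ := crs_of_proj hX hh hc
    rw [← ((isGate_iff hX).1 hf).2 h hh e1, ← ((isGate_iff hX).1 ⟨f1, f2⟩).2 h hh e1]
    exact hx2 h hh e2

/-- nested gated sets crossed by the same walls are equal -/
theorem eq_of_walls (hX : TF X) {S T : Set V} (hT : Gated X T) (hne : T.Nonempty) (hsub : T ⊆ S)
    (h : ∀ k, HS X k → Crs k S → Crs k T) : T = S := by
  obtain ⟨x, hx⟩ := hne
  refine Set.Subset.antisymm hsub (fun z hz => ?_)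
  apply mem_of_same hX hT hx
  intro k hk hc
  exact not_crs (fun h1 => hc (h k hk h1)) hz (hsub hx)

/-! ### The top of a cell with respect to a base cell -/

/-- `T ⊆ M`, and every wall of `M` not crossing `T` separates `T` from `O`. -/
def TopC (X : SimpleGraph V) (O M T : Set V) : Prop :=
  T ⊆ M ∧ ∀ h, HS X h → Crs h M → ¬ Crs h T → ∀ x ∈ O, ∀ z ∈ T, (z ∈ h ↔ x ∉ h)

/-- the top of `M` -/
def tp (X : SimpleGraph V) (O M : Set V) : Set V :=
  {z | z ∈ M ∧ ∀ h, HS X h → Crs h M → ¬ Crs h O → ∀ x ∈ O, (z ∈ h ↔ x ∉ h)}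

section top

variable {O M : Set V}

theorem tp_aux (hX : TF X) (_hO : Cell X O) (hM : Cell X M)
    (_hw : ∀ h, HS X h → Crs h O → Crs h M) {x : V} (hx : x ∈ O) :
    ∃ t ∈ tp X O M, ∀ h, HS X h → Crs h O → (t ∈ h ↔ x ∉ h) := by
  obtain ⟨f, f1, f2⟩ := hM.gated x
  have hf := ((isGate_iff hX).1 ⟨f1, f2⟩).2
  obtain ⟨t, t1, t2⟩ := hM.anti f f1
  refine ⟨t, ⟨t1, fun h hh hc hnc x' hx' => ?_⟩, fun h hh hc => ?_⟩
  · rw [not_crs hnc hx' hx, hf h hh hc]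
    have := t2 h hh hc
    tauto
  · have := t2 h hh (_hw h hh hc)
    rw [hf h hh (_hw h hh hc)]
    tauto

theorem crs_tp (hX : TF X) (hO : Cell X O) (hM : Cell X M)
    (hw : ∀ h, HS X h → Crs h O → Crs h M) {h : Set V} (hh : HS X h) :
    Crs h (tp X O M) ↔ Crs h O := by
  constructor
  · intro hc
    have hcM : Crs h M := hc.mono fun z hz => hz.1
    obtain ⟨⟨a, ha, ha'⟩, b, hb, hb'⟩ := hc
    by_contra hn
    obtain ⟨x, hx⟩ := hO.ne
    have h1 := ha.2 h hh hcM hn x hx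
    have h2 := hb.2 h hh hcM hn x hx
    tauto
  · rintro hc
    obtain ⟨⟨a, ha, ha'⟩, b, hb, hb'⟩ := hc
    obtain ⟨ta, ta1, ta2⟩ := tp_aux hX hO hM hw ha
    obtain ⟨tb, tb1, tb2⟩ := tp_aux hX hO hM hw hb
    have hc : Crs h O := ⟨⟨a, ha, ha'⟩, b, hb, hb'⟩
    refine ⟨⟨tb, tb1, (tb2 h hh hc).2 hb'⟩, ta, ta1, fun h1 => (ta2 h hh hc).1 h1 ha'⟩

theorem cell_tp (hX : TF X) (hO : Cell X O) (hM : Cell X M)
    (hw : ∀ h, HS X h → Crs h O → Crs h M) : Cell X (tp X O M) := by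
  refine ⟨?_, ?_, ?_⟩
  · obtain ⟨x, hx⟩ := hO.ne
    obtain ⟨t, ht, -⟩ := tp_aux hX hO hM hw hx
    exact ⟨t, ht⟩
  · rw [gated_iff hX]
    intro w
    obtain ⟨u, u1, u2⟩ := (gated_iff hX).1 hM.gated w
    obtain ⟨u', u3, u4⟩ := hM.anti u u1
    obtain ⟨x, x1, x2⟩ := (gated_iff hX).1 hO.gated u'
    obtain ⟨t, t1, t2⟩ := tp_aux hX hO hM hw x1
    refine ⟨t, t1, fun h hh hc => ?_⟩
    have hc' := (crs_tp hX hO hM hw hh).1 hc
    have hcM := hw h hh hc'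
    rw [u2 h hh hcM, t2 h hh hc', ← x2 h hh hc', u4 h hh hcM]
  · intro z hz
    obtain ⟨x, x1, x2⟩ := (gated_iff hX).1 hO.gated z
    obtain ⟨t, t1, t2⟩ := tp_aux hX hO hM hw x1
    refine ⟨t, t1, fun h hh hc => ?_⟩
    have hc' := (crs_tp hX hO hM hw hh).1 hc
    rw [x2 h hh hc', t2 h hh hc', not_not]

theorem topC_tp (hX : TF X) (hO : Cell X O) (hM : Cell X M)
    (hw : ∀ h, HS X h → Crs h O → Crs h M) : TopC X O M (tp X O M) := by
  refine ⟨fun z hz => hz.1, fun h hh hc hnc x hx z hz => ?_⟩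
  rw [crs_tp hX hO hM hw hh] at hnc
  exact hz.2 h hh hc hnc x hx

theorem topC_unique (hX : TF X) (hO : Cell X O) (hM : Cell X M)
    (hw : ∀ h, HS X h → Crs h O → Crs h M) {T : Set V} (hT : Cell X T)
    (hTO : ∀ h, HS X h → (Crs h T ↔ Crs h O)) (ht : TopC X O M T) : T = tp X O M := by
  apply eq_of_walls hX hT.gated hT.ne
  · intro z hz
    exact ⟨ht.1 hz, fun h hh hc hnc x hx =>
      ht.2 h hh hc (fun h1 => hnc ((hTO h hh).1 h1)) x hx z hz⟩
  · intro k hk hc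
    exact (hTO k hk).2 ((crs_tp hX hO hM hw hk).1 hc)

/-- the maximal cell with top `T` -/
theorem exists_max (hX : TF X) (hO : Cell X O) {T : Set V} (hT : Cell X T)
    (hTO : ∀ h, HS X h → (Crs h T ↔ Crs h O)) (hne : T ≠ O) :
    ∃ M, Cell X M ∧ TopC X O M T ∧ M ≠ T ∧ (∀ M', Cell X M' → TopC X O M' T → M' ⊆ M) ∧
      ∀ Z, Conv X Z → T ⊆ Z → O ⊆ Z → M ⊆ Z := by
  obtain ⟨x, hx⟩ := hT.ne
  obtain ⟨x0, hx0, hx02⟩ := (gated_iff hX).1 hO.gated x
  obtain ⟨w, hw, hw2⟩ := hO.anti x0 hx0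
  obtain ⟨b, hbI, hgood, hb⟩ := exists_good hX x w
  have hM := hgood.cell hX
  have hxM := left_mem_Itv (X := X) x b
  -- walls crossing the cell separate `x` and `w`
  have hsep : ∀ h, HS X h → Crs h (Itv X x b) → (x ∈ h ↔ w ∉ h) := by
    intro h hh hc
    have h1 := (crs_itv hX hh).1 hc
    have h2 := (mem_Itv_iff hX).1 hbI h hh
    have h3 := (mem_Itv_iff' hX).1 hbI h hh
    tauto
  -- neighbours of `x` across descents
  have hnb : ∀ y, X.Adj x y → w ∉ W X x y → y ∈ Itv X x b := by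
    intro y hxy hwy
    have h1 := hb _ (HS_W hxy) (left_mem_W hxy) hwy ⟨y, hxy, right_not_mem_W⟩
    rw [mem_Itv_iff hX]
    intro k hk hk1 hk2
    by_contra h3
    rw [hk.edge hX hxy hk1 h3] at hk2
    exact h1 hk2
  have hTM : T ⊆ Itv X x b := by
    apply hT.sub hX hM.gated hx hxM
    intro y hy hxy
    apply hnb y hxy
    have hc : Crs (W X x y) T := ⟨⟨x, hx, left_mem_W hxy⟩, y, hy, right_not_mem_W⟩
    have hc' := (hTO _ (HS_W hxy)).1 hc
    have h1 := (hx02 _ (HS_W hxy) hc').1 (left_mem_W hxy)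
    exact (hw2 _ (HS_W hxy) hc').1 h1
  refine ⟨_, hM, ⟨hTM, ?_⟩, ?_, ?_, ?_⟩
  · intro h hh hc hnc x1 hx1 z hz
    rw [not_crs hnc hz hx, hsep h hh hc]
    have : ¬ Crs h O := fun h1 => hnc ((hTO h hh).2 h1)
    rw [not_crs this hw hx1]
  · -- the cell is larger than `T`
    intro heq
    have hxx0 : x ≠ x0 := by
      rintro rfl
      apply hne
      have hsub : T ⊆ O := by
        intro z hz
        apply mem_of_same hX hO.gated hx0
        intro k hk hc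
        exact not_crs (fun h1 => hc ((hTO k hk).1 h1)) hz hx
      exact eq_of_walls hX hT.gated hT.ne hsub (fun k hk hc => (hTO k hk).2 hc)
    obtain ⟨y, hxy, hy, -, -⟩ := step_toward hX hxx0
    have hnc : ¬ Crs (W X x y) O := fun hc => hy ((hx02 _ (HS_W hxy) hc).1 (left_mem_W hxy))
    have hwy : w ∉ W X x y := fun h1 => hy ((not_crs hnc hw hx0).1 h1)
    have h1 := hnb y hxy hwy
    rw [heq] at h1
    exact hnc ((hTO _ (HS_W hxy)).1 ⟨⟨x, hx, left_mem_W hxy⟩, y, h1, right_not_mem_W⟩)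
  · intro M' hM' ht
    apply hM'.sub hX hM.gated (ht.1 hx) hxM
    intro y hy hxy
    apply hnb y hxy
    have hc : Crs (W X x y) M' := ⟨⟨x, ht.1 hx, left_mem_W hxy⟩, y, hy, right_not_mem_W⟩
    by_cases hcT : Crs (W X x y) T
    · have hc' := (hTO _ (HS_W hxy)).1 hcT
      have h1 := (hx02 _ (HS_W hxy) hc').1 (left_mem_W hxy)
      exact (hw2 _ (HS_W hxy) hc').1 h1
    · exact (ht.2 _ (HS_W hxy) hc hcT w hw x hx).1 (left_mem_W hxy)
  · intro Z hZ hTZ hOZ z hz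
    apply hZ x (hTZ hx) w (hOZ hw)
    rw [mem_Itv_iff hX] at hz hbI ⊢
    intro k hk h1 h2
    exact hz k hk h1 (hbI k hk h1 h2)

end top

/-! ### Group actions -/

variable {G : Type*} [Group G] [MulAction G V]

/-- `G` acts by graph automorphisms -/
def Acts (X : SimpleGraph V) (G : Type*) [Group G] [MulAction G V] : Prop :=
  ∀ (g : G) (x y : V), X.Adj (g • x) (g • y) ↔ X.Adj x y

theorem Acts.dist_le (hX : TF X) (ha : Acts X G) (g : G) (x y : V) :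
    X.dist (g • x) (g • y) ≤ X.dist x y := by
  have hcon := hX.med.connected
  suffices H : ∀ n : ℕ, ∀ x, X.dist x y = n → X.dist (g • x) (g • y) ≤ n from H _ x rfl
  intro n
  induction n with
  | zero =>
    intro x h
    rw [(hcon.dist_eq_zero_iff).1 h]
    simp
  | succ n ih =>
    intro x h
    obtain ⟨z, h1, h2⟩ := exists_step hcon h
    have h3 := ih z h2
    have h4 := hcon.dist_triangle (u := g • x) (v := g • z) (w := g • y)
    rw [dist_adj ((ha g x z).2 h1)] at h4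
    omega

theorem Acts.dist (hX : TF X) (ha : Acts X G) (g : G) (x y : V) :
    X.dist (g • x) (g • y) = X.dist x y := by
  apply le_antisymm (ha.dist_le hX g x y)
  have := ha.dist_le hX g⁻¹ (g • x) (g • y)
  rwa [inv_smul_smul, inv_smul_smul] at this

theorem Acts.W (hX : TF X) (ha : Acts X G) (g : G) (x y : V) :
    g • W X x y = W X (g • x) (g • y) := by
  ext z
  rw [Set.mem_smul_set_iff_inv_smul_mem, mem_W, mem_W]
  have h1 := ha.dist hX g (g⁻¹ • z) x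
  have h2 := ha.dist hX g (g⁻¹ • z) y
  rw [smul_inv_smul] at h1 h2
  rw [h1, h2]

theorem Acts.HS (hX : TF X) (ha : Acts X G) (g : G) {h : Set V} (hh : HS X h) :
    HS X (g • h) := by
  obtain ⟨x, y, hxy, rfl⟩ := hh
  exact ⟨g • x, g • y, (ha g x y).2 hxy, ha.W hX g x y⟩

theorem crs_smul (g : G) {h M : Set V} : Crs (g • h) (g • M) ↔ Crs h M := by
  constructor
  · rintro ⟨⟨a, ha, ha'⟩, b, hb, hb'⟩
    rw [Set.mem_smul_set_iff_inv_smul_mem] at ha ha' hb hb'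
    exact ⟨⟨_, ha, ha'⟩, _, hb, hb'⟩
  · rintro ⟨⟨a, ha, ha'⟩, b, hb, hb'⟩
    exact ⟨⟨g • a, Set.smul_mem_smul_set ha, Set.smul_mem_smul_set ha'⟩, g • b,
      Set.smul_mem_smul_set hb, fun h => hb' (Set.smul_mem_smul_set_iff.1 h)⟩

theorem Acts.crs (hX : TF X) (_ha : Acts X G) (g : G) {h M : Set V} :
    Crs h (g • M) ↔ Crs (g⁻¹ • h) M := by
  have := crs_smul g (h := g⁻¹ • h) (M := M)
  rwa [smul_inv_smul] at this

theorem Acts.itv (hX : TF X) (ha : Acts X G) (g : G) {x y z : V} :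
    g • z ∈ Itv X (g • x) (g • y) ↔ z ∈ Itv X x y := by
  show X.dist _ _ = _ ↔ X.dist _ _ = _
  rw [ha.dist hX, ha.dist hX, ha.dist hX]

theorem Acts.cell (hX : TF X) (ha : Acts X G) (g : G) {M : Set V} (hM : Cell X M) :
    Cell X (g • M) := by
  refine ⟨hM.ne.smul_set, ?_, ?_⟩
  · intro x
    obtain ⟨y, h1, h2⟩ := hM.gated (g⁻¹ • x)
    refine ⟨g • y, Set.smul_mem_smul_set h1, ?_⟩
    rintro z ⟨z, hz, rfl⟩
    have := (ha.itv hX g).2 (h2 z hz)
    rwa [smul_inv_smul] at this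
  · rintro x ⟨x, hx, rfl⟩
    obtain ⟨x', h1, h2⟩ := hM.anti x hx
    refine ⟨g • x', Set.smul_mem_smul_set h1, fun h hh hc => ?_⟩
    rw [ha.crs hX] at hc
    have := h2 _ (ha.HS hX g⁻¹ hh) hc
    rw [Set.mem_inv_smul_set_iff, Set.mem_inv_smul_set_iff] at this
    exact this

theorem Acts.isGate (hX : TF X) (ha : Acts X G) (g : G) {M : Set V} {x y : V}
    (h : IsGate X M x y) : IsGate X (g • M) (g • x) (g • y) := by
  refine ⟨Set.smul_mem_smul_set h.1, ?_⟩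
  rintro z ⟨z, hz, rfl⟩
  exact (ha.itv hX g).2 (h.2 z hz)

theorem Acts.proj (hX : TF X) (ha : Acts X G) (g : G) {M O : Set V} :
    g • proj X M O = proj X (g • M) (g • O) := by
  ext z
  rw [Set.mem_smul_set_iff_inv_smul_mem]
  constructor
  · rintro ⟨x, hx, h⟩
    refine ⟨g • x, Set.smul_mem_smul_set hx, ?_⟩
    have := ha.isGate hX g h
    rwa [smul_inv_smul] at this
  · rintro ⟨x, ⟨x, hx, rfl⟩, h⟩
    refine ⟨x, hx, ?_⟩
    have := ha.isGate hX g⁻¹ h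
    rw [inv_smul_smul] at this
    simpa using this

theorem Acts.topC (hX : TF X) (ha : Acts X G) (g : G) {O M T : Set V} (h : TopC X O M T) :
    TopC X (g • O) (g • M) (g • T) := by
  refine ⟨Set.smul_set_mono h.1, ?_⟩
  rintro k hk hc hnc x ⟨x, hx, rfl⟩ z ⟨z, hz, rfl⟩
  rw [ha.crs hX] at hc hnc
  have := h.2 _ (ha.HS hX g⁻¹ hk) hc hnc x hx z hz
  rw [Set.mem_inv_smul_set_iff, Set.mem_inv_smul_set_iff] at this
  exact this

theorem Acts.tp (hX : TF X) (ha : Acts X G) (g : G) {O M : Set V} :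
    g • tp X O M = tp X (g • O) (g • M) := by
  have key : ∀ (g : G) (O M : Set V),
      g • Med7a.tp X O M ⊆ Med7a.tp X (g • O) (g • M) := by
    rintro g O M z ⟨z, hz, rfl⟩
    refine ⟨Set.smul_mem_smul_set hz.1, ?_⟩
    rintro k hk hc hnc x ⟨x, hx, rfl⟩
    rw [ha.crs hX] at hc hnc
    have := hz.2 _ (ha.HS hX g⁻¹ hk) hc hnc x hx
    rw [Set.mem_inv_smul_set_iff, Set.mem_inv_smul_set_iff] at this
    exact this
  apply Set.Subset.antisymm (key g O M)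
  have := key g⁻¹ (g • O) (g • M)
  rw [inv_smul_smul, inv_smul_smul] at this
  have h2 := Set.smul_set_mono (a := g) this
  rwa [smul_inv_smul] at h2

end Pool.Agent.Med7a
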