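import Pool.Agent.Lib.MP_7af17a_al.Cell

/-!
# Good pairs: descents span a monolith
-/

namespace Pool.Agent.Med7a

variable {V : Type*} {X : SimpleGraph V}

theorem eq_of_not_mem_W (hX : TF X) {v y w : V} (h : X.Adj v y) (h' : X.Adj v w)
    (hy : y ∉ W X v w) : y = w := by
  rw [not_mem_W hX h', mem_W, X.dist_comm (u := y) (v := v), dist_adj h] at hy
  exact (hX.med.connected.dist_eq_zero_iff).1 (by omega)

/-- a vertex on the same side as `x ∈ M` of all walls which do not cross the gated set `M` -/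
theorem mem_of_same (hX : TF X) {M : Set V} (hM : Gated X M) {x z : V} (hx : x ∈ M)
    (h : ∀ k, HS X k → ¬ Crs k M → (z ∈ k ↔ x ∈ k)) : z ∈ M := by
  obtain ⟨g, hg, hg2⟩ := (gated_iff hX).1 hM z
  have : z = g := by
    apply eq_of_HS hX
    intro k hk hz
    by_cases hc : Crs k M
    · exact (hg2 k hk hc).1 hz
    · exact (not_crs hc hx hg).1 ((h k hk hc).1 hz)
  rw [this]
  exact hg

/-- first step of a geodesic -/
theorem step_toward (hX : TF X) {x y : V} (hne : x ≠ y) :
    ∃ z, X.Adj x z ∧ y ∉ W X x z ∧ z ∈ Itv X x y ∧ X.dist z y + 1 = X.dist x y := by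
  have hcon := hX.med.connected
  have hpos : X.dist x y ≠ 0 := fun h => hne ((hcon.dist_eq_zero_iff).1 h)
  obtain ⟨n, hn⟩ := Nat.exists_eq_succ_of_ne_zero hpos
  obtain ⟨z, h1, h2⟩ := exists_step hcon hn
  refine ⟨z, h1, ?_, ?_, by omega⟩
  · rw [mem_W, X.dist_comm (u := y), X.dist_comm (u := y)]
    omega
  · show X.dist x y = _
    rw [dist_adj h1]
    omega

/-- in an antipodal set: if all walls at `x` separate `x` from `g`, then `g` is the antipode -/
theorem Cell.anti_of (hX : TF X) {C : Set V} (hC : Cell X C) {x g : V} (hx : x ∈ C) (hg : g ∈ C)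
    (h : ∀ y ∈ C, X.Adj x y → g ∉ W X x y) : ∀ k, HS X k → Crs k C → (x ∈ k ↔ g ∉ k) := by
  obtain ⟨g', hg', hg2⟩ := hC.anti g hg
  have hxg : x = g' := by
    by_contra hne
    obtain ⟨z, h1, h2, h3, -⟩ := step_toward hX hne
    have hz : z ∈ C := hC.gated.conv hX x hx g' hg' h3
    have hc : Crs (W X x z) C := ⟨⟨x, hx, left_mem_W h1⟩, z, hz, right_not_mem_W⟩
    exact h z hz h1 ((hg2 _ (HS_W h1) hc).2 h2)
  intro k hk hc
  rw [hxg]
  have := hg2 k hk hc
  tauto

/-- gated sets are closed under 2-cells -/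
theorem closed_of_gated (hX : TF X) {M C : Set V} (hM : Gated X M) (hC : Cell2 X C) {x y z : V}
    (hzx : X.Adj z x) (hzy : X.Adj z y) (hxy : x ≠ y) (hz : z ∈ C) (hx : x ∈ C) (hy : y ∈ C)
    (hz' : z ∈ M) (hx' : x ∈ M) (hy' : y ∈ M) : C ⊆ M := by
  obtain ⟨a, ha, ha2⟩ := (hC.cell hX).anti z hz
  obtain ⟨g, hg, hg2⟩ := hM a
  have hgI : g ∈ Itv X a z := hg2 z hz'
  have hgC : g ∈ C := (hC.cell hX).gated.conv hX a ha z hz hgI
  have hg3 := ((isGate_iff hX).1 ⟨hg, hg2⟩).2
  obtain ⟨p, -, q, -, hp, hq, hpq, hpq2⟩ := hC.nbrs hX hz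
  have hall : ∀ w ∈ C, X.Adj z w → w = x ∨ w = y := by
    intro w hw hzw
    rcases hpq2 w hw hzw with rfl | rfl
    · rcases hpq2 x hx hzx with rfl | rfl
      · exact Or.inl rfl
      · rcases hpq2 y hy hzy with rfl | rfl
        · exact Or.inr rfl
        · exact absurd rfl hxy
    · rcases hpq2 x hx hzx with rfl | rfl
      · rcases hpq2 y hy hzy with rfl | rfl
        · exact absurd rfl hxy
        · exact Or.inr rfl
      · exact Or.inl rfl
  have hwall : ∀ w ∈ C, w ∈ M → X.Adj z w → g ∉ W X z w := by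
    intro w hw hwM hzw hgw
    have hcM : Crs (W X z w) M := ⟨⟨z, hz', left_mem_W hzw⟩, w, hwM, right_not_mem_W⟩
    have hcC : Crs (W X z w) C := ⟨⟨z, hz, left_mem_W hzw⟩, w, hw, right_not_mem_W⟩
    exact (ha2 _ (HS_W hzw) hcC).1 (left_mem_W hzw) ((hg3 _ (HS_W hzw) hcM).2 hgw)
  have hanti := (hC.cell hX).anti_of hX hz hgC (by
    intro w hw hzw
    rcases hall w hw hzw with rfl | rfl
    · exact hwall _ hx hx' hzw
    · exact hwall _ hy hy' hzw)
  intro w hw
  apply hM.conv hX z hz' g hg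
  rw [mem_Itv_iff hX]
  intro k hk h1 h2
  by_contra h3
  exact (hanti k hk ⟨⟨z, hz, h1⟩, w, hw, h3⟩).1 h1 h2

/-- Local criterion for gated sets (peak reduction, Newman's lemma). -/
theorem gated_of_closed (hX : TF X) {M : Set V} (hne : M.Nonempty) (hconv : Conv X M)
    (hcl : ∀ C, Cell2 X C → ∀ x y z, X.Adj z x → X.Adj z y → x ≠ y → z ∈ C → x ∈ C → y ∈ C →
      z ∈ M → x ∈ M → y ∈ M → C ⊆ M) : Gated X M := by
  have hcon := hX.med.connected
  intro o
  let R : V → V → Prop := fun z w => w ∈ M ∧ X.Adj z w ∧ X.dist o w + 1 = X.dist o z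
  let Mn : V → Prop := fun w => ∀ u, ¬ R w u
  have exmin : ∀ n : ℕ, ∀ z ∈ M, X.dist o z = n → ∃ w ∈ M, Relation.ReflTransGen R z w ∧ Mn w := by
    intro n
    induction n with
    | zero =>
      intro z hz hn
      exact ⟨z, hz, Relation.ReflTransGen.refl, fun u hu => by have := hu.2.2; omega⟩
    | succ n ih =>
      intro z hz hn
      by_cases hmin : Mn z
      · exact ⟨z, hz, Relation.ReflTransGen.refl, hmin⟩
      · simp only [Mn, not_forall, not_not] at hmin
        obtain ⟨u, hu⟩ := hmin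
        obtain ⟨w, hw, h1, h2⟩ := ih u hu.1 (by have := hu.2.2; omega)
        exact ⟨w, hw, Relation.ReflTransGen.head hu h1, h2⟩
  have newman : ∀ n : ℕ, ∀ z ∈ M, X.dist o z = n → ∀ w1 w2, Relation.ReflTransGen R z w1 →
      Relation.ReflTransGen R z w2 → Mn w1 → Mn w2 → w1 = w2 := by
    intro n
    induction n using Nat.strong_induction_on with
    | _ n ih =>
      intro z hz hn w1 w2 h1 h2 m1 m2
      rcases Relation.ReflTransGen.cases_head h1 with rfl | ⟨z1, hz1, h1'⟩
      · rcases Relation.ReflTransGen.cases_head h2 with rfl | ⟨z2, hz2, -⟩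
        · rfl
        · exact absurd hz2 (m1 _)
      rcases Relation.ReflTransGen.cases_head h2 with rfl | ⟨z2, hz2, h2'⟩
      · exact absurd hz1 (m2 _)
      by_cases h12 : z1 = z2
      · subst h12
        exact ih _ (by have := hz1.2.2; omega) z1 hz1.1 rfl w1 w2 h1' h2' m1 m2
      · have e1 : o ∉ W X z z1 := by
          rw [mem_W]
          have := hz1.2.2
          omega
        have e2 : o ∉ W X z z2 := by
          rw [mem_W]
          have := hz2.2.2
          omega
        obtain ⟨C, hC, c0, c1, c2, c3⟩ := exists_cell2 hX h12 hz1.2.1 hz2.2.1 e1 e2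
        have hCM : C ⊆ M := hcl C hC z1 z2 z hz1.2.1 hz2.2.1 h12 c0 c1 c2 hz hz1.1 hz2.1
        obtain ⟨z', hz', hz'2⟩ := (hC.cell hX).anti z c0
        have hgate : IsGate X C o z' := by
          rw [isGate_iff hX]
          refine ⟨hz', fun h hh hc => ?_⟩
          have h3 := c3 h hh hc
          have h4 := hz'2 h hh hc
          tauto
        have desc : ∀ n : ℕ, ∀ u ∈ C, X.dist u z' = n → Relation.ReflTransGen R u z' := by
          intro n
          induction n with
          | zero =>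
            intro u hu hd
            rw [(hcon.dist_eq_zero_iff).1 hd]
          | succ n ih2 =>
            intro u hu hd
            obtain ⟨w, h5, h6⟩ := exists_step hcon hd
            have hw : w ∈ C := by
              apply (hC.cell hX).gated.conv hX u hu z' hz'
              show X.dist u z' = _
              rw [dist_adj h5]
              omega
            refine Relation.ReflTransGen.head ⟨hCM hw, h5, ?_⟩ (ih2 w hw h6)
            have g1 : X.dist o u = X.dist o z' + X.dist z' u := hgate.2 u hu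
            have g2 : X.dist o w = X.dist o z' + X.dist z' w := hgate.2 w hw
            rw [g1, g2, X.dist_comm (u := z') (v := u), X.dist_comm (u := z') (v := w)]
            omega
        obtain ⟨w3, -, h7, h8⟩ := exmin _ z' (hCM hz') rfl
        have h9 := ih _ (by have := hz1.2.2; omega) z1 hz1.1 rfl w1 w3 h1'
          ((desc _ z1 c1 rfl).trans h7) m1 h8
        have h10 := ih _ (by have := hz2.2.2; omega) z2 hz2.1 rfl w2 w3 h2'
          ((desc _ z2 c2 rfl).trans h7) m2 h8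
        rw [h9, h10]
  obtain ⟨m0, hm0⟩ := hne
  obtain ⟨g, hg, hg1, hg2⟩ := exmin _ m0 hm0 rfl
  have hall : ∀ n : ℕ, ∀ z ∈ M, X.dist z m0 = n → Relation.ReflTransGen R z g := by
    intro n
    induction n with
    | zero =>
      intro z hz hd
      rw [(hcon.dist_eq_zero_iff).1 hd]
      exact hg1
    | succ n ih =>
      intro z hz hd
      obtain ⟨z1, h1, h2⟩ := exists_step hcon hd
      have hz1 : z1 ∈ M := by
        apply hconv z hz m0 hm0
        show X.dist z m0 = _
        rw [dist_adj h1]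
        omega
      have h3 := ih z1 hz1 h2
      rcases hX.adj_or o h1 with h4 | h4
      · obtain ⟨w, hw, h5, h6⟩ := exmin _ z hz rfl
        have h7 : Relation.ReflTransGen R z1 w :=
          Relation.ReflTransGen.head ⟨hz, h1.symm, by omega⟩ h5
        have h8 := newman _ z1 hz1 rfl w g h7 h3 h6 hg2
        rw [← h8]
        exact h5
      · exact Relation.ReflTransGen.head ⟨hz1, h1, by omega⟩ h3
  refine ⟨g, hg, fun z hz => ?_⟩
  have hlen : ∀ z, Relation.ReflTransGen R z g → X.dist o g + X.dist g z ≤ X.dist o z := by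
    intro z hz
    induction hz using Relation.ReflTransGen.head_induction_on with
    | refl => simp
    | head h1 h2 ih =>
      rename_i a b
      have h3 := adj_dist_le hcon (o := g) h1.2.1.symm
      have h4 := h1.2.2
      omega
  have h1 := hlen z (hall _ z hz rfl)
  have h2 := hcon.dist_triangle (u := o) (v := g) (w := z)
  show X.dist o z = _
  omega

/-- `v` has a neighbour outside `h` -/
def Nb (X : SimpleGraph V) (v : V) (h : Set V) : Prop := ∃ u, X.Adj v u ∧ u ∉ h

/-- good pairs: among the walls separating `v` and `b`, those adjacent to `v` are exactly those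
adjacent to `b`. -/
def Good (X : SimpleGraph V) (v b : V) : Prop :=
  ∀ h, HS X h → v ∈ h → b ∉ h → (Nb X v h ↔ Nb X b hᶜ)

theorem Good.symm (hX : TF X) {v b : V} (hg : Good X v b) : Good X b v := by
  intro h hh h1 h2
  have := hg hᶜ (hh.compl hX) h2 (fun h => h h1)
  rw [compl_compl] at this
  exact this.symm

theorem good_half (hX : TF X) {v b y b' : V} (hg : Good X v b) (hvy : X.Adj v y)
    (hb : b ∉ W X v y) (hbb : X.Adj b b') (hb' : b' ∈ W X v y) {h : Set V} (hh : HS X h)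
    (hy : y ∈ h) (hb'h : b' ∉ h) (hne : h ≠ (W X v y)ᶜ) (hnb : Nb X y h) : Nb X b' hᶜ := by
  have hcon := hX.med.connected
  obtain ⟨z, hyz, hz⟩ := hnb
  have hKS : HS X (W X v y) := HS_W hvy
  have hWb : (W X v y)ᶜ = W X b b' := by
    apply (hKS.compl hX).edge hX hbb hb
    exact fun h => h hb'
  have hWy : (W X v y)ᶜ = W X y v := W_compl hX hvy
  have hhz : h = W X y z := hh.edge hX hyz hy hz
  have hne2 : h ≠ W X v y := by
    rintro rfl
    exact right_not_mem_W hy
  have hvh : v ∈ h := (hh.same_side hX hvy hne2 hne).2 hy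
  have hbh : b ∉ h := by
    intro h1
    apply hb'h
    refine (hh.same_side hX hbb ?_ ?_).1 h1
    · rw [← hWb]
      exact hne
    · rw [← hWb, compl_compl]
      exact hne2
  have hvz : v ≠ z := by
    rintro rfl
    exact hz hvh
  obtain ⟨C, hC, cy, cv, cz, c3⟩ := exists_cell2 hX (o := b') hvz hvy.symm hyz
    (by rw [← hWy]; exact fun h => h hb') (by rw [← hhz]; exact hb'h)
  -- the other neighbour of `v` in `C`
  obtain ⟨w, hwC, hvw, hwy⟩ : ∃ w ∈ C, X.Adj v w ∧ w ≠ y := by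
    obtain ⟨p, hp, q, hq, h1, h2, h3, -⟩ := hC.nbrs hX cv
    by_cases hpy : p = y
    · exact ⟨q, hq, h2, fun h => h3 (hpy.trans h.symm)⟩
    · exact ⟨p, hp, h1, hpy⟩
  have hya : y ∈ W X v w := by
    by_contra h1
    exact hwy (eq_of_not_mem_W hX hvy hvw h1).symm
  have haS : HS X (W X v w) := HS_W hvw
  have hac : Crs (W X v w) C := ⟨⟨v, cv, left_mem_W hvw⟩, w, hwC, right_not_mem_W⟩
  have hb'a : b' ∉ W X v w := (c3 _ haS hac).1 hya
  have haK : W X v w ≠ W X v y := by
    intro h1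
    rw [h1] at hya
    exact right_not_mem_W hya
  have haK' : W X v w ≠ (W X v y)ᶜ := by
    intro h1
    have : v ∈ (W X v y)ᶜ := h1 ▸ left_mem_W hvw
    exact this (left_mem_W hvy)
  have hba : b ∉ W X v w := by
    intro h1
    apply hb'a
    refine (haS.same_side hX hbb ?_ ?_).1 h1
    · rw [← hWb]
      exact haK'
    · rw [← hWb, compl_compl]
      exact haK
  obtain ⟨u1, hbu, hu1⟩ := (hg _ haS (left_mem_W hvw) hba).1 ⟨w, hvw, right_not_mem_W⟩
  have hu1' : u1 ∈ W X v w := by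
    by_contra h1
    exact hu1 h1
  have hWu : (W X v w)ᶜ = W X b u1 := (haS.compl hX).edge hX hbu hba hu1
  have hub : u1 ≠ b' := by
    rintro rfl
    exact hb'a hu1'
  obtain ⟨C', hC', cb, cu, cb', c3'⟩ := exists_cell2 hX (o := v) hub hbu hbb
    (by rw [← hWu]; exact fun h => h (left_mem_W hvw))
    (by rw [← hWb]; exact fun h => h (left_mem_W hvy))
  have cK : Crs (W X v y) C := ⟨⟨v, cv, left_mem_W hvy⟩, y, cy, right_not_mem_W⟩
  have cK' : Crs (W X v y) C' := ⟨⟨b', cb', hb'⟩, b, cb, hb⟩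
  have ca' : Crs (W X v w) C' := ⟨⟨u1, cu, hu1'⟩, b, cb, hba⟩
  have chC : Crs h C := ⟨⟨y, cy, hy⟩, z, cz, hz⟩
  have chC' : Crs h C' := par2 hX hC hC' haS hKS hh haK haK' hac cK ca' cK' chC
  have back : ∀ l, HS X l → Crs l C' → Crs l C := fun l hl hc =>
    par2 hX hC' hC haS hKS hl haK haK' ca' cK' hac cK hc
  obtain ⟨gy, hgy, hgy2⟩ := (hC'.cell hX).gated y
  obtain ⟨gz, hgz, hgz2⟩ := (hC'.cell hX).gated z
  have hgy3 := ((isGate_iff hX).1 ⟨hgy, hgy2⟩).2
  have hgate := adj_gate hX hyz (hhz ▸ chC') ⟨hgy, hgy2⟩ ⟨hgz, hgz2⟩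
  obtain ⟨gz', hgz', hgz'2⟩ := (hC'.cell hX).anti gz hgz
  have hanti := adj_anti hX hgy hgz cb' hgz' hgate.1 (by
    intro l hl hc
    rw [← hgy3 l hl hc]
    exact c3 l hl (back l hl hc)) hgz'2
  refine ⟨gz', hanti.1.symm, ?_⟩
  intro h1
  apply h1
  have h2 : gz' ∈ W X gz' b' := left_mem_W hanti.1
  rw [hanti.2, hgate.2, ← hhz] at h2
  exact h2

theorem good_step (hX : TF X) {v b y : V} (hg : Good X v b) (hvy : X.Adj v y)
    (hb : b ∉ W X v y) : ∃ b', X.Adj b b' ∧ b' ∈ W X v y ∧ Good X y b' := by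
  obtain ⟨b', hbb, hb'⟩ := (hg _ (HS_W hvy) (left_mem_W hvy) hb).1 ⟨y, hvy, right_not_mem_W⟩
  have hb'' : b' ∈ W X v y := by
    by_contra h1
    exact hb' h1
  have hWb : (W X v y)ᶜ = W X b b' := ((HS_W hvy).compl hX).edge hX hbb hb hb'
  refine ⟨b', hbb, hb'', ?_⟩
  intro h hh hy hb'h
  by_cases hne : h = (W X v y)ᶜ
  · subst hne
    refine iff_of_true ⟨v, hvy.symm, fun h => h (left_mem_W hvy)⟩ ⟨b, hbb.symm, ?_⟩
    rw [compl_compl]
    exact hb
  · constructor
    · exact good_half hX hg hvy hb hbb hb'' hh hy hb'h hne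
    · intro h1
      have h2 := good_half hX (hg.symm hX) hbb (y := b') (b' := y) (h := hᶜ)
        (by rw [← hWb]; exact fun h => h (left_mem_W hvy)) hvy
        (by rw [← hWb]; exact right_not_mem_W) (hh.compl hX) hb'h (fun h => h hy)
        (by rw [← hWb]; exact fun h => hne (compl_injective h)) h1
      rw [compl_compl] at h2
      exact h2

/-- every vertex of the interval of a good pair belongs to a good pair with the same walls -/
theorem good_all (hX : TF X) {v b : V} (hg : Good X v b) : ∀ x ∈ Itv X v b,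
    ∃ x', Good X x x' ∧ ∀ h, HS X h → ((x ∈ h ↔ x' ∈ h) ↔ (v ∈ h ↔ b ∈ h)) := by
  have hcon := hX.med.connected
  suffices H : ∀ n : ℕ, ∀ x ∈ Itv X v b, X.dist x v = n →
      ∃ x', Good X x x' ∧ ∀ h, HS X h → ((x ∈ h ↔ x' ∈ h) ↔ (v ∈ h ↔ b ∈ h)) from
    fun x hx => H _ x hx rfl
  intro n
  induction n with
  | zero =>
    intro x hx hd
    rw [(hcon.dist_eq_zero_iff).1 hd]
    exact ⟨b, hg, fun h _ => Iff.rfl⟩
  | succ n ih =>
    intro x hx hd
    obtain ⟨x1, h1, h2⟩ := exists_step hcon hd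
    have hx1 : x1 ∈ Itv X v b := by
      rw [mem_Itv_iff hX]
      intro k hk hv hb
      have h3 : x1 ∈ Itv X x v := by
        show X.dist x v = _
        rw [dist_adj h1]
        omega
      exact (mem_Itv_iff hX).1 h3 k hk ((mem_Itv_iff hX).1 hx k hk hv hb) hv
    obtain ⟨x1', hg1, hr1⟩ := ih x1 hx1 h2
    have hvK : v ∈ W X x1 x := by
      rw [mem_W, X.dist_comm (u := v), X.dist_comm (u := v)]
      omega
    have hbK : b ∉ W X x1 x := fun hb =>
      right_not_mem_W ((mem_Itv_iff hX).1 hx _ (HS_W h1.symm) hvK hb)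
    have hx1'K : x1' ∉ W X x1 x := by
      intro h3
      have h4 := (hr1 _ (HS_W h1.symm)).1 (iff_of_true (left_mem_W h1.symm) h3)
      exact hbK (h4.1 hvK)
    obtain ⟨x', h3, h4, h5⟩ := good_step hX hg1 h1.symm hx1'K
    have hWx : (W X x1 x)ᶜ = W X x1' x' :=
      ((HS_W h1.symm).compl hX).edge hX h3 hx1'K (fun h => h h4)
    refine ⟨x', h5, fun h hh => ?_⟩
    by_cases e1 : h = W X x1 x
    · subst e1
      have a1 : x ∉ W X x1 x := right_not_mem_W
      tauto
    by_cases e2 : h = (W X x1 x)ᶜ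
    · subst e2
      have a1 : x ∉ W X x1 x := right_not_mem_W
      simp only [Set.mem_compl_iff]
      tauto
    · have h6 := hh.same_side hX h1.symm e1 e2
      have h7 := hh.same_side hX h3 (by rw [← hWx]; exact e2)
        (by rw [← hWx, compl_compl]; exact e1)
      rw [← hr1 h hh, h6, h7]

theorem crs_itv (hX : TF X) {v b : V} {h : Set V} (hh : HS X h) :
    Crs h (Itv X v b) ↔ ¬ (v ∈ h ↔ b ∈ h) := by
  constructor
  · rintro ⟨⟨x, hx, hx'⟩, y, hy, hy'⟩ hvb
    by_cases hv : v ∈ h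
    · exact hy' ((mem_Itv_iff hX).1 hy h hh hv (hvb.1 hv))
    · exact (mem_Itv_iff' hX).1 hx h hh hv (fun hb => hv (hvb.2 hb)) hx'
  · intro h1
    have hv : v ∈ Itv X v b := by
      show X.dist v b = _
      simp
    have hb : b ∈ Itv X v b := by
      show X.dist v b = _
      simp
    by_cases hv' : v ∈ h
    · exact ⟨⟨v, hv, hv'⟩, b, hb, fun h => h1 (iff_of_true hv' h)⟩
    · refine ⟨⟨b, hb, ?_⟩, v, hv, hv'⟩
      by_contra h2
      exact h1 (iff_of_false hv' h2)

theorem Itv_conv (hX : TF X) (v b : V) : Conv X (Itv X v b) := by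
  intro x hx y hy z hz
  rw [mem_Itv_iff hX] at hx hy hz ⊢
  intro k hk h1 h2
  exact hz k hk (hx k hk h1 h2) (hy k hk h1 h2)

theorem left_mem_Itv (v b : V) : v ∈ Itv X v b := by
  show X.dist v b = _
  simp

theorem right_mem_Itv (v b : V) : b ∈ Itv X v b := by
  show X.dist v b = _
  simp

/-- the interval of a good pair is an antipodal gated set -/
theorem Good.cell (hX : TF X) {v b : V} (hg : Good X v b) : Cell X (Itv X v b) := by
  have hall := good_all hX hg
  have hcs : ∀ z ∈ Itv X v b, ∀ x ∈ Itv X v b, ∀ z', X.Adj z x →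
      (∀ h, HS X h → ((z ∈ h ↔ z' ∈ h) ↔ (v ∈ h ↔ b ∈ h))) → z' ∉ W X z x := by
    intro z hz x hx z' hzx hr h1
    have h2 := (hr _ (HS_W hzx)).1 (iff_of_true (left_mem_W hzx) h1)
    have h3 : Crs (W X z x) (Itv X v b) := ⟨⟨z, hz, left_mem_W hzx⟩, x, hx, right_not_mem_W⟩
    exact (crs_itv hX (HS_W hzx)).1 h3 h2
  refine ⟨⟨v, left_mem_Itv v b⟩, ?_, ?_⟩
  · apply gated_of_closed hX ⟨v, left_mem_Itv v b⟩ (Itv_conv hX v b)
    intro C hC x y z hzx hzy hxy cz cx cy hz hx hy
    obtain ⟨z', hg', hr⟩ := hall z hz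
    obtain ⟨C1, hC1, d0, d1, d2, d3⟩ := exists_cell2 hX hxy hzx hzy (hcs z hz x hx z' hzx hr)
      (hcs z hz y hy z' hzy hr)
    have hCC : C = C1 := hC.unique hX hC1 hzx hzy hxy cx cy cz d1 d2 d0
    rw [hCC]
    intro w hw
    rw [mem_Itv_iff hX]
    intro k hk hv hb
    have h1 := (hr k hk).2 (iff_of_true hv hb)
    have h2 : ¬ Crs k C1 := by
      intro hc
      have := d3 k hk hc
      tauto
    exact (not_crs h2 d0 hw).1 ((mem_Itv_iff hX).1 hz k hk hv hb)
  · intro x hx
    obtain ⟨x', -, hr⟩ := hall x hx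
    refine ⟨x', ?_, ?_⟩
    · rw [mem_Itv_iff hX]
      intro k hk hv hb
      exact ((hr k hk).2 (iff_of_true hv hb)).1 ((mem_Itv_iff hX).1 hx k hk hv hb)
    · intro h hh hc
      have h1 := (crs_itv hX hh).1 hc
      rw [← hr h hh] at h1
      tauto

/-- a cell is contained in a gated set as soon as one star is -/
theorem Cell.sub (hX : TF X) {T M : Set V} (hT : Cell X T) (hM : Gated X M) {x : V} (hx : x ∈ T)
    (hxM : x ∈ M) (hn : ∀ y ∈ T, X.Adj x y → y ∈ M) : T ⊆ M := by
  have hcon := hX.med.connected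
  suffices H : ∀ n : ℕ, ∀ z ∈ T, X.dist z x = n → z ∈ M ∧ ∀ y ∈ T, X.Adj z y → y ∈ M from
    fun z hz => (H _ z hz rfl).1
  intro n
  induction n with
  | zero =>
    intro z hz hd
    rw [(hcon.dist_eq_zero_iff).1 hd]
    exact ⟨hxM, hn⟩
  | succ n ih =>
    intro z hz hd
    obtain ⟨z1, h1, h2⟩ := exists_step hcon hd
    have hz1 : z1 ∈ T := by
      apply hT.gated.conv hX z hz x hx
      show X.dist z x = _
      rw [dist_adj h1]
      omega
    obtain ⟨i1, i2⟩ := ih z1 hz1 h2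
    have hzM : z ∈ M := i2 z hz h1.symm
    refine ⟨hzM, fun q hq hzq => ?_⟩
    by_cases hq1 : q = z1
    · rw [hq1]
      exact i1
    obtain ⟨z', hz', hz'2⟩ := hT.anti z hz
    have hsep : ∀ y ∈ T, X.Adj z y → z' ∉ W X z y := fun y hy hzy =>
      (hz'2 _ (HS_W hzy) ⟨⟨z, hz, left_mem_W hzy⟩, y, hy, right_not_mem_W⟩).1 (left_mem_W hzy)
    obtain ⟨C, hC, c0, c1, c2, c3⟩ := exists_cell2 hX hq1 hzq h1 (hsep q hq hzq)
      (hsep z1 hz1 h1)
    have hCT : C ⊆ T := by
      intro w hw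
      apply mem_of_same hX hT.gated hz
      intro k hk hc
      have h3 := not_crs hc hz hz'
      have h4 : ¬ Crs k C := by
        intro hc2
        have := c3 k hk hc2
        tauto
      exact not_crs h4 hw c0
    obtain ⟨p, hp, r, hr, e1, e2, e3, -⟩ := hC.nbrs hX c2
    have hCM : C ⊆ M := closed_of_gated hX hM hC e1 e2 e3 c2 hp hr i1 (i2 p (hCT hp) e1)
      (i2 r (hCT hr) e2)
    exact hCM c1

/-- Parallel copies of a cell. -/
theorem parallel_copy (hX : TF X) {N : Set V} (hN : Cell X N) {v v' : V} (hg : IsGate X N v v')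
    (hst : ∀ y ∈ N, X.Adj v' y → Nb X v (W X v' y)) :
    ∀ p ∈ N, ∃ z, (∀ h, HS X h → Crs h N → (z ∈ h ↔ p ∈ h)) ∧
      ∀ h, HS X h → ¬ Crs h N → (z ∈ h ↔ v ∈ h) := by
  have hcon := hX.med.connected
  suffices H : ∀ n : ℕ, ∀ p ∈ N, X.dist p v' = n → ∃ z,
      (∀ h, HS X h → Crs h N → (z ∈ h ↔ p ∈ h)) ∧
      (∀ h, HS X h → ¬ Crs h N → (z ∈ h ↔ v ∈ h)) ∧
      ∀ q ∈ N, X.Adj p q → Nb X z (W X p q) from by
    intro p hp
    obtain ⟨z, h1, h2, -⟩ := H _ p hp rfl
    exact ⟨z, h1, h2⟩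
  intro n
  induction n with
  | zero =>
    intro p hp hd
    have := (hcon.dist_eq_zero_iff).1 hd
    subst this
    exact ⟨v, ((isGate_iff hX).1 hg).2, fun _ _ _ => Iff.rfl, hst⟩
  | succ n ih =>
    intro p hp hd
    obtain ⟨p1, h1, h2⟩ := exists_step hcon hd
    have hp1 : p1 ∈ N := by
      apply hN.gated.conv hX p hp v' hg.1
      show X.dist p v' = _
      rw [dist_adj h1]
      omega
    obtain ⟨z1, i1, i2, i3⟩ := ih p1 hp1 h2
    have hLS : HS X (W X p1 p) := HS_W h1.symm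
    have hLN : Crs (W X p1 p) N := ⟨⟨p1, hp1, left_mem_W h1.symm⟩, p, hp, right_not_mem_W⟩
    obtain ⟨z, hz1z, hzL⟩ := i3 p hp h1.symm
    have hz1L : z1 ∈ W X p1 p := (i1 _ hLS hLN).2 (left_mem_W h1.symm)
    have hLz : W X p1 p = W X z1 z := hLS.edge hX hz1z hz1L hzL
    have zside : ∀ h, HS X h → h ≠ W X p1 p → h ≠ (W X p1 p)ᶜ → (z1 ∈ h ↔ z ∈ h) := by
      intro h hh e1 e2
      exact hh.same_side hX hz1z (by rw [← hLz]; exact e1) (by rw [← hLz]; exact e2)
    have pside : ∀ h, HS X h → h ≠ W X p1 p → h ≠ (W X p1 p)ᶜ → (p1 ∈ h ↔ p ∈ h) := by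
      intro h hh e1 e2
      exact hh.same_side hX h1.symm e1 e2
    have hz_in : ∀ h, HS X h → Crs h N → (z ∈ h ↔ p ∈ h) := by
      intro h hh hc
      by_cases e1 : h = W X p1 p
      · subst e1
        exact iff_of_false hzL right_not_mem_W
      by_cases e2 : h = (W X p1 p)ᶜ
      · subst e2
        exact iff_of_true hzL (right_not_mem_W (X := X) (x := p1) (y := p))
      rw [← zside h hh e1 e2, ← pside h hh e1 e2]
      exact i1 h hh hc
    have hz_out : ∀ h, HS X h → ¬ Crs h N → (z ∈ h ↔ v ∈ h) := by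
      intro h hh hc
      have e1 : h ≠ W X p1 p := by
        rintro rfl
        exact hc hLN
      have e2 : h ≠ (W X p1 p)ᶜ := by
        rintro rfl
        exact hc hLN.compl
      rw [← zside h hh e1 e2]
      exact i2 h hh hc
    refine ⟨z, hz_in, hz_out, fun q hq hpq => ?_⟩
    by_cases hqp : q = p1
    · subst hqp
      refine ⟨z1, hz1z.symm, ?_⟩
      rw [← W_compl hX h1.symm]
      exact fun h => h hz1L
    -- a 2-cell of `N` at `p` spanned by `p1` and `q`
    obtain ⟨p', hp', hp'2⟩ := hN.anti p hp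
    have hsep : ∀ y ∈ N, X.Adj p y → p' ∉ W X p y := fun y hy hpy =>
      (hp'2 _ (HS_W hpy) ⟨⟨p, hp, left_mem_W hpy⟩, y, hy, right_not_mem_W⟩).1 (left_mem_W hpy)
    obtain ⟨C, hC, c0, c1, c2, c3⟩ := exists_cell2 hX hqp hpq h1 (hsep q hq hpq)
      (hsep p1 hp1 h1)
    have hCN : C ⊆ N := by
      intro w hw
      apply mem_of_same hX hN.gated hp
      intro k hk hc
      have h3 := not_crs hc hp hp'
      have h4 : ¬ Crs k C := by
        intro hc2
        have := c3 k hk hc2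
        tauto
      exact not_crs h4 hw c0
    -- the other neighbour of `p1` in `C`
    obtain ⟨w, hwC, hp1w, hwp⟩ : ∃ w ∈ C, X.Adj p1 w ∧ w ≠ p := by
      obtain ⟨a, ha, b, hb, e1, e2, e3, -⟩ := hC.nbrs hX c2
      by_cases hap : a = p
      · exact ⟨b, hb, e2, fun h => e3 (hap.trans h.symm)⟩
      · exact ⟨a, ha, e1, hap⟩
    have hKS : HS X (W X p1 w) := HS_W hp1w
    have hKN : Crs (W X p1 w) N := ⟨⟨p1, hp1, left_mem_W hp1w⟩, w, hCN hwC, right_not_mem_W⟩
    obtain ⟨zw, hz1zw, hzw⟩ := i3 w (hCN hwC) hp1w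
    have hz1K : z1 ∈ W X p1 w := (i1 _ hKS hKN).2 (left_mem_W hp1w)
    have hKz : W X p1 w = W X z1 zw := hKS.edge hX hz1zw hz1K hzw
    have hpK : p ∈ W X p1 w := by
      by_contra h3
      exact hwp (eq_of_not_mem_W hX h1.symm hp1w h3).symm
    have hLK : W X p1 p ≠ W X p1 w := by
      intro h3
      rw [← h3] at hpK
      exact right_not_mem_W hpK
    have hLK' : W X p1 p ≠ (W X p1 w)ᶜ := by
      intro h3
      have : p1 ∈ (W X p1 w)ᶜ := h3 ▸ left_mem_W h1.symm
      exact this (left_mem_W hp1w)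
    have hzzw : z ≠ zw := by
      rintro rfl
      exact hLK (hLz.trans hKz.symm)
    obtain ⟨r, hr, hr2⟩ := (hC.cell hX).anti p1 c2
    have hLC : Crs (W X p1 p) C := ⟨⟨p1, c2, left_mem_W h1.symm⟩, p, c0, right_not_mem_W⟩
    have hKC : Crs (W X p1 w) C := ⟨⟨p1, c2, left_mem_W hp1w⟩, w, hwC, right_not_mem_W⟩
    obtain ⟨C1, hC1, d0, d1, d2, -⟩ := exists_cell2 hX (o := r) hzzw hz1z hz1zw
      (by rw [← hLz]; exact (hr2 _ hLS hLC).1 (left_mem_W h1.symm))
      (by rw [← hKz]; exact (hr2 _ hKS hKC).1 (left_mem_W hp1w))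
    have hLC1 : Crs (W X p1 p) C1 := ⟨⟨z1, d0, hz1L⟩, z, d1, hzL⟩
    have hKC1 : Crs (W X p1 w) C1 := ⟨⟨z1, d0, hz1K⟩, zw, d2, hzw⟩
    have hqC : Crs (W X p q) C := ⟨⟨p, c0, left_mem_W hpq⟩, q, c1, right_not_mem_W⟩
    have hqC1 : Crs (W X p q) C1 :=
      par2 hX hC hC1 hLS hKS (HS_W hpq) hLK hLK' hLC hKC hLC1 hKC1 hqC
    have back : ∀ l, HS X l → Crs l C1 → Crs l C := fun l hl hc =>
      par2 hX hC1 hC hLS hKS hl hLK hLK' hLC1 hKC1 hLC hKC hc
    have hgp : IsGate X C1 p z := by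
      rw [isGate_iff hX]
      refine ⟨d1, fun h hh hc => ?_⟩
      exact (hz_in h hh ((back h hh hc).mono hCN)).symm
    obtain ⟨gq, hgq, hgq2⟩ := (hC1.cell hX).gated q
    have h5 := adj_gate hX hpq hqC1 hgp ⟨hgq, hgq2⟩
    refine ⟨gq, h5.1, ?_⟩
    rw [← h5.2]
    exact right_not_mem_W

/-- The descents at `v` toward `o` span a cell: there is `b` in the interval between `v` and `o`
such that `(v, b)` is good and all descents from `v` toward `o` separate `v` from `b`. -/
theorem exists_good (hX : TF X) (v o : V) : ∃ b ∈ Itv X v o, Good X v b ∧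
    ∀ h, HS X h → v ∈ h → o ∉ h → Nb X v h → b ∉ h := by
  have hcon := hX.med.connected
  suffices H : ∀ n : ℕ, ∀ v o : V, {h | HS X h ∧ v ∈ h ∧ o ∉ h ∧ Nb X v h}.ncard = n →
      ∃ b ∈ Itv X v o, Good X v b ∧ ∀ h, HS X h → v ∈ h → o ∉ h → Nb X v h → b ∉ h from
    H _ v o rfl
  intro n
  induction n using Nat.strong_induction_on with
  | _ n ih =>
    intro v o hn
    set A : Set (Set V) := {h | HS X h ∧ v ∈ h ∧ o ∉ h ∧ Nb X v h} with hA
    have hAfin : A.Finite := (sep_finite hX v o).subset (fun h hh => ⟨hh.1, hh.2.1, hh.2.2.1⟩)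
    -- choose `b`
    obtain ⟨b, ⟨hbI, hbA⟩, hbmin⟩ : ∃ b, (b ∈ Itv X v o ∧ ∀ h ∈ A, b ∉ h) ∧
        ∀ b', (b' ∈ Itv X v o ∧ ∀ h ∈ A, b' ∉ h) → X.dist v b ≤ X.dist v b' := by
      have hex : ∃ n, ∃ b, (b ∈ Itv X v o ∧ ∀ h ∈ A, b ∉ h) ∧ X.dist v b = n :=
        ⟨_, o, ⟨right_mem_Itv v o, fun h hh => hh.2.2.1⟩, rfl⟩
      classical
      obtain ⟨b, hb1, hb2⟩ := Nat.find_spec hex
      refine ⟨b, hb1, fun b' hb' => ?_⟩
      rw [hb2]
      exact Nat.find_min' hex ⟨b', hb', rfl⟩
    set A' : Set (Set V) := {h | HS X h ∧ v ∈ h ∧ b ∉ h ∧ Nb X b hᶜ} with hA'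
    have hsub : A' ⊆ A := by
      rintro h ⟨hh, hv, hb, b1, hbb1, hb1⟩
      have hb1' : b1 ∈ h := by
        by_contra h1
        exact hb1 h1
      have hW : h = W X b1 b := hh.edge hX hbb1.symm hb1' hb
      have hvW : v ∈ W X b1 b := hW ▸ hv
      rw [mem_W] at hvW
      have hb1I : b1 ∈ Itv X v o := by
        rw [mem_Itv_iff hX]
        intro k hk h1 h2
        have h3 := (mem_Itv_iff hX).1 hbI k hk h1 h2
        by_contra h4
        have h5 := hk.edge hX hbb1 h3 h4
        rw [h5, mem_W] at h1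
        omega
      have h6 : ¬ ∀ h ∈ A, b1 ∉ h := by
        intro h7
        have := hbmin b1 ⟨hb1I, h7⟩
        omega
      push Not at h6
      obtain ⟨k, hk, hk1⟩ := h6
      have h8 := hk.1.edge hX hbb1.symm hk1 (hbA k hk)
      rw [hW, ← h8]
      exact hk
    by_cases hAA : A ⊆ A'
    · refine ⟨b, hbI, ?_, fun h h1 h2 h3 h4 => hbA h ⟨h1, h2, h3, h4⟩⟩
      intro h hh hv hb
      constructor
      · intro h1
        have ho : o ∉ h := fun ho => hb ((mem_Itv_iff hX).1 hbI h hh hv ho)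
        exact (hAA (show h ∈ A from ⟨hh, hv, ho, h1⟩)).2.2.2
      · intro h1
        exact (hsub (show h ∈ A' from ⟨hh, hv, hb, h1⟩)).2.2.2
    · exfalso
      rw [Set.not_subset] at hAA
      obtain ⟨a, haA, haA'⟩ := hAA
      have hlt : A'.ncard < n := by
        rw [← hn]
        exact Set.ncard_lt_ncard ⟨hsub, fun h => haA' (h haA)⟩ hAfin
      have hcard : {h | HS X h ∧ b ∈ h ∧ v ∉ h ∧ Nb X b h}.ncard = A'.ncard := by
        have : {h | HS X h ∧ b ∈ h ∧ v ∉ h ∧ Nb X b h} = compl '' A' := by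
          ext h
          constructor
          · rintro ⟨h1, h2, h3, h4⟩
            refine ⟨hᶜ, ⟨h1.compl hX, h3, fun h => h h2, ?_⟩, compl_compl _⟩
            rw [compl_compl]
            exact h4
          · rintro ⟨k, ⟨h1, h2, h3, h4⟩, rfl⟩
            exact ⟨h1.compl hX, h3, fun h => h h2, h4⟩
        rw [this]
        exact Set.ncard_image_of_injective _ compl_injective
      obtain ⟨v', hv'I, hgood, hv'⟩ := ih _ (hcard ▸ hlt) b v rfl
      have hN : Cell X (Itv X b v') := hgood.cell hX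
      have hgate : IsGate X (Itv X b v') v v' := by
        rw [isGate_iff hX]
        refine ⟨right_mem_Itv b v', fun l hl hc => ?_⟩
        rw [crs_itv hX hl] at hc
        have e1 := (mem_Itv_iff hX).1 hv'I l hl
        have e2 := (mem_Itv_iff' hX).1 hv'I l hl
        tauto
      -- walls of the star of `v'`
      have hstar : ∀ y ∈ Itv X b v', X.Adj v' y → W X v' y ∈ A' := by
        intro y hy hvy
        have hc : Crs (W X v' y) (Itv X b v') :=
          ⟨⟨v', right_mem_Itv b v', left_mem_W hvy⟩, y, hy, right_not_mem_W⟩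
        have hb : b ∉ W X v' y := by
          intro hb
          exact (crs_itv hX (HS_W hvy)).1 hc (iff_of_true hb (left_mem_W hvy))
        have h1 := ((hgood.symm hX) _ (HS_W hvy) (left_mem_W hvy) hb).1
          ⟨y, hvy, right_not_mem_W⟩
        exact ⟨HS_W hvy, (((isGate_iff hX).1 hgate).2 _ (HS_W hvy) hc).2 (left_mem_W hvy), hb, h1⟩
      obtain ⟨bs, hbs1, hbs2⟩ := parallel_copy hX hN hgate
        (fun y hy hvy => (hsub (hstar y hy hvy)).2.2.2) b (left_mem_Itv b v')
      by_cases hbb : b = bs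
      · -- then `v` lies in the cell
        have hvN : v ∈ Itv X b v' := by
          apply mem_of_same hX hN.gated (left_mem_Itv b v')
          intro k hk hc
          have := hbs2 k hk hc
          rw [← hbb] at this
          exact this.symm
        have hvv' : v = v' := by
          apply eq_of_HS hX
          intro k hk hvk
          by_cases hc : Crs k (Itv X b v')
          · exact (((isGate_iff hX).1 hgate).2 k hk hc).1 hvk
          · exact (not_crs hc hvN hgate.1).1 hvk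
        have hac : Crs a (Itv X b v') := ⟨⟨v, hvN, haA.2.1⟩, b, left_mem_Itv b v', hbA a haA⟩
        obtain ⟨u, hvu, hu⟩ := haA.2.2.2
        have haW : a = W X v u := haA.1.edge hX hvu haA.2.1 hu
        have huN : u ∈ Itv X b v' := by
          apply mem_of_same hX hN.gated hvN
          intro k hk hc
          refine (hk.same_side hX hvu ?_ ?_).symm
          · rintro rfl
            exact hc (haW ▸ hac)
          · rintro rfl
            exact hc (haW ▸ hac).compl
        subst hvv'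
        exact haA' (haW ▸ hstar u huN hvu)
      · obtain ⟨b1, h1, h2, -, -⟩ := step_toward hX hbb
        have hnc : ¬ Crs (W X b b1) (Itv X b v') := fun hc =>
          h2 ((hbs1 _ (HS_W h1) hc).2 (left_mem_W h1))
        have hvk : v ∉ W X b b1 := fun hv => h2 ((hbs2 _ (HS_W h1) hnc).2 hv)
        have h3 := hv' _ (HS_W h1) (left_mem_W h1) hvk ⟨b1, h1, right_not_mem_W⟩
        exact hnc ⟨⟨b, left_mem_Itv b v', left_mem_W h1⟩, v', right_mem_Itv b v', h3⟩

end Pool.Agent.Med7a
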