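import Pool.Agent.Lib.MP_7af17a_al.Cyc

/-!
# Halfspaces of a triangle-free mediangle graph
-/

namespace Pool.Agent.Med7a

variable {V : Type*} {X : SimpleGraph V}

/-- the vertices closer to `x` than to `y` -/
def W (X : SimpleGraph V) (x y : V) : Set V := {z | X.dist z x < X.dist z y}

theorem mem_W {x y z : V} : z ∈ W X x y ↔ X.dist z x < X.dist z y := Iff.rfl

theorem not_mem_W (hX : TF X) {x y z : V} (h : X.Adj x y) : z ∉ W X x y ↔ z ∈ W X y x := by
  simp only [mem_W]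
  have := hX.adj_or z h
  omega

theorem W_compl (hX : TF X) {x y : V} (h : X.Adj x y) : (W X x y)ᶜ = W X y x := by
  ext z
  rw [Set.mem_compl_iff, not_mem_W hX h]

theorem left_mem_W {x y : V} (h : X.Adj x y) : x ∈ W X x y := by
  rw [mem_W, SimpleGraph.dist_self, dist_adj h]
  exact Nat.one_pos

theorem right_not_mem_W {x y : V} : y ∉ W X x y := by
  rw [mem_W, SimpleGraph.dist_self]
  omega

/-- two dimensional cells: the vertex sets of convex cycles of even length -/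
def Cell2 (X : SimpleGraph V) (C : Set V) : Prop :=
  ∃ m : ℕ, 2 ≤ m ∧ ∃ c : ZMod (2 * m) → V, ConvexCycle X (2 * m) c ∧ Set.range c = C

theorem int_rep {m : ℕ} (hm : 2 ≤ m) (i j : ℤ) :
    ∃ k q : ℤ, -m ≤ k ∧ k < m ∧ j = i + k + 2 * m * q := by
  have hm' : (0 : ℤ) < 2 * m := by omega
  refine ⟨(j - i + m) % (2 * m) - m, (j - i + m) / (2 * m), ?_, ?_, ?_⟩
  · have := Int.emod_nonneg (j - i + m) hm'.ne'
    omega
  · have := Int.emod_lt_of_pos (j - i + m) hm'
    omega
  · have h1 := Int.emod_add_mul_ediv (j - i + m) (2 * m)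
    linarith

/-- opposite edges of a convex even cycle define the same halfspace -/
theorem W_opp (hX : TF X) {m : ℕ} (hm : 2 ≤ m) {c : ZMod (2 * m) → V}
    (hc : ConvexCycle X (2 * m) c) (i : ℤ) :
    W X (c i) (c ((i + 1 : ℤ))) = W X (c ((i + m + 1 : ℤ))) (c ((i + m : ℤ))) := by
  ext o
  rw [mem_W, mem_W]
  obtain ⟨i0, hi0⟩ := gate_cycle hX hm hc o
  have hcy := hc.cyc hX.med.connected hm
  obtain ⟨r, q, hr1, hr2, hr3⟩ := int_rep hm i0 i
  have e : ∀ t : ℤ, c ((i + t : ℤ)) = c ((i0 + (r + t) : ℤ)) := by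
    intro t
    have := hcy.per' (i0 + (r + t)) q
    rw [← this]
    congr 2
    rw [hr3]
    ring
  have e0 := e 0
  rw [add_zero, add_zero] at e0
  have h0 := hi0 r (by omega)
  have h1 := hi0 (r + 1) (by omega)
  rw [add_assoc, e m, e (m + 1), e 1, e0, h0, h1]
  rcases lt_or_ge r 0 with hr | hr
  · have h2 := hi0 (r + m) (by omega)
    have h3 := hi0 (r + (m + 1)) (by omega)
    rw [h2, h3]
    omega
  · have p1 : c ((i0 + (r + m) : ℤ)) = c ((i0 + (r - m) : ℤ)) := by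
      have := hcy.per (i0 + (r - m))
      rw [← this]
      congr 2
      ring
    have p2 : c ((i0 + (r + (m + 1)) : ℤ)) = c ((i0 + (r + 1 - m) : ℤ)) := by
      have := hcy.per (i0 + (r + 1 - m))
      rw [← this]
      congr 2
      ring
    have h2 := hi0 (r - m) (by omega)
    have h3 := hi0 (r + 1 - m) (by omega)
    rw [p1, p2, h2, h3]
    omega

/-- one step in the proof that the edges leaving a halfspace form one hyperplane -/
theorem hyp_step (hX : TF X) {x y u v : V} (hxy : X.Adj x y) (huv : X.Adj u v)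
    (hu : u ∈ W X x y) (hv : v ∉ W X x y) (hne : x ≠ u) :
    ∃ C p q, Cell2 X C ∧ x ∈ C ∧ y ∈ C ∧ p ∈ C ∧ q ∈ C ∧ X.Adj p q ∧ W X p q = W X x y ∧
      SameHyp X s(x, y) s(p, q) ∧ X.dist p u < X.dist x u := by
  have hcon := hX.med.connected
  rw [not_mem_W hX hxy, mem_W] at hv
  rw [mem_W] at hu
  have h1 := hX.adj_or u hxy
  have h2 := hX.adj_or v hxy
  have h3 := adj_dist_le hcon (o := x) huv
  have h3' := adj_dist_le hcon (o := x) huv.symm
  have h4 := adj_dist_le hcon (o := y) huv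
  have h4' := adj_dist_le hcon (o := y) huv.symm
  rw [X.dist_comm (u := x) (v := u), X.dist_comm (u := x) (v := v)] at h3 h3'
  rw [X.dist_comm (u := y) (v := u), X.dist_comm (u := y) (v := v)] at h4 h4'
  have hpos : 0 < X.dist u x := by
    rcases Nat.eq_zero_or_pos (X.dist u x) with h | h
    · exact absurd ((hcon.dist_eq_zero_iff).1 h).symm hne
    · exact h
  have hyv : X.dist y v = (X.dist u x - 1) + 1 := by
    rw [X.dist_comm]
    omega
  obtain ⟨y', hy1, hy2⟩ := exists_step hcon hyv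
  have hxy' : x ≠ y' := by
    rintro rfl
    rw [X.dist_comm] at hy2
    omega
  have hd1 : X.dist u y' ≤ X.dist u x := by
    have := adj_dist_le hcon (o := y') huv.symm
    rw [X.dist_comm (u := y') (v := u)] at this
    omega
  have hd2 : X.dist u y' + 1 = X.dist u y := by
    have := hX.adj_or u hy1
    omega
  obtain ⟨m, hm, c, hc, c0, c1, c2, c3, c4⟩ :=
    hX.med.cycle u x y' y hxy' hxy.symm hy1 (by omega) hd2
  have hcy := hc.cyc hcon hm
  have hmc : ((m : ℤ) : ZMod (2 * m)) = (m : ZMod (2 * m)) := Int.cast_natCast _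
  refine ⟨Set.range c, c ((m : ℤ)), c ((m + 1 : ℤ)), ⟨m, hm, c, hc, rfl⟩, ⟨1, c1⟩, ⟨0, c0⟩,
    ⟨_, rfl⟩, ⟨_, rfl⟩, hcy.adj m, ?_, ?_, ?_⟩
  · have h5 := W_opp hX hm hc 0
    have h6 : c ((0 : ℤ)) = y := by rw [Int.cast_zero]; exact c0
    have h7 : c ((0 + 1 : ℤ)) = x := by rw [zero_add, Int.cast_one]; exact c1
    rw [h6, h7, zero_add] at h5
    rw [← W_compl hX hxy, ← W_compl hX (hcy.adj m), compl_inj_iff] at h5
    exact h5.symm
  · have h5 := HypStep.opp m hm c hc 0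
    rw [c0, zero_add, c1] at h5
    have h6 : s(c ((0 : ZMod (2 * m)) + m), c ((0 : ZMod (2 * m)) + m + 1)) =
        s(c ((m : ℤ)), c ((m + 1 : ℤ))) := by
      rw [zero_add]
      push_cast
      rfl
    rw [h6, Sym2.eq_swap] at h5
    exact Relation.EqvGen.rel _ _ h5
  · have h5 : X.dist u x = X.dist u (c (m : ZMod (2 * m))) + X.dist (c (m : ZMod (2 * m))) x := c3
    have h6 : X.dist (c (m : ZMod (2 * m))) x = m - 1 := by
      have h7 := hcy.dist m 1 (by omega)
      rw [Int.cast_one, c1, hmc] at h7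
      rw [h7]
      omega
    rw [hmc, X.dist_comm, X.dist_comm (u := x)]
    omega

theorem hyp_main (hX : TF X) {x y u v : V} (hxy : X.Adj x y) (huv : X.Adj u v)
    (hu : u ∈ W X x y) (hv : v ∉ W X x y) :
    W X u v = W X x y ∧ SameHyp X s(x, y) s(u, v) := by
  have hcon := hX.med.connected
  suffices H : ∀ n : ℕ, ∀ x y : V, X.Adj x y → X.dist x u = n → u ∈ W X x y → v ∉ W X x y →
      W X u v = W X x y ∧ SameHyp X s(x, y) s(u, v) from H _ x y hxy rfl hu hv
  intro n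
  induction n using Nat.strong_induction_on with
  | _ n ih =>
    intro x y hxy hn hu hv
    by_cases hne : x = u
    · subst hne
      have : v = y := by
        rw [not_mem_W hX hxy, mem_W, X.dist_comm (v := x), dist_adj huv] at hv
        exact (hcon.dist_eq_zero_iff).1 (by omega)
      subst this
      exact ⟨rfl, Relation.EqvGen.refl _⟩
    · obtain ⟨C, p, q, -, -, -, -, -, hpq, h1, h2, h3⟩ := hyp_step hX hxy huv hu hv hne
      have h4 := ih _ (hn ▸ h3) p q hpq rfl (h1 ▸ hu) (h1 ▸ hv)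
      exact ⟨h4.1.trans h1, Relation.EqvGen.trans _ _ _ h2 h4.2⟩

/-- halfspaces -/
def HS (X : SimpleGraph V) (h : Set V) : Prop := ∃ x y, X.Adj x y ∧ h = W X x y

theorem HS.compl (hX : TF X) {h : Set V} (hh : HS X h) : HS X hᶜ := by
  obtain ⟨x, y, hxy, rfl⟩ := hh
  exact ⟨y, x, hxy.symm, W_compl hX hxy⟩

theorem HS.edge (hX : TF X) {h : Set V} (hh : HS X h) {u v : V} (huv : X.Adj u v) (hu : u ∈ h)
    (hv : v ∉ h) : h = W X u v := by
  obtain ⟨x, y, hxy, rfl⟩ := hh
  exact (hyp_main hX hxy huv hu hv).1.symm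

theorem HS_W {x y : V} (h : X.Adj x y) : HS X (W X x y) := ⟨x, y, h, rfl⟩

/-- edges separated by the same halfspace -/
theorem HS.same (hX : TF X) {h : Set V} (hh : HS X h) {u v u' v' : V} (huv : X.Adj u v)
    (hu : u ∈ h) (hv : v ∉ h) (huv' : X.Adj u' v') (hu' : u' ∈ h) (hv' : v' ∉ h) :
    SameHyp X s(u, v) s(u', v') := by
  have h1 := hh.edge hX huv hu hv
  subst h1
  exact (hyp_main hX huv huv' hu' hv').2

/-- an edge crosses only one wall -/
theorem HS.same_side (hX : TF X) {h : Set V} (hh : HS X h) {u v : V} (huv : X.Adj u v)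
    (h1 : h ≠ W X u v) (h2 : h ≠ (W X u v)ᶜ) : u ∈ h ↔ v ∈ h := by
  constructor
  · intro h3
    by_contra h4
    exact h1 (hh.edge hX huv h3 h4)
  · intro h3
    by_contra h4
    apply h2
    rw [W_compl hX huv]
    exact hh.edge hX huv.symm h3 h4

/-- the halfspaces containing `x` and not `y` -/
def Sep (X : SimpleGraph V) (x y : V) : Set (Set V) := {h | HS X h ∧ x ∈ h ∧ y ∉ h}

theorem sep_step (hX : TF X) {x y z : V} (h : X.Adj x z) (hd : X.dist z y + 1 = X.dist x y) :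
    Sep X x y = insert (W X x z) (Sep X z y) ∧ W X x z ∉ Sep X z y := by
  have hy : y ∉ W X x z := by
    rw [mem_W, X.dist_comm (u := y) (v := x), X.dist_comm (u := y) (v := z)]
    omega
  constructor
  · ext k
    constructor
    · rintro ⟨h1, h2, h3⟩
      by_cases h4 : z ∈ k
      · exact Or.inr ⟨h1, h4, h3⟩
      · exact Or.inl (h1.edge hX h h2 h4)
    · rintro (rfl | ⟨h1, h2, h3⟩)
      · exact ⟨HS_W h, left_mem_W h, hy⟩
      · refine ⟨h1, ?_, h3⟩
        by_contra h4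
        have h5 := h1.edge hX h.symm h2 h4
        rw [h5, ← W_compl hX h] at h3
        exact h3 hy
  · intro h1
    exact right_not_mem_W h1.2.1

theorem sep_card (hX : TF X) (x y : V) :
    (Sep X x y).Finite ∧ (Sep X x y).ncard = X.dist x y := by
  have hcon := hX.med.connected
  suffices H : ∀ n : ℕ, ∀ x, X.dist x y = n → (Sep X x y).Finite ∧ (Sep X x y).ncard = n by
    exact H _ x rfl
  intro n
  induction n with
  | zero =>
    intro x h
    have : x = y := (hcon.dist_eq_zero_iff).1 h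
    subst this
    have : Sep X x x = ∅ := by
      ext k
      simp [Sep]
    rw [this]
    simp
  | succ n ih =>
    intro x h
    obtain ⟨z, h1, h2⟩ := exists_step hcon h
    obtain ⟨h3, h4⟩ := sep_step hX h1 (y := y) (by omega)
    obtain ⟨h5, h6⟩ := ih z h2
    rw [h3]
    exact ⟨h5.insert _, by rw [Set.ncard_insert_of_notMem h4 h5, h6]⟩

theorem sep_finite (hX : TF X) (x y : V) : (Sep X x y).Finite := (sep_card hX x y).1

theorem sep_ncard (hX : TF X) (x y : V) : (Sep X x y).ncard = X.dist x y := (sep_card hX x y).2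

/-- vertices are separated by halfspaces -/
theorem eq_of_HS (hX : TF X) {x y : V} (h : ∀ k, HS X k → x ∈ k → y ∈ k) : x = y := by
  rw [← hX.med.connected.dist_eq_zero_iff, ← sep_ncard hX, Set.ncard_eq_zero (sep_finite hX x y)]
  ext k
  simp only [Sep, Set.mem_ofPred_eq, Set.mem_empty_iff_false, iff_false]
  rintro ⟨h1, h2, h3⟩
  exact h3 (h k h1 h2)

theorem mem_Itv_iff (hX : TF X) {x y z : V} :
    z ∈ Itv X x y ↔ ∀ k, HS X k → x ∈ k → y ∈ k → z ∈ k := by
  have hcon := hX.med.connected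
  have hdisj : Disjoint (Sep X x z) (Sep X z y) := by
    rw [Set.disjoint_left]
    rintro k ⟨-, -, h⟩ ⟨-, h', -⟩
    exact h h'
  have hun : (Sep X x z ∪ Sep X z y).ncard = X.dist x z + X.dist z y := by
    rw [Set.ncard_union_eq hdisj (sep_finite hX _ _) (sep_finite hX _ _), sep_ncard hX,
      sep_ncard hX]
  constructor
  · intro h k hk hx hy
    by_contra hz
    have h1 : Sep X x y ⊆ (Sep X x z ∪ Sep X z y) \ {k} := by
      rintro k' ⟨h1, h2, h3⟩
      refine ⟨?_, ?_⟩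
      · by_cases h4 : z ∈ k'
        · exact Or.inr ⟨h1, h4, h3⟩
        · exact Or.inl ⟨h1, h2, h4⟩
      · rintro rfl
        exact h3 hy
    have hfin : (Sep X x z ∪ Sep X z y).Finite := (sep_finite hX _ _).union (sep_finite hX _ _)
    have h2 := Set.ncard_le_ncard h1 (hfin.sdiff)
    have h3 : k ∈ Sep X x z ∪ Sep X z y := Or.inl ⟨hk, hx, hz⟩
    have h4 := Set.ncard_sdiff_singleton_add_one h3 hfin
    rw [sep_ncard hX] at h2
    have h5 : X.dist x y = X.dist x z + X.dist z y := h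
    omega
  · intro h
    have h1 : Sep X x z ∪ Sep X z y ⊆ Sep X x y := by
      rintro k (⟨h1, h2, h3⟩ | ⟨h1, h2, h3⟩)
      · exact ⟨h1, h2, fun h4 => h3 (h k h1 h2 h4)⟩
      · refine ⟨h1, ?_, h3⟩
        by_contra h4
        exact (h kᶜ (h1.compl hX) h4 h3) h2
    have h2 := Set.ncard_le_ncard h1 (sep_finite hX _ _)
    rw [hun, sep_ncard hX] at h2
    exact le_antisymm hcon.dist_triangle h2

theorem mem_Itv_iff' (hX : TF X) {x y z : V} :
    z ∈ Itv X x y ↔ ∀ k, HS X k → x ∉ k → y ∉ k → z ∉ k := by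
  rw [mem_Itv_iff hX]
  constructor
  · intro h k hk hx hy
    exact h kᶜ (hk.compl hX) hx hy
  · intro h k hk hx hy
    by_contra hz
    exact h kᶜ (hk.compl hX) (fun h => h hx) (fun h => h hy) hz

/-- adjacency from separation -/
theorem adj_of_sep (hX : TF X) {x y : V} {h : Set V} (hh : HS X h) (hx : x ∈ h) (hy : y ∉ h)
    (hs : ∀ k, HS X k → x ∈ k → y ∉ k → k = h) : X.Adj x y ∧ h = W X x y := by
  have h1 : Sep X x y = {h} := by
    ext k
    constructor
    · rintro ⟨h1, h2, h3⟩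
      exact hs k h1 h2 h3
    · rintro rfl
      exact ⟨hh, hx, hy⟩
  have h2 : X.dist x y = 1 := by
    rw [← sep_ncard hX, h1, Set.ncard_singleton]
  have h3 := SimpleGraph.dist_eq_one_iff_adj.1 h2
  exact ⟨h3, hh.edge hX h3 hx hy⟩

/-- the halfspace `h` crosses `M` -/
def Crs (h : Set V) (M : Set V) : Prop := (∃ a ∈ M, a ∈ h) ∧ ∃ b ∈ M, b ∉ h

theorem Crs.compl {h M : Set V} (hc : Crs h M) : Crs hᶜ M := by
  obtain ⟨⟨a, h1, h2⟩, b, h3, h4⟩ := hc
  exact ⟨⟨b, h3, h4⟩, a, h1, fun h => h h2⟩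

theorem Crs.mono {h M M' : Set V} (hc : Crs h M) (hs : M ⊆ M') : Crs h M' := by
  obtain ⟨⟨a, h1, h2⟩, b, h3, h4⟩ := hc
  exact ⟨⟨a, hs h1, h2⟩, b, hs h3, h4⟩

theorem not_crs {h M : Set V} (hc : ¬ Crs h M) {a b : V} (ha : a ∈ M) (hb : b ∈ M) :
    a ∈ h ↔ b ∈ h := by
  constructor
  · intro h1
    by_contra h2
    exact hc ⟨⟨a, ha, h1⟩, b, hb, h2⟩
  · intro h1
    by_contra h2
    exact hc ⟨⟨b, hb, h1⟩, a, ha, h2⟩

/-- `g` is a gate of `x` in `M` -/
def IsGate (X : SimpleGraph V) (M : Set V) (x g : V) : Prop :=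
  g ∈ M ∧ ∀ z ∈ M, g ∈ Itv X x z

theorem isGate_iff (hX : TF X) {M : Set V} {x g : V} :
    IsGate X M x g ↔ g ∈ M ∧ ∀ h, HS X h → Crs h M → (x ∈ h ↔ g ∈ h) := by
  constructor
  · rintro ⟨h1, h2⟩
    refine ⟨h1, ?_⟩
    rintro h hh ⟨⟨a, ha, ha'⟩, b, hb, hb'⟩
    constructor
    · intro h3
      exact (mem_Itv_iff hX).1 (h2 a ha) h hh h3 ha'
    · intro h3
      by_contra h4
      exact (mem_Itv_iff' hX).1 (h2 b hb) h hh h4 hb' h3
  · rintro ⟨h1, h2⟩
    refine ⟨h1, fun z hz => ?_⟩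
    rw [mem_Itv_iff hX]
    intro k hk hx hz'
    by_contra h3
    exact h3 ((h2 k hk ⟨⟨z, hz, hz'⟩, g, h1, h3⟩).1 hx)

theorem gated_iff (hX : TF X) {M : Set V} :
    Gated X M ↔ ∀ x, ∃ g ∈ M, ∀ h, HS X h → Crs h M → (x ∈ h ↔ g ∈ h) := by
  constructor
  · intro h x
    obtain ⟨g, h1, h2⟩ := h x
    exact ⟨g, h1, ((isGate_iff hX).1 ⟨h1, h2⟩).2⟩
  · intro h x
    obtain ⟨g, h1, h2⟩ := h x
    exact ⟨g, h1, ((isGate_iff hX).2 ⟨h1, h2⟩).2⟩

end Pool.Agent.Med7a
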