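import Pool.Agent.Lib.MP_7af17a_al.Stable

/-!
# Bounded orbits: existence of a finite orbit
-/

namespace Pool.Agent.Med7a

open Pointwise

variable {V : Type*} {X : SimpleGraph V}

/-! ### unoriented separation -/

/-- all halfspaces (with their complements) separating `x` and `y` -/
def SS (X : SimpleGraph V) (x y : V) : Set (Set V) := {h | HS X h ∧ ¬ (x ∈ h ↔ y ∈ h)}

theorem SS_eq (hX : TF X) (x y : V) : SS X x y = Sep X x y ∪ Sep X y x := by
  ext h
  simp only [SS, Sep, Set.mem_ofPred_eq, Set.mem_union]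
  tauto

theorem SS_finite (hX : TF X) (x y : V) : (SS X x y).Finite := by
  rw [SS_eq hX]
  exact (sep_finite hX x y).union (sep_finite hX y x)

theorem SS_le (hX : TF X) (x y : V) : (SS X x y).ncard ≤ 2 * X.dist x y := by
  rw [SS_eq hX]
  refine (Set.ncard_union_le _ _).trans ?_
  rw [sep_ncard hX, sep_ncard hX, X.dist_comm (u := y)]
  omega

theorem SS_symmDiff (x y z : V) : SS X x z = symmDiff (SS X x y) (SS X y z) := by
  ext h
  simp only [SS, Set.mem_ofPred_eq, Set.mem_symmDiff]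
  tauto

theorem SS_comm (x y : V) : SS X x y = SS X y x := by
  ext h
  simp only [SS, Set.mem_ofPred_eq]
  tauto

theorem eq_of_SS (hX : TF X) {x y : V} (h : SS X x y = ∅) : x = y := by
  apply eq_of_HS hX
  intro k hk hx
  by_contra hy
  have : k ∈ SS X x y := ⟨hk, by tauto⟩
  rw [h] at this
  exact this

theorem SS_compl (hX : TF X) {x y : V} {h : Set V} (hh : h ∈ SS X x y) : hᶜ ∈ SS X x y := by
  refine ⟨hh.1.compl hX, ?_⟩
  have := hh.2
  simp only [Set.mem_compl_iff]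
  tauto

theorem ncard_symmDiff {α : Type*} {P Q : Set α} (hP : P.Finite) (hQ : Q.Finite) :
    (symmDiff P Q).ncard + 2 * (P ∩ Q).ncard = P.ncard + Q.ncard := by
  have h1 : symmDiff P Q = (P \ Q) ∪ (Q \ P) := rfl
  have h2 : (symmDiff P Q).ncard = (P \ Q).ncard + (Q \ P).ncard := by
    rw [h1]
    apply Set.ncard_union_eq _ (hP.subset Set.sdiff_subset) (hQ.subset Set.sdiff_subset)
    rw [Set.disjoint_left]
    rintro a ⟨_, h⟩ ⟨h', _⟩
    exact h h'
  have h3 := Set.ncard_inter_add_ncard_sdiff_eq_ncard P Q hP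
  have h4 := Set.ncard_inter_add_ncard_sdiff_eq_ncard Q P hQ
  rw [Set.inter_comm Q P] at h4
  omega

/-! ### realisation of orientations -/

theorem walls_cell2_finite (hX : TF X) {C : Set V} (hC : Cell2 X C) :
    {h | HS X h ∧ Crs h C}.Finite := by
  obtain ⟨x, hx⟩ := (hC.cell hX).ne
  obtain ⟨x', hx', h2⟩ := (hC.cell hX).anti x hx
  refine (SS_finite hX x x').subset ?_
  rintro h ⟨h3, h4⟩
  refine ⟨h3, ?_⟩
  have := h2 h h3 h4
  tauto

/-- If a finite set `A` of walls is, on each finite set of walls, the set of walls separating `x0`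
from some vertex, then it is the set of walls separating `x0` from some vertex. -/
theorem realise (hX : TF X) (x0 : V) (A : Set (Set V)) (hA : A.Finite)
    (happ : ∀ F : Set (Set V), F.Finite → ∃ x, ∀ f ∈ F, (f ∈ SS X x0 x ↔ f ∈ A)) :
    ∃ z, SS X x0 z = A := by
  have hcon := hX.med.connected
  let E : V → Set (Set V) := fun z => symmDiff (SS X x0 z) A
  have hEf : ∀ z, (E z).Finite := fun z => by
    refine ((SS_finite hX x0 z).union hA).subset ?_
    rintro h (⟨h1, -⟩ | ⟨h1, -⟩)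
    · exact Or.inl h1
    · exact Or.inr h1
  have hAS : ∀ f ∈ A, HS X f ∧ fᶜ ∈ A := by
    intro f hf
    obtain ⟨x, hx⟩ := happ {f, fᶜ} (by simp)
    have h1 := (hx f (by simp)).2 hf
    exact ⟨h1.1, (hx fᶜ (by simp)).1 (SS_compl hX h1)⟩
  have hES : ∀ z, ∀ f ∈ E z, HS X f ∧ fᶜ ∈ E z := by
    rintro z f (⟨h1, h2⟩ | ⟨h1, h2⟩)
    · refine ⟨h1.1, Or.inl ⟨SS_compl hX h1, fun h3 => h2 ?_⟩⟩
      have := (hAS _ h3).2
      rwa [compl_compl] at this
    · refine ⟨(hAS f h1).1, Or.inr ⟨(hAS f h1).2, fun h3 => h2 ?_⟩⟩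
      have := SS_compl hX h3
      rwa [compl_compl] at this
  -- approximants see `E z`
  have happE : ∀ z x f, (f ∈ SS X x0 x ↔ f ∈ A) → (f ∈ SS X z x ↔ f ∈ E z) := by
    intro z x f hf
    rw [SS_symmDiff z x0 x, SS_comm z x0]
    simp only [E, Set.mem_symmDiff]
    tauto
  -- minimal disagreement
  obtain ⟨z, hzmin⟩ : ∃ z, ∀ z', (E z).ncard ≤ (E z').ncard := by
    have hex : ∃ n, ∃ z, (E z).ncard = n := ⟨_, x0, rfl⟩
    classical
    obtain ⟨z, hz⟩ := Nat.find_spec hex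
    refine ⟨z, fun z' => ?_⟩
    rw [hz]
    exact Nat.find_min' hex ⟨z', rfl⟩
  refine ⟨z, ?_⟩
  by_contra hne
  have hEne : (E z).Nonempty := by
    rw [Set.nonempty_iff_ne_empty]
    intro h
    apply hne
    ext f
    have h1 : f ∉ E z := by rw [h]; exact Set.notMem_empty f
    simp only [E, Set.mem_symmDiff] at h1
    tauto
  -- closest wall in `E z`
  obtain ⟨J, y, ⟨hJE, hzJ, hyJ⟩, hmin⟩ : ∃ J y, (J ∈ E z ∧ z ∈ J ∧ y ∉ J) ∧
      ∀ J' y', (J' ∈ E z ∧ z ∈ J' ∧ y' ∉ J') → X.dist y z ≤ X.dist y' z := by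
    have hex : ∃ n, ∃ J y, (J ∈ E z ∧ z ∈ J ∧ y ∉ J) ∧ X.dist y z = n := by
      obtain ⟨f, hf⟩ := hEne
      obtain ⟨J, hJ, hzJ⟩ : ∃ J ∈ E z, z ∈ J := by
        by_cases hzf : z ∈ f
        · exact ⟨f, hf, hzf⟩
        · exact ⟨fᶜ, (hES z f hf).2, hzf⟩
      obtain ⟨a, b, hab, rfl⟩ := (hES z J hJ).1
      exact ⟨_, _, b, ⟨hJ, hzJ, right_not_mem_W⟩, rfl⟩
    classical
    obtain ⟨J, y, h1, h2⟩ := Nat.find_spec hex
    refine ⟨J, y, h1, fun J' y' h3 => ?_⟩
    rw [h2]
    exact Nat.find_min' hex ⟨J', y', h3, rfl⟩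
  have hyz : y ≠ z := by
    rintro rfl
    exact hyJ hzJ
  obtain ⟨y1, a1, -, -, a4⟩ := step_toward hX hyz
  have hy1J : y1 ∈ J := by
    by_contra h
    have := hmin J y1 ⟨hJE, hzJ, h⟩
    omega
  have hJW : J = W X y1 y := (hES z J hJE).1.edge hX a1.symm hy1J hyJ
  by_cases hy1z : y1 = z
  · -- cross the wall `J`
    subst hy1z
    have hss : SS X y1 y = {J, Jᶜ} := by
      ext h
      constructor
      · rintro ⟨h1, h2⟩
        by_cases h3 : y1 ∈ h
        · left
          rw [hJW]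
          exact h1.edge hX a1.symm h3 (fun h => h2 (iff_of_true h3 h))
        · right
          have h4 : y ∈ h := by
            by_contra h4
            exact h2 (iff_of_false h3 h4)
          rw [Set.mem_singleton_iff, hJW, W_compl hX a1.symm]
          exact h1.edge hX a1 h4 h3
      · rintro (rfl | rfl)
        · exact ⟨(hES y1 _ hJE).1, fun h => hyJ (h.1 hy1J)⟩
        · exact SS_compl hX ⟨(hES y1 _ hJE).1, fun h => hyJ (h.1 hy1J)⟩
    have hEy : E y ⊂ E y1 := by
      have h1 : E y = symmDiff (E y1) (SS X y1 y) := by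
        simp only [E]
        rw [SS_symmDiff x0 y1 y, symmDiff_assoc, symmDiff_assoc, symmDiff_comm A]
      rw [h1, hss]
      constructor
      · rintro f (⟨h2, -⟩ | ⟨h2, h3⟩)
        · exact h2
        · exfalso
          apply h3
          rcases h2 with rfl | rfl
          · exact hJE
          · exact (hES y1 J hJE).2
      · intro h2
        have h3 := h2 hJE
        rcases h3 with ⟨-, h3⟩ | ⟨-, h3⟩
        · exact h3 (Or.inl rfl)
        · exact h3 hJE
    have := Set.ncard_lt_ncard hEy (hEf y1)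
    have := hzmin y
    omega
  · obtain ⟨y2, b1, b2, b3, b4⟩ := step_toward hX hy1z
    have hKS : HS X (W X y1 y2) := HS_W b1
    have hzK : z ∈ W X y2 y1 := by
      rw [← W_compl hX b1]
      exact b2
    have hKE : W X y2 y1 ∉ E z := by
      intro h
      have := hmin _ y1 ⟨h, hzK, right_not_mem_W⟩
      omega
    obtain ⟨x, hx⟩ := happ {J, W X y2 y1} (by simp)
    have hxJ : x ∉ J := by
      intro h
      have := (happE z x J (hx J (by simp))).2 hJE
      exact this.2 (iff_of_true hzJ h)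
    have hxK : x ∈ W X y2 y1 := by
      by_contra h
      apply hKE
      rw [← happE z x _ (hx (W X y2 y1) (by simp))]
      exact ⟨HS_W b1.symm, fun h' => h (h'.1 hzK)⟩
    have hyy2 : y ≠ y2 := by
      rintro rfl
      omega
    obtain ⟨C, hC, c0, c1, c2, -⟩ := exists_cell2 hX (o := x) hyy2 a1.symm b1
      (by rw [← hJW]; exact hxJ)
      (by rw [← W_compl hX b1.symm]; exact fun h => h hxK)
    obtain ⟨x', hx'⟩ := happ _ (walls_cell2_finite hX hC)
    obtain ⟨γ, γ1, γ2⟩ := (hC.cell hX).gated z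
    obtain ⟨g, g1, g2⟩ := (hC.cell hX).gated x'
    have γ3 := ((isGate_iff hX).1 ⟨γ1, γ2⟩).2
    have g3 := ((isGate_iff hX).1 ⟨g1, g2⟩).2
    have hJS := (hES z J hJE).1
    have hJC : Crs J C := ⟨⟨y1, c0, hy1J⟩, y, c1, hyJ⟩
    have hx'J : x' ∉ J := by
      intro h
      have := (happE z x' J (hx' J ⟨hJS, hJC⟩)).2 hJE
      exact this.2 (iff_of_true hzJ h)
    have hγg : γ ≠ g := by
      rintro rfl
      exact hx'J ((g3 J hJS hJC).2 ((γ3 J hJS hJC).1 hzJ))
    obtain ⟨δ, d1, d2, d3, -⟩ := step_toward hX hγg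
    have hδC : δ ∈ C := (hC.cell hX).gated.conv hX γ γ1 g g1 d3
    have hK1C : Crs (W X γ δ) C := ⟨⟨γ, γ1, left_mem_W d1⟩, δ, hδC, right_not_mem_W⟩
    have hzK1 : z ∈ W X γ δ := (γ3 _ (HS_W d1) hK1C).2 (left_mem_W d1)
    have hx'K1 : x' ∉ W X γ δ := fun h => d2 ((g3 _ (HS_W d1) hK1C).1 h)
    have hK1E : W X γ δ ∈ E z := by
      rw [← happE z x' _ (hx' _ ⟨HS_W d1, hK1C⟩)]
      exact ⟨HS_W d1, fun h => hx'K1 (h.1 hzK1)⟩
    have e1 := hmin _ δ ⟨hK1E, hzK1, right_not_mem_W⟩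
    have e2 := adj_dist_le hcon (o := z) d1
    have e3 : X.dist z y1 = X.dist z γ + X.dist γ y1 := γ2 y1 c0
    have e4 : X.dist z y2 = X.dist z γ + X.dist γ y2 := γ2 y2 c2
    rw [X.dist_comm (u := δ)] at e1
    rw [X.dist_comm (u := y1) (v := z)] at a4 b4
    rw [X.dist_comm (u := y2) (v := z)] at b4
    have e5 : X.dist γ y1 ≠ 0 := by
      intro h
      omega
    omega

end Pool.Agent.Med7a
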