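import Pool.Agent.Lib.MP_7af17a_al.Fixed
import Pool.Agent.Lib.MP_7af17a_al.Count

/-!
# The poset of stable cells has Euler characteristic one; stable cells for solvable groups
-/

namespace Pool.Agent.Med7a

open Pointwise

variable {V : Type*} {X : SimpleGraph V}

variable {G : Type*} [Group G] [MulAction G V]

/-- the cells in `Y` which are stable under all elements of `N` -/
def QN (X : SimpleGraph V) (Y : Set V) (N : Subgroup G) : Set (Set V) :=
  {M | Cell X M ∧ M ⊆ Y ∧ ∀ g ∈ N, g • M = M}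

theorem QN_finite {Y : Set V} (hY : Y.Finite) (N : Subgroup G) : (QN X Y N).Finite :=
  hY.finite_subsets.subset fun _ hM => hM.2.1

theorem cell_singleton (_hX : TF X) (y : V) : Cell X {y} := by
  refine ⟨⟨y, rfl⟩, fun x => ⟨y, rfl, ?_⟩, ?_⟩
  · rintro z rfl
    exact right_mem_Itv x z
  · rintro x rfl
    refine ⟨x, rfl, ?_⟩
    rintro h - ⟨⟨a, rfl, ha⟩, b, rfl, hb⟩
    exact absurd ha hb

theorem euler_cells (hX : TF X) (ha : Acts X G) {Y : Set V} (hYf : Y.Finite) (hYc : Conv X Y)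
    (N : Subgroup G) (hne : (QN X Y N).Nonempty) [Fintype (QN X Y N)] :
    ∃ t : QN X Y N → QN X Y N, (∀ a, ∃ o, GoodSet t (fun b => b ≤ a) o) ∧
      ∃ o, GoodSet t (fun _ => True) o := by
  obtain ⟨O, hO, hOmin⟩ := (QN_finite hYf N).exists_minimal hne
  have hmin : ∀ M ∈ QN X Y N, M ⊆ O → M = O := fun M hM hMO =>
    Set.Subset.antisymm hMO (hOmin hM hMO)
  -- all stable cells are crossed by the walls of `O`
  have hwalls : ∀ M ∈ QN X Y N, ∀ h, HS X h → Crs h O → Crs h M := by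
    intro M hM h hh hc
    have h1 : proj X O M ∈ QN X Y N := by
      refine ⟨hO.1.proj hX hM.1, proj_sub.trans hO.2.1, fun g hg => ?_⟩
      rw [ha.proj hX g, hO.2.2 g hg, hM.2.2 g hg]
    have h2 := hmin _ h1 proj_sub
    rw [← h2] at hc
    exact (crs_of_proj hX hh hc).2
  have htp : ∀ M ∈ QN X Y N, tp X O M ∈ QN X Y N := by
    intro M hM
    refine ⟨cell_tp hX hO.1 hM.1 (hwalls M hM), (topC_tp hX hO.1 hM.1 (hwalls M hM)).1.trans
      hM.2.1, fun g hg => ?_⟩
    rw [ha.tp hX g, hO.2.2 g hg, hM.2.2 g hg]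
  let t : QN X Y N → QN X Y N := fun M => ⟨tp X O M.1, htp M.1 M.2⟩
  have key : ∀ (Z : Set V) (B : QN X Y N), Conv X Z → B.1 ⊆ Z →
      (∀ h, HS X h → (Crs h B.1 ↔ Crs h O)) →
      (∀ M' ∈ QN X Y N, M' ⊆ Z → ∀ T, TopC X O M' T ↔ TopC X B.1 M' T) →
      GoodSet t (fun a => a.1 ⊆ Z) B := by
    intro Z B hZ hBZ hBw hrel
    refine ⟨hBZ, ?_, ?_, ?_, ?_⟩
    · intro b hb
      apply Subtype.ext
      exact eq_of_walls hX b.2.1.gated b.2.1.ne hb
        (fun k hk hc => hwalls b.1 b.2 k hk ((hBw k hk).1 hc))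
    · apply Subtype.ext
      show tp X O B.1 = B.1
      refine (topC_unique hX hO.1 B.2.1 (hwalls B.1 B.2) B.2.1 hBw ?_).symm
      rw [hrel B.1 B.2 hBZ]
      exact ⟨subset_rfl, fun h _ h1 h2 => absurd h1 h2⟩
    · intro a haZ hta
      have hta' : tp X O a.1 = B.1 := congrArg Subtype.val hta
      apply Subtype.ext
      have h1 := topC_tp hX hO.1 a.2.1 (hwalls a.1 a.2)
      rw [hta', hrel a.1 a.2 haZ] at h1
      refine (eq_of_walls hX B.2.1.gated B.2.1.ne h1.1 ?_).symm
      intro k hk hc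
      by_contra hnc
      obtain ⟨x, hx⟩ := B.2.1.ne
      have := h1.2 k hk hc hnc x hx x hx
      tauto
    · intro a haZ hta
      have hTmem := htp a.1 a.2
      have hTw : ∀ h, HS X h → (Crs h (tp X O a.1) ↔ Crs h B.1) := by
        intro h hh
        rw [crs_tp hX hO.1 a.2.1 (hwalls a.1 a.2) hh, hBw h hh]
      have hTB : tp X O a.1 ≠ B.1 := fun h => hta (Subtype.ext h)
      have hTa : tp X O a.1 ⊆ a.1 := (topC_tp hX hO.1 a.2.1 (hwalls a.1 a.2)).1
      obtain ⟨M, hM1, hM2, hM3, hM4, hM5⟩ := exists_max hX B.2.1 hTmem.1 hTw hTB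
      have hMmem : M ∈ QN X Y N := by
        refine ⟨hM1, hM5 Y hYc (hTa.trans a.2.2.1) B.2.2.1, ?_⟩
        have hsub : ∀ g ∈ N, g • M ⊆ M := by
          intro g hg
          apply hM4 _ (ha.cell hX g hM1)
          have := ha.topC hX g hM2
          rwa [B.2.2.2 g hg, hTmem.2.2 g hg] at this
        intro g hg
        apply Set.Subset.antisymm (hsub g hg)
        have := Set.smul_set_mono (a := g) (hsub g⁻¹ (N.inv_mem hg))
        rwa [smul_inv_smul] at this
      have hMZ : M ⊆ Z := hM5 Z hZ (hTa.trans haZ) hBZ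
      have htM : tp X O M = tp X O a.1 := by
        refine (topC_unique hX hO.1 hM1 (hwalls M hMmem) hTmem.1 ?_ ?_).symm
        · intro h hh
          exact crs_tp hX hO.1 a.2.1 (hwalls a.1 a.2) hh
        · rw [hrel M hMmem hMZ]
          exact hM2
      refine ⟨⟨M, hMmem⟩, hMZ, Subtype.ext htM, fun h => hM3 (congrArg Subtype.val h), ?_⟩
      intro a' ha'Z hta'
      apply hM4 a'.1 a'.2.1
      rw [← hrel a'.1 a'.2 ha'Z]
      have h1 := topC_tp hX hO.1 a'.2.1 (hwalls a'.1 a'.2)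
      have h2 : tp X O a'.1 = tp X O a.1 := congrArg Subtype.val hta'
      rwa [h2] at h1
  refine ⟨t, fun a => ?_, ?_⟩
  · have hB : proj X a.1 O ∈ QN X Y N := by
      refine ⟨a.2.1.proj hX hO.1, proj_sub.trans a.2.2.1, fun g hg => ?_⟩
      rw [ha.proj hX g, hO.2.2 g hg, a.2.2.2 g hg]
    refine ⟨⟨_, hB⟩, key a.1 ⟨_, hB⟩ (a.2.1.gated.conv hX) proj_sub ?_ ?_⟩
    · intro h hh
      exact ⟨fun hc => (crs_of_proj hX hh hc).2, fun hc =>
        crs_proj hX a.2.1.gated hh (hwalls a.1 a.2 h hh hc) hc⟩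
    · intro M' hM' hM'a T
      have aux : ∀ h, HS X h → Crs h M' → ∀ z : V,
          (∀ x ∈ O, (z ∈ h ↔ x ∉ h)) ↔ (∀ x ∈ proj X a.1 O, (z ∈ h ↔ x ∉ h)) := by
        intro h hh hc z
        have hca := hc.mono hM'a
        constructor
        · rintro h1 x' ⟨x, hx, hgx⟩
          rw [h1 x hx, ((isGate_iff hX).1 hgx).2 h hh hca]
        · intro h1 x hx
          obtain ⟨g, hg1, hg2⟩ := a.2.1.gated x
          rw [h1 g ⟨x, hx, hg1, hg2⟩, ((isGate_iff hX).1 ⟨hg1, hg2⟩).2 h hh hca]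
      constructor
      · rintro ⟨h1, h2⟩
        refine ⟨h1, fun h hh hc hnc x hx z hz => ?_⟩
        exact (aux h hh hc z).1 (fun x hx => h2 h hh hc hnc x hx z hz) x hx
      · rintro ⟨h1, h2⟩
        refine ⟨h1, fun h hh hc hnc x hx z hz => ?_⟩
        exact (aux h hh hc z).2 (fun x hx => h2 h hh hc hnc x hx z hz) x hx
  · refine ⟨⟨O, hO⟩, ?_⟩
    have h1 := key Y ⟨O, hO⟩ hYc hO.2.1 (fun _ _ => Iff.rfl) (fun _ _ _ _ => Iff.rfl)
    have h2 : (fun a : QN X Y N => a.1 ⊆ Y) = fun _ => True := by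
      funext a
      simp only [eq_iff_iff, iff_true]
      exact a.2.2.1
    rwa [h2] at h1

/-- Stable cells in a finite convex invariant set, when the group acts through a finite solvable
group. -/
theorem stable_of_solvable (hX : TF X) (ha : Acts X G) {Y : Set V} (hYf : Y.Finite)
    (hYc : Conv X Y) (hYne : Y.Nonempty) (hYG : ∀ g : G, g • Y = Y)
    {Γ : Type*} [Group Γ] [Finite Γ] [Group.IsSolvable Γ] (π : G →* Γ)
    (hπ : Function.Surjective π) (hker : ∀ g : G, π g = 1 → ∀ y ∈ Y, g • y = y) :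
    ∃ M, Cell X M ∧ M ⊆ Y ∧ ∀ g : G, g • M = M := by
  -- the action on subsets of `Y` depends only on the image in `Γ`
  have hsame : ∀ g g' : G, π g = π g' → ∀ M ⊆ Y, g • M = g' • M := by
    have key : ∀ g g' : G, π g = π g' → ∀ M ⊆ Y, g • M ⊆ g' • M := by
      rintro g g' h M hM _ ⟨x, hx, rfl⟩
      have h1 : π (g'⁻¹ * g) = 1 := by simp [h]
      have h2 := hker _ h1 x (hM hx)
      refine ⟨x, hx, ?_⟩
      show g' • x = g • x
      rw [← h2, mul_smul, smul_inv_smul, ← mul_smul]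
      rw [mul_smul] at h2
      have h3 : g • x = g' • x := by
        have := congrArg (fun v => g' • v) h2
        simpa using this
      rw [mul_smul, h2, h3]
    intro g g' h M hM
    exact Set.Subset.antisymm (key g g' h M hM) (key g' g h.symm M hM)
  have main := solvable_induction (Γ := Γ)
    (fun H => ∃ M, Cell X M ∧ M ⊆ Y ∧ ∀ g : G, π g ∈ H → g • M = M) ?_ ?_
  · obtain ⟨M, h1, h2, h3⟩ := main
    exact ⟨M, h1, h2, fun g => h3 g (Subgroup.mem_top _)⟩
  · obtain ⟨y, hy⟩ := hYne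
    refine ⟨{y}, cell_singleton hX y, by simpa using hy, fun g hg => ?_⟩
    rw [Subgroup.mem_bot] at hg
    rw [Set.smul_set_singleton, hker g hg y hy]
  · rintro N S ⟨M0, h1, h2, h3⟩ hnorm ⟨p, hp, hS⟩
    have : Fact p.Prime := ⟨hp⟩
    have : Fintype (QN X Y (N.comap π)) := (QN_finite hYf (N.comap π)).fintype
    have hne : (QN X Y (N.comap π)).Nonempty := ⟨M0, h1, h2, fun g hg => h3 g hg⟩
    obtain ⟨t, ht1, ht2⟩ := euler_cells hX ha hYf hYc (N.comap π) hne
    obtain ⟨f, hf⟩ := mob_exists (QN X Y (N.comap π))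
    have hsum := euler hf ht1 ht2
    choose σ hσ using hπ
    have hmem : ∀ (s : S) (M : QN X Y (N.comap π)), σ s.1 • M.1 ∈ QN X Y (N.comap π) := by
      intro s M
      refine ⟨ha.cell hX _ M.2.1, ?_, fun g hg => ?_⟩
      · exact (Set.smul_set_mono M.2.2.1).trans (hYG (σ s.1)).subset
      · rw [← mul_smul]
        have e1 : g * σ s.1 = σ s.1 * ((σ s.1)⁻¹ * g * σ s.1) := by group
        rw [e1, mul_smul]
        congr 1
        apply M.2.2.2
        rw [Subgroup.mem_comap, map_mul, map_mul, map_inv, hσ]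
        have := hnorm s.1⁻¹ (S.inv_mem s.2) (π g) hg
        rwa [inv_inv] at this
    let act : MulAction S (QN X Y (N.comap π)) :=
      { smul := fun s M => ⟨σ s.1 • M.1, hmem s M⟩
        one_smul := by
          intro M
          apply Subtype.ext
          show σ (1 : S).1 • M.1 = M.1
          have := hsame (σ (1 : S).1) 1 (by rw [hσ, map_one]; rfl) M.1 M.2.2.1
          rw [this, one_smul]
        mul_smul := by
          intro s s' M
          apply Subtype.ext
          show σ (s * s').1 • M.1 = σ s.1 • (σ s'.1 • M.1)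
          rw [← mul_smul]
          apply hsame _ _ _ M.1 M.2.2.1
          rw [hσ, map_mul, hσ, hσ]
          rfl }
    obtain ⟨M, hM⟩ := exists_fixed (α := QN X Y (N.comap π)) hS (fun s a b hab => by
      show σ s.1 • a.1 ⊆ σ s.1 • b.1
      exact Set.smul_set_mono hab) hf hsum
    refine ⟨M.1, M.2.1, M.2.2.1, fun g hg => ?_⟩
    have hle : N ⊔ S ≤ (MulAction.stabilizer G M.1).map π := by
      rw [sup_le_iff]
      constructor
      · intro n hn
        refine ⟨σ n, ?_, hσ n⟩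
        rw [SetLike.mem_coe, MulAction.mem_stabilizer_iff]
        apply M.2.2.2
        rw [Subgroup.mem_comap, hσ]
        exact hn
      · intro s hs
        refine ⟨σ s, ?_, hσ s⟩
        rw [SetLike.mem_coe, MulAction.mem_stabilizer_iff]
        exact congrArg Subtype.val (hM ⟨s, hs⟩)
    obtain ⟨g', hg', he⟩ := hle hg
    rw [SetLike.mem_coe, MulAction.mem_stabilizer_iff] at hg'
    rw [hsame g g' he.symm M.1 M.2.2.1]
    exact hg'

end Pool.Agent.Med7a
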